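import Pool.Agent.H623.TS.N

/-!
# The law of the number of odd steps above almost every root
-/

set_option autoImplicit false

namespace Pool.Agent.H623.TS

open Finset Filter Topology MeasureTheory Pool.Agent.H320R2.PD Pool.Agent.H377R2.NK
open Pool.Agent.X16.SL (ms3 bs3 mu3 cl mem_cl_iff meas_cl stp stp_eq stp_meas stp_int int_stp real_cl)

attribute [local instance] ms3
attribute [local instance] bs3

theorem ic_one : ic 0 0 0 = fun _ => 1 := by
  funext x
  unfold ic
  rw [if_pos]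
  rw [pow_zero, pow_zero, one_mul]
  exact one_dvd _

/-- distance between the graded parts and the binomial parts of the whole -/
noncomputable def gap (k : ℕ) (x : ℤ) : ℝ :=
  ∑ i ∈ range (k + 1), |Mi (fun _ => 1) k i x - bet k i * P^[k] (fun _ => 1) x|

theorem one_per : Per 0 (fun _ => (1 : ℝ)) := fun _ _ => rfl

theorem iter_one_per (k : ℕ) : Per k (P^[k] (fun _ => (1 : ℝ))) := by
  have := one_per.iter k
  rwa [zero_add] at this

theorem gap_per (k : ℕ) : Per k (gap k) := by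
  intro x y
  unfold gap
  refine sum_congr rfl fun i _ => ?_
  have h1 : Per k (Mi (fun _ => 1) k i) := by
    have := Mi_per one_per k i
    rwa [zero_add] at this
  rw [h1 x y, iter_one_per k x y]

theorem gap_nonneg (k : ℕ) (x : ℤ) : 0 ≤ gap k x := sum_nonneg fun i _ => abs_nonneg _

theorem gap_lim : Tendsto (fun k => S k (gap k) / 3 ^ k) atTop (𝓝 0) := by
  rw [Metric.tendsto_atTop]
  intro ε hε
  obtain ⟨J₀, hJ₀⟩ := glim_one (show 0 < ε / 4 by positivity)
  obtain ⟨n₀, hn₀⟩ := main_conv one_per (show 0 < ε / 4 by positivity)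
  set J := max J₀ n₀ with hJ
  obtain ⟨K₁, hK₁⟩ := hJ₀ J (le_max_left _ _)
  obtain ⟨K₂, hK₂⟩ := hn₀ J (le_max_right _ _)
  refine ⟨max K₁ K₂, fun k hk => ?_⟩
  have h1 := hK₁ k ((le_max_left _ _).trans hk) (J + k) le_rfl
  have h2 := hK₂ k ((le_max_right _ _).trans hk) (J + k) (by omega)
  have h20 : S 0 (fun _ => (1 : ℝ)) / 3 ^ 0 = 1 := by simp [S]
  rw [h20] at h2
  have h3 : S k (gap k) / 3 ^ k = ∑ i ∈ range (k + 1),
      N (J + k) (fun x => Mi (fun _ => 1) k i x - bet k i * P^[k] (fun _ => 1) x) := by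
    have h4 : S k (gap k) / 3 ^ k = S (J + k) (gap k) / 3 ^ (J + k) := by
      rw [add_comm J k, S_per (gap_per k), pow_add]
      field_simp
    rw [h4]
    unfold N S gap
    rw [sum_comm, sum_div]
  have h5 : ∀ i ∈ range (k + 1),
      N (J + k) (fun x => Mi (fun _ => 1) k i x - bet k i * P^[k] (fun _ => 1) x) ≤
      N (J + k) (fun x => Mi (fun _ => 1) k i x - bet k i * D J x) +
      bet k i * N (J + k) (fun x => P^[k] (fun _ => 1) x - 1 * D J x) := by
    intro i _
    have e : ∀ x, Mi (fun _ => 1) k i x - bet k i * P^[k] (fun _ => 1) x =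
        (Mi (fun _ => 1) k i x - bet k i * D J x) +
        (-bet k i) * (P^[k] (fun _ => 1) x - 1 * D J x) := by
      intro x
      ring
    rw [N_congr e]
    refine (N_add _ _).trans ?_
    rw [N_smul, abs_neg, abs_of_nonneg (bet_nonneg _ _)]
  have h6 := sum_le_sum h5
  rw [← h3, sum_add_distrib, ← sum_mul, bet_total, one_mul] at h6
  have h7 : 0 ≤ S k (gap k) / 3 ^ k :=
    div_nonneg (sum_nonneg fun x _ => gap_nonneg _ _) (by positivity)
  rw [Real.dist_eq, sub_zero, abs_of_nonneg h7]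
  linarith

section Law

variable {f : ℤ_[3] → ℝ} (hf : Integrable f mu3)
  (hlim : Tendsto (fun n => ∫ z, |up n (D n) z - f z| ∂mu3) atTop (𝓝 0))

include hf hlim

/-- few roots have a small tree -/
theorem few_small (hpos : ∀ᵐ z ∂mu3, ¬ (3 : ℤ_[3]) ∣ z → 0 < f z) {η : ℝ} (hη : 0 < η) :
    ∃ δ : ℝ, 0 < δ ∧ ∀ᶠ k : ℕ in atTop,
      ((((range (3 ^ (k + 1))).filter (fun a => ¬ 3 ∣ a)).filter
        (fun a => (3 / 4 : ℝ) ^ k * (nodes k 1 0 a : ℝ) ≤ δ)).card : ℝ) / (2 * 3 ^ k) ≤ η := by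
  have hp := nu_prob hf
  have h0 := nu_pos hf hpos
  -- choice of `δ`
  obtain ⟨δ, hδ, hδν⟩ : ∃ δ : ℝ, 0 < δ ∧ (nu f).real (Set.Iic (2 * δ)) < η := by
    have h1 : Tendsto (fun n : ℕ => nu f (Set.Iic (2 * (1 / ((n : ℝ) + 1))))) atTop
        (𝓝 (nu f (⋂ n : ℕ, Set.Iic (2 * (1 / ((n : ℝ) + 1)))))) := by
      apply tendsto_measure_iInter_atTop
      · exact fun n => measurableSet_Iic.nullMeasurableSet
      · intro a b hab
        apply Set.Iic_subset_Iic.2
        have : (a : ℝ) ≤ b := by exact_mod_cast hab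
        have h2 : 1 / ((b : ℝ) + 1) ≤ 1 / ((a : ℝ) + 1) :=
          one_div_le_one_div_of_le (by positivity) (by linarith)
        linarith
      · exact ⟨0, measure_ne_top _ _⟩
    have h2 : (⋂ n : ℕ, Set.Iic (2 * (1 / ((n : ℝ) + 1)))) ⊆ Set.Iic (0 : ℝ) := by
      intro t ht
      rw [Set.mem_iInter] at ht
      rw [Set.mem_Iic]
      have h3 : Tendsto (fun n : ℕ => 2 * (1 / ((n : ℝ) + 1))) atTop (𝓝 (2 * 0)) :=
        (tendsto_one_div_add_atTop_nhds_zero_nat).const_mul 2
      rw [mul_zero] at h3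
      exact ge_of_tendsto' h3 fun n => ht n
    have h3 : nu f (⋂ n : ℕ, Set.Iic (2 * (1 / ((n : ℝ) + 1)))) = 0 := by
      exact le_antisymm ((measure_mono h2).trans (le_of_eq h0)) (zero_le)
    rw [h3] at h1
    have h4 := (tendsto_order.1 h1).2 (ENNReal.ofReal η) (by simpa using hη)
    obtain ⟨n, hn⟩ := h4.exists
    refine ⟨1 / ((n : ℝ) + 1), by positivity, ?_⟩
    rw [measureReal_def]
    exact (ENNReal.lt_ofReal_iff_toReal_lt (measure_ne_top _ _)).1 hn
  refine ⟨δ, hδ, ?_⟩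
  set φ : ℝ → ℝ := fun t => max 0 (min 1 (2 - t / δ)) with hφ
  have hLip : LipschitzWith (Real.toNNReal (1 / δ)) φ := by
    have h1 : LipschitzWith (Real.toNNReal (1 / δ)) (fun t : ℝ => 2 - t / δ) := by
      apply LipschitzWith.of_dist_le_mul
      intro s t
      rw [Real.dist_eq, Real.dist_eq, Real.coe_toNNReal _ (by positivity)]
      have : 2 - s / δ - (2 - t / δ) = -(1 / δ * (s - t)) := by ring
      rw [this, abs_neg, abs_mul, abs_of_pos (by positivity)]
    exact (h1.const_min 1).const_max 0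
  have hlaw := law_lim hf hlim hLip
  have hint : ∫ t, φ t ∂(nu f) ≤ (nu f).real (Set.Iic (2 * δ)) := by
    rw [← integral_indicator_one measurableSet_Iic]
    refine integral_mono_of_nonneg (Eventually.of_forall fun t => le_max_left _ _) ?_
      (Eventually.of_forall fun t => ?_)
    · exact (integrable_const (1 : ℝ)).indicator measurableSet_Iic
    · by_cases h : t ≤ 2 * δ
      · rw [Set.indicator_of_mem (Set.mem_Iic.2 h)]
        exact max_le (by norm_num) (min_le_left _ _)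
      · rw [Set.indicator_of_notMem (by simpa using h)]
        apply max_le le_rfl
        refine (min_le_right _ _).trans ?_
        rw [not_le] at h
        have : 2 ≤ t / δ := by
          rw [le_div_iff₀ hδ]
          exact h.le
        linarith
  have hev := (tendsto_order.1 hlaw).2 η (lt_of_le_of_lt hint hδν)
  filter_upwards [hev] with k hk
  refine le_trans ?_ hk.le
  refine div_le_div_of_nonneg_right ?_ (by positivity)
  rw [card_eq_sum_ones]
  push_cast
  rw [sum_filter]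
  refine sum_le_sum fun a _ => ?_
  split_ifs with h
  · have : φ ((3 / 4 : ℝ) ^ k * (nodes k 1 0 a : ℝ)) = 1 := by
      rw [hφ]
      dsimp only
      have h1 : (3 / 4 : ℝ) ^ k * (nodes k 1 0 a : ℝ) / δ ≤ 1 := by
        rw [div_le_one hδ]
        exact h
      rw [min_eq_left (by linarith), max_eq_right (by norm_num)]
    rw [this]
  · exact le_max_left _ _

/-- **the number of odd steps** above almost every root -/
theorem quenched (hpos : ∀ᵐ z ∂mu3, ¬ (3 : ℤ_[3]) ∣ z → 0 < f z) {ε : ℝ} (hε : 0 < ε) :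
    Tendsto (fun k : ℕ => ((((range (3 ^ (k + 1))).filter (fun a => ¬ 3 ∣ a)).filter
        (fun a => ε * (nodes k 1 0 a : ℝ) <
          ∑ i ∈ range (k + 1), |(gnodes k i 1 0 a : ℝ) - bet k i * (nodes k 1 0 a : ℝ)|)).card : ℝ) /
        (2 * 3 ^ k)) atTop (𝓝 0) := by
  rw [Metric.tendsto_atTop]
  intro η hη
  obtain ⟨δ, hδ, hsm⟩ := few_small hf hlim hpos (show 0 < η / 2 by positivity)
  have hg := (tendsto_order.1 gap_lim).2 (ε * δ * η / 6) (by positivity)
  obtain ⟨K, hK⟩ := eventually_atTop.1 (hsm.and hg)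
  refine ⟨K, fun k hk => ?_⟩
  obtain ⟨h1, h2⟩ := hK k hk
  set A := (range (3 ^ (k + 1))).filter (fun a => ¬ 3 ∣ a) with hA
  have hA1 : ∀ a ∈ A, 1 ≤ a := by
    intro a ha
    rw [hA, mem_filter] at ha
    rcases Nat.eq_zero_or_pos a with h | h
    · subst h
      exact absurd (dvd_zero 3) ha.2
    · exact h
  have hval : ∀ a ∈ A, (3 / 4 : ℝ) ^ k * ∑ i ∈ range (k + 1),
      |(gnodes k i 1 0 a : ℝ) - bet k i * (nodes k 1 0 a : ℝ)| = gap k a := by
    intro a ha
    unfold gap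
    rw [mul_sum]
    refine sum_congr rfl fun i _ => ?_
    have e1 := gnodes_eq (k := k) (i := i) (j := 0) (m := 0) (r := 0) (hA1 a ha)
    have e2 := nodes_eq (k := k) (j := 0) (m := 0) (r := 0) (hA1 a ha)
    rw [ic_one, pow_zero, pow_zero, one_mul] at e1 e2
    rw [← e1, ← e2]
    have e3 : (3 / 4 : ℝ) ^ k * (gnodes k i 1 0 a : ℝ) - bet k i * ((3 / 4) ^ k * (nodes k 1 0 a : ℝ)) =
        (3 / 4) ^ k * ((gnodes k i 1 0 a : ℝ) - bet k i * (nodes k 1 0 a : ℝ)) := by ring
    rw [e3, abs_mul, abs_of_nonneg (by positivity : (0 : ℝ) ≤ (3 / 4) ^ k)]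
  set B := A.filter (fun a => ε * (nodes k 1 0 a : ℝ) <
          ∑ i ∈ range (k + 1), |(gnodes k i 1 0 a : ℝ) - bet k i * (nodes k 1 0 a : ℝ)|) with hB
  set C := A.filter (fun a => (3 / 4 : ℝ) ^ k * (nodes k 1 0 a : ℝ) ≤ δ) with hC
  set E := A.filter (fun a : ℕ => ε * δ ≤ gap k a) with hE
  have hsub : B ⊆ C ∪ E := by
    intro a ha
    rw [hB, mem_filter] at ha
    obtain ⟨ha1, ha2⟩ := ha
    rw [mem_union]
    rcases le_or_gt ((3 / 4 : ℝ) ^ k * (nodes k 1 0 a : ℝ)) δ with h | h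
    · exact Or.inl (mem_filter.2 ⟨ha1, h⟩)
    · refine Or.inr (mem_filter.2 ⟨ha1, ?_⟩)
      rw [← hval a ha1]
      have h3 : (0 : ℝ) < (3 / 4) ^ k := by positivity
      have h4 := mul_lt_mul_of_pos_left ha2 h3
      have h5 : ε * δ ≤ ε * ((3 / 4 : ℝ) ^ k * (nodes k 1 0 a : ℝ)) :=
        mul_le_mul_of_nonneg_left h.le hε.le
      linarith
  have hcard : (B.card : ℝ) ≤ C.card + E.card := by
    exact_mod_cast (card_le_card hsub).trans (card_union_le _ _)
  have hEc : ε * δ * (E.card : ℝ) ≤ 3 * S k (gap k) := by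
    have h3 : ε * δ * (E.card : ℝ) = ∑ _a ∈ E, ε * δ := by
      rw [sum_const, nsmul_eq_mul]; ring
    rw [h3]
    have h4 : ∑ _a ∈ E, ε * δ ≤ ∑ a ∈ E, gap k (a : ℤ) :=
      sum_le_sum fun a ha => (mem_filter.1 ha).2
    have h5 : ∑ a ∈ E, gap k (a : ℤ) ≤ S (k + 1) (gap k) := by
      unfold S
      refine sum_le_sum_of_subset_of_nonneg ?_ fun a _ _ => gap_nonneg _ _
      exact (filter_subset _ _).trans (filter_subset _ _)
    rw [S_per (gap_per k) 1, pow_one] at h5
    linarith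
  rw [Real.dist_eq, sub_zero, abs_of_nonneg (by positivity)]
  have h3p : (0 : ℝ) < 3 ^ k := by positivity
  rw [div_lt_iff₀ h3p] at h2
  rw [div_le_iff₀ (by positivity)] at h1
  rw [div_lt_iff₀ (by positivity)]
  have hεδ : 0 < ε * δ := by positivity
  have h6 : (E.card : ℝ) < η / 2 * 3 ^ k := by
    by_contra hcon
    rw [not_lt] at hcon
    have := mul_le_mul_of_nonneg_left hcon hεδ.le
    nlinarith
  nlinarith

end Law

end Pool.Agent.H623.TS
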