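import Pool.Agent.H623.TS.D
import Pool.Graph.R_pool_sql_team_seeded_64922ed1.X16.SL.D

/-!
# The limit density on the `3`-adic integers
-/

set_option autoImplicit false

namespace Pool.Agent.H623.TS

open Finset Filter Topology MeasureTheory Pool.Agent.H320R2.PD Pool.Agent.H377R2.NK
open Pool.Agent.X16.SL (ms3 bs3 mu3 cl mem_cl_iff meas_cl stp stp_eq stp_meas stp_int int_stp real_cl)
open scoped ENNReal

attribute [local instance] ms3
attribute [local instance] bs3

/-- the function on the `3`-adic integers defined by a function modulo `3 ^ n` -/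
noncomputable def up (n : ℕ) (g : ℤ → ℝ) : ℤ_[3] → ℝ := stp n (fun x => g (x : ℤ))

theorem up_apply (n : ℕ) (g : ℤ → ℝ) (z : ℤ_[3]) : up n g z = g (z.appr n : ℤ) := rfl

theorem appr_per {n m : ℕ} (hnm : n ≤ m) {g : ℤ → ℝ} (h : Per n g) (z : ℤ_[3]) :
    g (z.appr m : ℤ) = g (z.appr n : ℤ) := by
  have h1 := PadicInt.dvd_appr_sub_appr z n m hnm
  have h2 := PadicInt.appr_mono z hnm
  obtain ⟨k, hk⟩ := h1
  have h3 : z.appr m = z.appr n + 3 ^ n * k := by omega
  rw [h3]
  push_cast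
  exact h _ _

theorem up_per {n m : ℕ} (hnm : n ≤ m) {g : ℤ → ℝ} (h : Per n g) : up m g = up n g := by
  funext z
  exact appr_per hnm h z

theorem up_int (n : ℕ) (g : ℤ → ℝ) : Integrable (up n g) mu3 := stp_int n _

theorem integral_up (n : ℕ) (g : ℤ → ℝ) : ∫ z, up n g z ∂mu3 = S n g / 3 ^ n := int_stp n _

theorem integral_abs_up (n : ℕ) (f g : ℤ → ℝ) : ∫ z, |up n f z - up n g z| ∂mu3 =
    N n (fun x => f x - g x) := by
  have h := integral_up n (fun x => |f x - g x|)
  rw [← show S n (fun x => |f x - g x|) / 3 ^ n = N n (fun x => f x - g x) from rfl, ← h]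
  rfl

theorem dist_up (m l : ℕ) : ∫ z, |up (m + l) (D (m + l)) z - up m (D m) z| ∂mu3 =
    N (m + l) (fun x => D (m + l) x - D m x) := by
  rw [← integral_abs_up, up_per (Nat.le_add_right m l) (D_per m)]

/-- a limit in mean of the critical martingale -/
theorem exists_F : ∃ f : ℤ_[3] → ℝ, Integrable f mu3 ∧
    Tendsto (fun n => ∫ z, |up n (D n) z - f z| ∂mu3) atTop (𝓝 0) := by
  have hc : CauchySeq (fun n => Integrable.toL1 (up n (D n)) (up_int n _)) := by
    rw [Metric.cauchySeq_iff']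
    intro ε hε
    obtain ⟨M, hM⟩ := cauchy (show 0 < ε / 2 by positivity)
    refine ⟨M, fun n hn => ?_⟩
    obtain ⟨l, rfl⟩ := Nat.exists_eq_add_of_le hn
    rw [dist_eq_norm, ← Integrable.toL1_sub, Integrable.norm_toL1_eq_lintegral_enorm]
    have h1 := hM M l le_rfl
    rw [← dist_up] at h1
    have h2 : (∫⁻ a, ‖(up (M + l) (D (M + l)) - up M (D M)) a‖ₑ ∂mu3).toReal =
        ∫ z, |up (M + l) (D (M + l)) z - up M (D M) z| ∂mu3 := by
      rw [← integral_norm_eq_lintegral_enorm ((up_int _ _).sub (up_int _ _)).1]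
      rfl
    rw [h2]
    linarith
  obtain ⟨F, hF⟩ := cauchySeq_tendsto_of_complete hc
  refine ⟨F, L1.integrable_coeFn F, ?_⟩
  rw [tendsto_iff_dist_tendsto_zero] at hF
  refine hF.congr fun n => ?_
  have h1 : Integrable.toL1 (F : ℤ_[3] → ℝ) (L1.integrable_coeFn F) = F := Integrable.toL1_coeFn F _
  conv_lhs => rw [← h1]
  rw [dist_eq_norm, ← Integrable.toL1_sub, Integrable.norm_toL1_eq_lintegral_enorm,
    ← integral_norm_eq_lintegral_enorm ((up_int _ _).sub (L1.integrable_coeFn F)).1]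
  rfl

theorem D_three {n : ℕ} {x : ℤ} (h : (3 : ℤ) ∣ x) : D (n + 1) x = 0 := by
  have h1 : ∀ A : ℕ, DD 3 A (n + 1) x = 0 := by
    intro A
    rw [DD3_succ]
    refine sum_eq_zero fun e _ => ?_
    rw [if_neg]
    intro h2
    have h3 : (3 : ℤ) ∣ 2 ^ e * x := Dvd.dvd.mul_left h _
    omega
  unfold D
  simp [h1]

theorem three_dvd_appr {n : ℕ} (hn : 1 ≤ n) (z : ℤ_[3]) : (3 : ℤ) ∣ (z.appr n : ℤ) ↔ (3 : ℤ_[3]) ∣ z := by
  have h6 := PadicInt.appr_spec n z
  rw [Ideal.mem_span_singleton] at h6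
  have h7 : (3 : ℤ_[3]) ∣ z - (z.appr n : ℤ_[3]) := by
    refine dvd_trans ?_ h6
    obtain ⟨k, hk⟩ := Nat.exists_eq_add_of_le hn
    rw [hk, pow_add, pow_one]
    exact ⟨_, by push_cast; rfl⟩
  have h8 : (3 : ℤ) ∣ (z.appr n : ℤ) ↔ (3 : ℤ_[3]) ∣ ((z.appr n : ℤ) : ℤ_[3]) := by
    have := PadicInt.pow_p_dvd_int_iff (p := 3) 1 (z.appr n : ℤ)
    rw [pow_one, pow_one] at this
    exact_mod_cast this.symm
  rw [h8]
  push_cast
  constructor
  · intro h
    have := dvd_add h7 h
    rwa [sub_add_cancel] at this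
  · intro h
    have := dvd_sub h h7
    rwa [sub_sub_cancel] at this

theorem units_eq : {z : ℤ_[3] | ¬ (3 : ℤ_[3]) ∣ z} = (cl 1 0)ᶜ := by
  ext z
  simp [cl]

theorem units_meas : MeasurableSet {z : ℤ_[3] | ¬ (3 : ℤ_[3]) ∣ z} := by
  rw [units_eq]
  exact (meas_cl 1 0).compl

open scoped Classical in
/-- the density exists -/
theorem exists_f : ∃ f : ℤ_[3] → ℝ, Integrable f mu3 ∧ (∀ z, 0 ≤ f z) ∧
    (∀ z, (3 : ℤ_[3]) ∣ z → f z = 0) ∧
    Tendsto (fun n => ∫ z, |up n (D n) z - f z| ∂mu3) atTop (𝓝 0) := by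
  obtain ⟨F, hF, hlim⟩ := exists_F
  have hint : Integrable ({z : ℤ_[3] | ¬ (3 : ℤ_[3]) ∣ z}.indicator (fun z => |F z|)) mu3 :=
    hF.abs.indicator units_meas
  refine ⟨{z : ℤ_[3] | ¬ (3 : ℤ_[3]) ∣ z}.indicator (fun z => |F z|), hint, ?_, ?_, ?_⟩
  · intro z
    exact Set.indicator_nonneg (fun _ _ => abs_nonneg _) z
  · intro z hz
    rw [Set.indicator_of_notMem]
    simpa using hz
  · refine tendsto_of_tendsto_of_tendsto_of_le_of_le' tendsto_const_nhds hlim
      (Eventually.of_forall fun n => integral_nonneg fun z => abs_nonneg _) ?_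
    filter_upwards [eventually_ge_atTop 1] with n hn
    refine integral_mono ((up_int _ _).sub hint).abs ((up_int _ _).sub hF).abs fun z => ?_
    dsimp only
    by_cases hz : (3 : ℤ_[3]) ∣ z
    · rw [Set.indicator_of_notMem (by simpa using hz)]
      have h1 : up n (D n) z = 0 := by
        rw [up_apply]
        obtain ⟨l, rfl⟩ := Nat.exists_eq_add_of_le' hn
        exact D_three ((three_dvd_appr hn z).2 hz)
      rw [h1, sub_zero, abs_zero]
      exact abs_nonneg _
    · rw [Set.indicator_of_mem hz]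
      have h0 : 0 ≤ up n (D n) z := by rw [up_apply]; exact D_nonneg _ _
      have h1 := abs_abs_sub_abs_le_abs_sub (up n (D n) z) (F z)
      rwa [abs_of_nonneg h0] at h1

section Main

variable {f : ℤ_[3] → ℝ} (hf : Integrable f mu3)
  (hlim : Tendsto (fun n => ∫ z, |up n (D n) z - f z| ∂mu3) atTop (𝓝 0))

include hf hlim

theorem conv_up {m : ℕ} {g : ℤ → ℝ} (hg : Per m g) :
    Tendsto (fun k => ∫ z, |up (m + k) (P^[k] g) z - S m g / 3 ^ m * f z| ∂mu3) atTop (𝓝 0) := by
  set γ : ℝ := S m g / 3 ^ m with hγ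
  rw [Metric.tendsto_atTop]
  intro ε hε
  obtain ⟨n₀, hn₀⟩ := main_conv hg (show 0 < ε / 2 by positivity)
  have h1 := (tendsto_order.1 hlim).2 (ε / (2 * (|γ| + 1))) (by positivity)
  obtain ⟨n₁, hn₁⟩ := eventually_atTop.1 h1
  set n : ℕ := max n₀ n₁ with hn
  obtain ⟨K, hK⟩ := hn₀ n (le_max_left _ _)
  refine ⟨K, fun k hk => ?_⟩
  have h2 := hn₁ n (le_max_right _ _)
  have h3 := hK k hk (m + n + k) le_rfl
  rw [Real.dist_eq, sub_zero, abs_of_nonneg (integral_nonneg fun z => abs_nonneg _)]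
  have h4 : ∫ z, |up (m + k) (P^[k] g) z - γ * f z| ∂mu3 ≤
      ∫ z, (|up (m + n + k) (P^[k] g) z - up (m + n + k) (fun x => γ * D n x) z| +
        |γ| * |up n (D n) z - f z|) ∂mu3 := by
    refine integral_mono ((up_int _ _).sub (hf.const_mul γ)).abs
      (((up_int _ _).sub (up_int _ _)).abs.add (((up_int _ _).sub hf).abs.const_mul _)) fun z => ?_
    dsimp only
    have e1 : up (m + n + k) (P^[k] g) z = up (m + k) (P^[k] g) z := by
      rw [up_per (show m + k ≤ m + n + k by omega) (hg.iter k)]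
    have e2 : up (m + n + k) (fun x => γ * D n x) z = γ * up n (D n) z := by
      rw [up_apply, up_apply, appr_per (show n ≤ m + n + k by omega) (D_per n)]
    rw [e1, e2, ← abs_mul]
    have : up (m + k) (P^[k] g) z - γ * f z = (up (m + k) (P^[k] g) z - γ * up n (D n) z) +
        γ * (up n (D n) z - f z) := by ring
    rw [this]
    exact abs_add_le _ _
  refine lt_of_le_of_lt h4 ?_
  have h4' := integral_add (μ := mu3)
    (f := fun z => |up (m + n + k) (P^[k] g) z - up (m + n + k) (fun x => γ * D n x) z|)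
    (g := fun z => |γ| * |up n (D n) z - f z|) ((up_int _ _).sub (up_int _ _)).abs
    (((up_int _ _).sub hf).abs.const_mul _)
  rw [h4', integral_abs_up, integral_const_mul]
  have h5 : |γ| * ∫ z, |up n (D n) z - f z| ∂mu3 < ε / 2 := by
    have h6 : |γ| * ∫ z, |up n (D n) z - f z| ∂mu3 ≤ |γ| * (ε / (2 * (|γ| + 1))) :=
      mul_le_mul_of_nonneg_left h2.le (abs_nonneg _)
    refine lt_of_le_of_lt h6 ?_
    rw [← mul_div_assoc, div_lt_div_iff₀ (by positivity) (by norm_num)]
    nlinarith [abs_nonneg γ]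
  linarith

theorem ball_nat (n x : ℕ) (hx : x < 3 ^ n) :
    ∫ z in cl n (x : ℤ_[3]), f z ∂mu3 = D n x / 3 ^ n := by
  have hlim' : Tendsto (fun n => ∫⁻ z, ‖up n (D n) z - f z‖ₑ ∂mu3) atTop (𝓝 0) := by
    have h1 : ∀ n, ∫⁻ z, ‖up n (D n) z - f z‖ₑ ∂mu3 =
        ENNReal.ofReal (∫ z, |up n (D n) z - f z| ∂mu3) := by
      intro n
      rw [ofReal_integral_eq_lintegral_ofReal (f := fun z => |up n (D n) z - f z|)
        ((up_int _ _).sub hf).abs (Eventually.of_forall fun z => abs_nonneg _)]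
      refine lintegral_congr fun z => ?_
      rw [← Real.enorm_of_nonneg (abs_nonneg _)]
      simp
    simp only [h1]
    rw [← ENNReal.ofReal_zero]
    exact (ENNReal.continuous_ofReal.tendsto 0).comp hlim
  have h1 := tendsto_setIntegral_of_L1 f hf.1 (Eventually.of_forall fun n => up_int n (D n)) hlim'
    (cl n (x : ℤ_[3]))
  refine tendsto_nhds_unique h1 ?_
  refine tendsto_const_nhds.congr' ?_
  filter_upwards [eventually_ge_atTop n] with m hm
  obtain ⟨l, rfl⟩ := Nat.exists_eq_add_of_le hm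
  rw [← integral_indicator (meas_cl n _)]
  set φ : ℤ → ℝ := fun y => if (3 : ℤ) ^ n ∣ y - x then 1 else 0 with hφ
  have hφp : Per n φ := by
    intro y w
    rw [hφ]
    dsimp only
    have e : y + 3 ^ n * w - x = y - x + 3 ^ n * w := by ring
    rw [e]
    have : (3 : ℤ) ^ n ∣ y - x + 3 ^ n * w ↔ (3 : ℤ) ^ n ∣ y - x :=
      dvd_add_left (Dvd.intro _ rfl)
    simp only [this]
  have h2 : (cl n (x : ℤ_[3])).indicator (up (n + l) (D (n + l))) =
      up (n + l) (fun y => D (n + l) y * φ y) := by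
    funext z
    rw [up_apply, appr_per (Nat.le_add_right n l) hφp]
    have h3 : z ∈ cl n (x : ℤ_[3]) ↔ (3 : ℤ) ^ n ∣ (z.appr n : ℤ) - x := by
      rw [mem_cl_iff n x hx]
      constructor
      · intro h
        rw [h, sub_self]
        exact dvd_zero _
      · intro h
        have h5 : ((z.appr n : ℤ) - (x : ℤ)) = 0 := by
          apply Int.eq_zero_of_abs_lt_dvd h
          have a1 : (z.appr n : ℤ) < 3 ^ n := by exact_mod_cast PadicInt.appr_lt z n
          have a2 : (x : ℤ) < 3 ^ n := by exact_mod_cast hx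
          rw [abs_lt]
          constructor <;> linarith [Int.natCast_nonneg (z.appr n), Int.natCast_nonneg x]
        omega
    by_cases h : z ∈ cl n (x : ℤ_[3])
    · rw [Set.indicator_of_mem h, hφ]
      dsimp only
      rw [if_pos (h3.1 h), mul_one]
      rfl
    · rw [Set.indicator_of_notMem h, hφ]
      dsimp only
      rw [if_neg (fun h' => h (h3.2 h')), mul_zero]
  rw [h2, integral_up, D_mart n l hφp]
  have h3 : S n (fun y => D n y * φ y) = D n x := by
    unfold S
    rw [sum_eq_single x]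
    · rw [hφ]
      simp
    · intro b hb hne
      rw [hφ]
      dsimp only
      rw [if_neg, mul_zero]
      intro h
      have h5 : ((b : ℤ) - (x : ℤ)) = 0 := by
        apply Int.eq_zero_of_abs_lt_dvd h
        have a1 : (b : ℤ) < 3 ^ n := by exact_mod_cast mem_range.1 hb
        have a2 : (x : ℤ) < 3 ^ n := by exact_mod_cast hx
        rw [abs_lt]
        constructor <;> linarith [Int.natCast_nonneg b, Int.natCast_nonneg x]
      omega
    · intro h
      exact absurd (mem_range.2 hx) h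
  rw [h3, pow_add]
  field_simp

theorem ball_mass (n : ℕ) (x : ℤ) : ∫ z in cl n (x : ℤ_[3]), f z ∂mu3 = D n x / 3 ^ n := by
  have h0 : (0 : ℤ) < 3 ^ n := by positivity
  obtain ⟨r, hr⟩ := Int.eq_ofNat_of_zero_le (Int.emod_nonneg x h0.ne')
  have h1 : (r : ℤ) < 3 ^ n := by rw [← hr]; exact Int.emod_lt_of_pos x h0
  have h2 : r < 3 ^ n := by exact_mod_cast h1
  have h3 : x = (r : ℤ) + 3 ^ n * (x / 3 ^ n) := by
    rw [← hr]; exact (Int.emod_add_mul_ediv x (3 ^ n)).symm
  have h4 : cl n (x : ℤ_[3]) = cl n (r : ℤ_[3]) := by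
    ext z
    show (3 : ℤ_[3]) ^ n ∣ z - x ↔ (3 : ℤ_[3]) ^ n ∣ z - r
    have h5 : z - (r : ℤ_[3]) = z - (x : ℤ_[3]) + 3 ^ n * ((x / 3 ^ n : ℤ) : ℤ_[3]) := by
      conv_lhs => rw [show z - (r : ℤ_[3]) = z - ((x - 3 ^ n * (x / 3 ^ n) : ℤ) : ℤ_[3]) by
        have : x - 3 ^ n * (x / 3 ^ n) = (r : ℤ) := by linarith
        rw [this]
        push_cast
        rfl]
      push_cast
      ring
    rw [h5]
    exact (dvd_add_left (Dvd.intro _ rfl)).symm
  rw [h4, ball_nat hf hlim n r h2, h3, D_per]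

end Main

end Pool.Agent.H623.TS
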