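import Mathlib

/-!
# The binomial law with parameter `1/4` is almost invariant under shifts
-/

set_option autoImplicit false

namespace Pool.Agent.H623.TS

open Finset

/-- the binomial law with parameter `1/4` -/
noncomputable def bet (k i : ℕ) : ℝ := (k.choose i : ℝ) * (1 / 4) ^ i * (3 / 4) ^ (k - i)

theorem bet_nonneg (k i : ℕ) : 0 ≤ bet k i := by unfold bet; positivity

theorem bet_zero_zero : bet 0 0 = 1 := by simp [bet]

theorem bet_zero_succ (i : ℕ) : bet 0 (i + 1) = 0 := by simp [bet]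

theorem bet_big {k i : ℕ} (h : k < i) : bet k i = 0 := by
  unfold bet
  rw [Nat.choose_eq_zero_of_lt h]
  simp

theorem bet_succ_zero (k : ℕ) : bet (k + 1) 0 = 3 / 4 * bet k 0 := by
  unfold bet
  simp [pow_succ]
  ring

theorem bet_succ_succ (k i : ℕ) : bet (k + 1) (i + 1) = 3 / 4 * bet k (i + 1) + 1 / 4 * bet k i := by
  unfold bet
  rw [Nat.choose_succ_succ]
  push_cast
  simp only [Nat.succ_eq_add_one]
  rw [pow_succ (1 / 4 : ℝ)]
  rcases Nat.lt_or_ge i k with h | h
  · have e2 : k - i = (k - (i + 1)) + 1 := by omega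
    rw [e2, pow_succ (3 / 4 : ℝ)]
    ring
  · rw [Nat.choose_eq_zero_of_lt (show k < i + 1 by omega)]
    push_cast
    ring

theorem bet_sum_succ (k : ℕ) (F : ℕ → ℝ) : ∑ i ∈ range (k + 2), bet (k + 1) i * F i =
    ∑ i ∈ range (k + 1), bet k i * (3 / 4 * F i + 1 / 4 * F (i + 1)) := by
  rw [sum_range_succ']
  simp only [bet_succ_succ, bet_succ_zero]
  have h1 : ∑ i ∈ range (k + 1), (3 / 4 * bet k (i + 1) + 1 / 4 * bet k i) * F (i + 1) =
      ∑ i ∈ range (k + 1), 3 / 4 * (bet k (i + 1) * F (i + 1)) +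
      ∑ i ∈ range (k + 1), bet k i * (1 / 4 * F (i + 1)) := by
    rw [← sum_add_distrib]
    exact sum_congr rfl fun i _ => by ring
  have h2 : ∑ i ∈ range (k + 1), bet k (i + 1) * F (i + 1) + bet k 0 * F 0 =
      ∑ i ∈ range (k + 1), bet k i * F i := by
    have := sum_range_succ' (fun i => bet k i * F i) (k + 1)
    rw [← this, sum_range_succ, bet_big (show k < k + 1 by omega), zero_mul, add_zero]
  have h3 : ∑ i ∈ range (k + 1), bet k i * (3 / 4 * F i + 1 / 4 * F (i + 1)) =
      3 / 4 * ∑ i ∈ range (k + 1), bet k i * F i + ∑ i ∈ range (k + 1), bet k i * (1 / 4 * F (i + 1)) := by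
    rw [mul_sum, ← sum_add_distrib]
    exact sum_congr rfl fun i _ => by ring
  rw [h1, h3, ← h2, ← mul_sum]
  ring

theorem bet_total (k : ℕ) : ∑ i ∈ range (k + 1), bet k i = 1 := by
  induction k with
  | zero => simp [bet_zero_zero]
  | succ k ih =>
    have := bet_sum_succ k (fun _ => 1)
    simp only [mul_one] at this
    refine this.trans (Eq.trans (sum_congr rfl fun i _ => ?_) ih)
    ring

theorem bet_sum_le (k M : ℕ) : ∑ i ∈ range M, bet k i ≤ 1 := by
  rw [← bet_total k]
  rcases Nat.le_total M (k + 1) with h | h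
  · exact sum_le_sum_of_subset_of_nonneg (range_subset_range.2 h) fun i _ _ => bet_nonneg k i
  · apply le_of_eq
    symm
    apply sum_subset (range_subset_range.2 h)
    intro i _ hi
    rw [mem_range, not_lt] at hi
    exact bet_big (by omega)

theorem bet_var0 (k : ℕ) : ∑ i ∈ range (k + 1), bet k i * ((i : ℝ) - (k : ℝ) / 4) = 0 := by
  induction k with
  | zero => norm_num [bet_zero_zero]
  | succ k ih =>
    have h := bet_sum_succ k (fun i => (i : ℝ) - ((k + 1 : ℕ) : ℝ) / 4)
    refine h.trans (Eq.trans (sum_congr rfl fun i _ => ?_) ih)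
    push_cast
    ring

theorem bet_var (k : ℕ) : ∑ i ∈ range (k + 1), bet k i * ((i : ℝ) - (k : ℝ) / 4) ^ 2 =
    3 / 16 * (k : ℝ) := by
  induction k with
  | zero => norm_num [bet_zero_zero]
  | succ k ih =>
    have h0 := bet_var0 k
    have h := bet_sum_succ k (fun i => ((i : ℝ) - ((k + 1 : ℕ) : ℝ) / 4) ^ 2)
    refine h.trans ?_
    have h1 : ∀ i ∈ range (k + 1), bet k i * (3 / 4 * ((i : ℝ) - ((k + 1 : ℕ) : ℝ) / 4) ^ 2 +
        1 / 4 * (((i + 1 : ℕ) : ℝ) - ((k + 1 : ℕ) : ℝ) / 4) ^ 2) =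
        bet k i * ((i : ℝ) - (k : ℝ) / 4) ^ 2 + 3 / 16 * bet k i := by
      intro i _
      push_cast
      ring
    rw [sum_congr rfl h1, sum_add_distrib, ih, ← mul_sum, bet_total]
    push_cast
    ring

theorem bet_diff (k i : ℕ) : bet k i - bet k (i + 1) =
    16 / (3 * (k + 1)) * (bet (k + 1) (i + 1) * (((i + 1 : ℕ) : ℝ) - ((k + 1 : ℕ) : ℝ) / 4)) := by
  have h1 : ((i : ℝ) + 1) * bet (k + 1) (i + 1) = (k + 1) / 4 * bet k i := by
    unfold bet
    have h := Nat.add_one_mul_choose_eq k i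
    have h' : ((k : ℝ) + 1) * (k.choose i : ℝ) = ((k + 1).choose (i + 1) : ℝ) * ((i : ℝ) + 1) := by
      exact_mod_cast h
    have e1 : k + 1 - (i + 1) = k - i := by omega
    rw [e1, pow_succ (1 / 4 : ℝ)]
    linear_combination (-(1 / 4 : ℝ) ^ i * (1 / 4) * (3 / 4) ^ (k - i)) * h'
  have h2 := bet_succ_succ k i
  have hk : (0 : ℝ) < k + 1 := by positivity
  have h3 : ((k : ℝ) + 1) * (3 / 4 * bet k (i + 1)) = ((k : ℝ) - i) * bet (k + 1) (i + 1) := by
    have : 3 / 4 * bet k (i + 1) = bet (k + 1) (i + 1) - 1 / 4 * bet k i := by linarith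
    rw [this]
    linear_combination h1
  push_cast
  rw [← sub_eq_zero]
  field_simp
  nlinarith [h1, h3]

/-- the bound for the shifts -/
noncomputable def dl (k : ℕ) : ℝ := 4 / Real.sqrt (k + 1)

theorem dl_nonneg (k : ℕ) : 0 ≤ dl k := by unfold dl; positivity

theorem dl_anti {k l : ℕ} (h : k ≤ l) : dl l ≤ dl k := by
  unfold dl
  apply div_le_div_of_nonneg_left (by norm_num) (by positivity)
  apply Real.sqrt_le_sqrt
  have : (k : ℝ) ≤ l := by exact_mod_cast h
  linarith

theorem bet_shift (k M : ℕ) : ∑ i ∈ range M, |bet k i - bet k (i + 1)| ≤ dl k := by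
  have hk : (0 : ℝ) < k + 1 := by positivity
  have h1 : ∀ i ∈ range M, |bet k i - bet k (i + 1)| =
      16 / (3 * (k + 1)) * (bet (k + 1) (i + 1) * |((i + 1 : ℕ) : ℝ) - ((k + 1 : ℕ) : ℝ) / 4|) := by
    intro i _
    rw [bet_diff, abs_mul, abs_mul, abs_of_nonneg (bet_nonneg _ _), abs_of_pos (by positivity)]
  rw [sum_congr rfl h1, ← mul_sum]
  set G : ℕ → ℝ := fun i => bet (k + 1) i * |(i : ℝ) - ((k + 1 : ℕ) : ℝ) / 4| with hG
  have hG0 : ∀ i, 0 ≤ G i := fun i => mul_nonneg (bet_nonneg _ _) (abs_nonneg _)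
  have h2 : ∑ i ∈ range M, G (i + 1) ≤ ∑ i ∈ range (k + 2), G i := by
    have h3 : ∑ i ∈ range M, G (i + 1) ≤ ∑ i ∈ range (M + 1), G i := by
      rw [sum_range_succ' G M]
      linarith [hG0 0]
    refine h3.trans ?_
    rcases Nat.le_total (M + 1) (k + 2) with h | h
    · exact sum_le_sum_of_subset_of_nonneg (range_subset_range.2 h) fun i _ _ => hG0 i
    · apply le_of_eq
      symm
      apply sum_subset (range_subset_range.2 h)
      intro i _ hi
      rw [mem_range, not_lt] at hi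
      rw [hG]
      dsimp only
      rw [bet_big (show k + 1 < i by omega), zero_mul]
  have h3 : ∑ i ∈ range (k + 2), G i ≤ Real.sqrt (3 / 16 * (k + 1)) := by
    have h4 : ∀ i ∈ range (k + 2), G i = Real.sqrt (bet (k + 1) i) *
        Real.sqrt (bet (k + 1) i * ((i : ℝ) - ((k + 1 : ℕ) : ℝ) / 4) ^ 2) := by
      intro i _
      rw [Real.sqrt_mul (bet_nonneg _ _), Real.sqrt_sq_eq_abs, ← mul_assoc,
        Real.mul_self_sqrt (bet_nonneg _ _)]
    rw [sum_congr rfl h4]
    refine (Real.sum_sqrt_mul_sqrt_le _ (fun i => bet_nonneg _ _) (fun i =>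
      mul_nonneg (bet_nonneg _ _) (sq_nonneg _))).trans ?_
    have h5 := bet_total (k + 1)
    have h6 := bet_var (k + 1)
    rw [h5, h6, Real.sqrt_one, one_mul]
    push_cast
    exact le_rfl
  have h4 : 16 / (3 * ((k : ℝ) + 1)) * ∑ i ∈ range M, G (i + 1) ≤
      16 / (3 * ((k : ℝ) + 1)) * Real.sqrt (3 / 16 * (k + 1)) :=
    mul_le_mul_of_nonneg_left (h2.trans h3) (by positivity)
  refine h4.trans ?_
  unfold dl
  rw [Real.sqrt_mul (by norm_num)]
  have h5 : Real.sqrt (3 / 16) ≤ 1 / 2 := by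
    rw [Real.sqrt_le_left (by norm_num)]
    norm_num
  set s : ℝ := Real.sqrt ((k : ℝ) + 1) with hs
  have hs0 : 0 < s := Real.sqrt_pos.2 hk
  have hs2 : (k : ℝ) + 1 = s ^ 2 := (Real.sq_sqrt hk.le).symm
  rw [hs2, div_mul_eq_mul_div, div_le_div_iff₀ (by positivity) hs0]
  nlinarith [mul_le_mul_of_nonneg_right h5 (show 0 ≤ s * s by positivity), sq_nonneg s]

theorem bet_zero_le (k : ℕ) : bet k 0 ≤ dl k := by
  have h := bet_shift k (k + 1)
  have h1 : bet k 0 = ∑ i ∈ range (k + 1), (bet k i - bet k (i + 1)) := by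
    rw [sum_range_sub', bet_big (show k < k + 1 by omega), sub_zero]
  calc bet k 0 = ∑ i ∈ range (k + 1), (bet k i - bet k (i + 1)) := h1
    _ ≤ ∑ i ∈ range (k + 1), |bet k i - bet k (i + 1)| := sum_le_sum fun i _ => le_abs_self _
    _ ≤ _ := h

theorem bet_le (k i : ℕ) : bet k i ≤ dl k := by
  have h1 : bet k i = ∑ j ∈ range (k + 1), (bet k (i + j) - bet k (i + (j + 1))) := by
    rw [sum_range_sub' (fun j => bet k (i + j)), bet_big (show k < i + (k + 1) by omega), sub_zero,
      add_zero]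
  have h2 : ∑ j ∈ range (k + 1), (bet k (i + j) - bet k (i + (j + 1))) ≤
      ∑ j ∈ range (k + 1), |bet k (i + j) - bet k (i + j + 1)| :=
    sum_le_sum fun j _ => le_abs_self _
  have h3 : ∑ j ∈ range (k + 1), |bet k (i + j) - bet k (i + j + 1)| ≤
      ∑ l ∈ range (i + (k + 1)), |bet k l - bet k (l + 1)| := by
    rw [sum_range_add (fun l => |bet k l - bet k (l + 1)|) i (k + 1)]
    have : 0 ≤ ∑ l ∈ range i, |bet k l - bet k (l + 1)| := sum_nonneg fun _ _ => abs_nonneg _
    linarith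
  rw [h1]
  exact h2.trans (h3.trans (bet_shift k _))

theorem bet_shifts (k M j : ℕ) : ∑ i ∈ range M, |bet k i - bet k (i + j)| ≤ j * dl k := by
  induction j with
  | zero => simp
  | succ j ih =>
    have h1 : ∀ i ∈ range M, |bet k i - bet k (i + (j + 1))| ≤
        |bet k i - bet k (i + j)| + |bet k (i + j) - bet k (i + j + 1)| := by
      intro i _
      rw [← add_assoc]
      exact abs_sub_le _ _ _
    refine (sum_le_sum h1).trans ?_
    rw [sum_add_distrib]
    have h2 : ∑ i ∈ range M, |bet k (i + j) - bet k (i + j + 1)| ≤ dl k := by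
      refine le_trans ?_ (bet_shift k (j + M))
      rw [sum_range_add (fun l => |bet k l - bet k (l + 1)|) j M]
      have : 0 ≤ ∑ l ∈ range j, |bet k l - bet k (l + 1)| := sum_nonneg fun _ _ => abs_nonneg _
      have h3 : ∑ i ∈ range M, |bet k (i + j) - bet k (i + j + 1)| =
          ∑ i ∈ range M, |bet k (j + i) - bet k (j + i + 1)| :=
        sum_congr rfl fun i _ => by rw [add_comm i j]
      rw [h3]
      linarith
    push_cast
    linarith

theorem bet_time (k M : ℕ) : ∑ i ∈ range M, |bet (k + 1) i - bet k i| ≤ dl k := by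
  cases M with
  | zero => simp [dl_nonneg]
  | succ M =>
    rw [sum_range_succ']
    have h1 : ∀ i ∈ range M, |bet (k + 1) (i + 1) - bet k (i + 1)| = 1 / 4 * |bet k i - bet k (i + 1)| := by
      intro i _
      rw [bet_succ_succ, ← abs_of_pos (show (0 : ℝ) < 1 / 4 by norm_num), ← abs_mul,
        abs_of_pos (show (0 : ℝ) < 1 / 4 by norm_num)]
      congr 1
      ring
    rw [sum_congr rfl h1, ← mul_sum, bet_succ_zero]
    have h2 : |3 / 4 * bet k 0 - bet k 0| = 1 / 4 * bet k 0 := by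
      have e : 3 / 4 * bet k 0 - bet k 0 = -(1 / 4 * bet k 0) := by ring
      rw [e, abs_neg, abs_of_nonneg (mul_nonneg (by norm_num) (bet_nonneg _ _))]
    rw [h2]
    have h3 := bet_shift k M
    have h4 := bet_zero_le k
    have h5 := dl_nonneg k
    linarith

theorem bet_times (k M t : ℕ) : ∑ i ∈ range M, |bet (k + t) i - bet k i| ≤ t * dl k := by
  induction t with
  | zero => simp
  | succ t ih =>
    have h1 : ∀ i ∈ range M, |bet (k + (t + 1)) i - bet k i| ≤
        |bet (k + t + 1) i - bet (k + t) i| + |bet (k + t) i - bet k i| := fun i _ => abs_sub_le _ _ _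
    refine (sum_le_sum h1).trans ?_
    rw [sum_add_distrib]
    have h2 := bet_time (k + t) M
    have h3 := dl_anti (show k ≤ k + t by omega)
    push_cast
    linarith

/-- shift in time and space -/
theorem bet_both (k M j t : ℕ) : ∑ i ∈ range M, |bet k i - bet (k + t) (i + j)| ≤ (j + t) * dl k := by
  have h1 : ∀ i ∈ range M, |bet k i - bet (k + t) (i + j)| ≤
      |bet k i - bet k (i + j)| + |bet (k + t) (j + i) - bet k (j + i)| := by
    intro i _
    rw [add_comm j i, abs_sub_comm (bet (k + t) (i + j))]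
    exact abs_sub_le _ _ _
  refine (sum_le_sum h1).trans ?_
  rw [sum_add_distrib]
  have h2 := bet_shifts k M j
  have h3 : ∑ i ∈ range M, |bet (k + t) (j + i) - bet k (j + i)| ≤ t * dl k := by
    refine le_trans ?_ (bet_times k (j + M) t)
    rw [sum_range_add (fun l => |bet (k + t) l - bet k l|) j M]
    have : 0 ≤ ∑ l ∈ range j, |bet (k + t) l - bet k l| := sum_nonneg fun _ _ => abs_nonneg _
    linarith
  linarith

open Filter Topology in
theorem dl_tendsto : Tendsto dl atTop (𝓝 0) := by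
  unfold dl
  have h1 : Tendsto (fun k : ℕ => Real.sqrt ((k : ℝ) + 1)) atTop atTop := by
    apply Real.tendsto_sqrt_atTop.comp
    exact tendsto_atTop_add_const_right _ _ tendsto_natCast_atTop_atTop
  exact Tendsto.const_div_atTop h1 4

end Pool.Agent.H623.TS
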