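import Pool.Agent.H623.TS.H

/-!
# Collecting the results on the density
-/

set_option autoImplicit false

namespace Pool.Agent.H623.TS

open Finset Filter Topology MeasureTheory Pool.Agent.H320R2.PD Pool.Agent.H377R2.NK
open Pool.Agent.X16.SL (ms3 bs3 mu3 cl mem_cl_iff meas_cl stp stp_eq stp_meas stp_int int_stp real_cl)

attribute [local instance] ms3
attribute [local instance] bs3

section

variable {f : ℤ_[3] → ℝ} (hf : Integrable f mu3)
  (hlim : Tendsto (fun n => ∫ z, |up n (D n) z - f z| ∂mu3) atTop (𝓝 0))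

include hf hlim

theorem mass_rec (n : ℕ) (x : ℤ) : ∫ z in cl (n + 1) (x : ℤ_[3]), f z ∂mu3 =
    3 / 4 * (∫ z in cl (n + 1) ((2 * x : ℤ) : ℤ_[3]), f z ∂mu3) +
    (if (3 : ℤ) ∣ 2 * x - 1 then
      1 / 4 * ∫ z in cl n (((2 * x - 1) / 3 : ℤ) : ℤ_[3]), f z ∂mu3 else 0) := by
  rw [ball_mass hf hlim, ball_mass hf hlim, D_letter]
  split_ifs with h
  · rw [ball_mass hf hlim, pow_succ]
    field_simp
  · rw [pow_succ]
    field_simp
    ring

theorem total_one : ∫ z, f z ∂mu3 = 1 := by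
  have h1 := ball_mass hf hlim 0 0
  have h2 : cl 0 ((0 : ℤ) : ℤ_[3]) = Set.univ := by
    ext z
    simp [cl]
  rw [h2, Measure.restrict_univ, D_zero] at h1
  rw [h1]
  norm_num

theorem mass_two : ∫ z in cl 1 ((2 : ℤ) : ℤ_[3]), f z ∂mu3 = 4 / 7 ∧
    ∫ z in cl 1 ((1 : ℤ) : ℤ_[3]), f z ∂mu3 = 3 / 7 := by
  rw [ball_mass hf hlim, ball_mass hf hlim]
  have h1 := D_letter 0 1
  have h2 := D_letter 0 2
  rw [if_neg (by norm_num)] at h1
  rw [if_pos (by norm_num), D_zero] at h2
  have h3 : D (0 + 1) (2 * 2) = D (0 + 1) 1 := by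
    have := D_per (0 + 1) 1 1
    rw [← this]
    norm_num
  rw [h3] at h2
  norm_num at h1 h2 ⊢
  constructor <;> linarith

theorem nu_nondeg (c : ℝ) : nu f {c} ≠ 1 := by
  intro h
  have hp : IsProbabilityMeasure (ProbabilityTheory.cond mu3 U) :=
    ProbabilityTheory.cond_isProbabilityMeasure U_ne
  unfold nu at h
  rw [Measure.map_apply_of_aemeasurable (f_aem hf) (measurableSet_singleton c)] at h
  have hnull : NullMeasurableSet (f ⁻¹' {c}) (ProbabilityTheory.cond mu3 U) :=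
    (f_aem hf).nullMeasurable (measurableSet_singleton c)
  have h1 : ∀ᵐ z ∂(ProbabilityTheory.cond mu3 U), f z = c := by
    have := (prob_compl_eq_zero_iff₀ hnull).2 h
    exact this
  have h2 : ∀ᵐ z ∂mu3, z ∈ U → f z = c := by
    rw [← ae_restrict_iff' U_meas]
    have h3 : mu3.restrict U ≪ ProbabilityTheory.cond mu3 U := by
      unfold ProbabilityTheory.cond
      refine Measure.absolutelyContinuous_smul ?_
      simp
    exact h3.ae_le h1
  have h4 : ∀ x : ℤ, ¬ (3 : ℤ) ∣ x → ∫ z in cl 1 (x : ℤ_[3]), f z ∂mu3 = c / 3 := by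
    intro x hx
    have h5 : ∀ᵐ z ∂mu3, z ∈ cl 1 (x : ℤ_[3]) → f z = c := by
      filter_upwards [h2] with z hz hz2
      apply hz
      intro hz3
      apply hx
      have h6 : (3 : ℤ_[3]) ^ 1 ∣ z - x := hz2
      rw [pow_one] at h6
      have h7 : (3 : ℤ_[3]) ∣ ((x : ℤ) : ℤ_[3]) := by
        have := dvd_sub hz3 h6
        rwa [sub_sub_cancel] at this
      have := (PadicInt.pow_p_dvd_int_iff (p := 3) 1 x).1 (by rw [pow_one]; exact_mod_cast h7)
      rw [pow_one] at this
      exact_mod_cast this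
    rw [setIntegral_congr_ae (g := fun _ => c) (meas_cl 1 _) h5]
    rw [setIntegral_const, real_cl, smul_eq_mul]
    ring
  obtain ⟨m1, m2⟩ := mass_two hf hlim
  rw [h4 2 (by norm_num)] at m1
  rw [h4 1 (by norm_num)] at m2
  linarith

end

end Pool.Agent.H623.TS
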