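import Pool.Agent.H623.TS.M4
import Pool.Agent.H623.TS.I

/-!
# The local limit theorem for the nodes of the trees
-/

set_option autoImplicit false

namespace Pool.Agent.H623.TS

open Finset Filter Topology MeasureTheory Pool.Agent.H320R2.PD Pool.Agent.H377R2.NK
open Pool.Agent.X16.SL (ms3 bs3 mu3 cl mem_cl_iff meas_cl stp stp_eq stp_meas stp_int int_stp real_cl)

attribute [local instance] ms3
attribute [local instance] bs3

/-- the number of nodes of level `k` above `a` in a residue class with `i` odd terms -/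
noncomputable def gnodes (k i q r a : ℕ) : ℕ :=
  Set.ncard {n : ℕ | T^[k] n = a ∧ n ≡ r [MOD q] ∧ odds k n = i}

theorem gnodes_eq {k i j m r a : ℕ} (ha : 1 ≤ a) :
    (3 / 4 : ℝ) ^ k * (gnodes k i (2 ^ j * 3 ^ m) r a : ℝ) = Mi (ic j m r) k i a := by
  rw [Mi_nodes _ k i a ha]
  congr 1
  unfold ic
  rw [← sum_filter, ← sum_filter, sum_const, nsmul_eq_mul, mul_one]
  unfold gnodes
  rw [← Set.ncard_coe_finset]
  congr 2
  ext n
  rw [Finset.mem_coe, mem_filter, mem_filter, mem_Fr, Set.mem_ofPred_eq, Nat.modEq_iff_dvd]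
  push_cast
  rw [← dvd_neg, neg_sub]
  tauto

theorem Mi_ic_per (l j m r i : ℕ) : Per (m + (l + j)) (Mi (ic j m r) (l + j) i) := by
  intro x y
  rw [Mi_ic, Mi_ic]
  split_ifs with h
  · have h1 := (Mi_per (ic_per (m + odds j r) (T^[j] r)) l (i - odds j r)).le
      (show m + odds j r + l ≤ m + (l + j) by have := odds_le j r; omega) x y
    rw [h1]
  · rfl

/-- the graded counts depend only on the root modulo a power of `3` -/
theorem gnodes_congr {k i j m r a b : ℕ} (hj : j ≤ k) (ha : 1 ≤ a) (hb : 1 ≤ b)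
    (hab : a ≡ b [MOD 3 ^ (m + k)]) :
    gnodes k i (2 ^ j * 3 ^ m) r a = gnodes k i (2 ^ j * 3 ^ m) r b := by
  obtain ⟨l, rfl⟩ := Nat.exists_eq_add_of_le' hj
  have h1 : Mi (ic j m r) (l + j) i (a : ℤ) = Mi (ic j m r) (l + j) i (b : ℤ) := by
    rw [Nat.modEq_iff_dvd] at hab
    obtain ⟨c, hc⟩ := hab
    push_cast at hc
    have h2 := Mi_ic_per l j m r i a c
    have h3 : (b : ℤ) = a + 3 ^ (m + (l + j)) * c := by linarith
    rw [h3, h2]
  rw [← gnodes_eq ha, ← gnodes_eq hb] at h1
  have h2 : (0 : ℝ) < (3 / 4) ^ (l + j) := by positivity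
  exact_mod_cast mul_left_cancel₀ h2.ne' h1

section Main

variable {f : ℤ_[3] → ℝ} (hf : Integrable f mu3)
  (hlim : Tendsto (fun n => ∫ z, |up n (D n) z - f z| ∂mu3) atTop (𝓝 0))

include hf hlim

theorem glim_up {m : ℕ} {g : ℤ → ℝ} (hg : Per m g) :
    Tendsto (fun k => ∑ i ∈ range (k + 1),
      ∫ z, |up (m + k) (Mi g k i) z - bet k i * (S m g / 3 ^ m * f z)| ∂mu3) atTop (𝓝 0) := by
  set γ : ℝ := S m g / 3 ^ m with hγ
  rw [Metric.tendsto_atTop]
  intro ε hε
  obtain ⟨n₀, hn₀⟩ := glim hg (show 0 < ε / 2 by positivity)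
  have h1 := (tendsto_order.1 hlim).2 (ε / (2 * (|γ| + 1))) (by positivity)
  obtain ⟨n₁, hn₁⟩ := eventually_atTop.1 h1
  set n : ℕ := max n₀ n₁ with hn
  obtain ⟨K, hK⟩ := hn₀ n (le_max_left _ _)
  refine ⟨K, fun k hk => ?_⟩
  have h2 := hn₁ n (le_max_right _ _)
  have h3 := hK k hk (m + n + k) le_rfl
  rw [← hγ] at h3
  rw [Real.dist_eq, sub_zero,
    abs_of_nonneg (sum_nonneg fun i _ => integral_nonneg fun z => abs_nonneg _)]
  set I : ℝ := ∫ z, |up n (D n) z - f z| ∂mu3 with hI
  have h4 : ∀ i ∈ range (k + 1), ∫ z, |up (m + k) (Mi g k i) z - bet k i * (γ * f z)| ∂mu3 ≤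
      N (m + n + k) (fun x => Mi g k i x - bet k i * (γ * D n x)) + bet k i * (|γ| * I) := by
    intro i _
    have h5 : ∫ z, |up (m + k) (Mi g k i) z - bet k i * (γ * f z)| ∂mu3 ≤
        ∫ z, (|up (m + n + k) (Mi g k i) z - up (m + n + k) (fun x => bet k i * (γ * D n x)) z| +
          bet k i * |γ| * |up n (D n) z - f z|) ∂mu3 := by
      refine integral_mono ((up_int _ _).sub ((hf.const_mul γ).const_mul _)).abs
        (((up_int _ _).sub (up_int _ _)).abs.add (((up_int _ _).sub hf).abs.const_mul _)) fun z => ?_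
      dsimp only
      have e1 : up (m + n + k) (Mi g k i) z = up (m + k) (Mi g k i) z := by
        rw [up_per (show m + k ≤ m + n + k by omega) (Mi_per hg k i)]
      have e2 : up (m + n + k) (fun x => bet k i * (γ * D n x)) z = bet k i * (γ * up n (D n) z) := by
        rw [up_apply, up_apply, appr_per (show n ≤ m + n + k by omega) (D_per n)]
      rw [e1, e2]
      have e3 : bet k i * |γ| * |up n (D n) z - f z| = |bet k i * γ * (up n (D n) z - f z)| := by
        rw [abs_mul, abs_mul, abs_of_nonneg (bet_nonneg k i)]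
      rw [e3]
      have : up (m + k) (Mi g k i) z - bet k i * (γ * f z) =
          (up (m + k) (Mi g k i) z - bet k i * (γ * up n (D n) z)) +
          bet k i * γ * (up n (D n) z - f z) := by ring
      rw [this]
      exact abs_add_le _ _
    refine h5.trans (le_of_eq ?_)
    have h6 := integral_add (μ := mu3)
      (f := fun z => |up (m + n + k) (Mi g k i) z - up (m + n + k) (fun x => bet k i * (γ * D n x)) z|)
      (g := fun z => bet k i * |γ| * |up n (D n) z - f z|) ((up_int _ _).sub (up_int _ _)).abs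
      (((up_int _ _).sub hf).abs.const_mul _)
    rw [h6, integral_abs_up, integral_const_mul, mul_assoc]
  refine lt_of_le_of_lt (sum_le_sum h4) ?_
  rw [sum_add_distrib, ← sum_mul, bet_total, one_mul]
  have h5 : |γ| * I < ε / 2 := by
    have h6 : |γ| * I ≤ |γ| * (ε / (2 * (|γ| + 1))) :=
      mul_le_mul_of_nonneg_left h2.le (abs_nonneg _)
    refine lt_of_le_of_lt h6 ?_
    rw [← mul_div_assoc, div_lt_div_iff₀ (by positivity) (by norm_num)]
    nlinarith [abs_nonneg γ]
  linarith

/-- **the local limit theorem in mean** for the nodes in a residue class -/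
theorem gnodes_lim (hI : ∫ z, |f z| ∂mu3 ≤ 1) (j m r : ℕ) :
    Tendsto (fun k => ∑ i ∈ range (k + 1), ∫ z, |(3 / 4 : ℝ) ^ k *
      (gnodes k i (2 ^ j * 3 ^ m) r (z.appr (m + k) + 3 ^ (m + k)) : ℝ) -
        (3 / 4) ^ j / 3 ^ (m + odds j r) * bet k i * f z| ∂mu3) atTop (𝓝 0) := by
  rw [← tendsto_add_atTop_iff_nat j]
  set o : ℕ := odds j r with ho
  have hoj : o ≤ j := odds_le j r
  set M : ℕ := m + o with hM
  set c : ℝ := (3 / 4) ^ j / 3 ^ M with hc
  have hc0 : 0 ≤ c := by positivity
  set g : ℤ → ℝ := fun x => (3 / 4 : ℝ) ^ j * ic 0 M (T^[j] r) x with hg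
  have hgp : Per M g := by
    intro x y
    rw [hg]
    dsimp only
    rw [ic_per]
  have hS : S M g = (3 / 4) ^ j := by
    have : S M g = (3 / 4) ^ j * S M (ic 0 M (T^[j] r)) := by
      unfold S
      rw [mul_sum]
    rw [this, S_ic, mul_one]
  have h1 := glim_up hf hlim hgp
  rw [hS, ← hc] at h1
  -- the bound
  set I : ℝ := ∫ z, |f z| ∂mu3 with hIdef
  have hI0 : 0 ≤ I := integral_nonneg fun z => abs_nonneg _
  have hb : Tendsto (fun l : ℕ => (∑ i ∈ range (l + 1),
      ∫ z, |up (M + l) (Mi g l i) z - bet l i * (c * f z)| ∂mu3) +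
      (c * ((o + j) * dl l) + c * (o * dl l + j * dl l))) atTop (𝓝 0) := by
    have h2 : Tendsto (fun l : ℕ => c * ((o + j) * dl l) + c * (o * dl l + j * dl l)) atTop (𝓝 0) := by
      have h3 := ((dl_tendsto.const_mul ((o : ℝ) + j)).const_mul c).add
        (((dl_tendsto.const_mul (o : ℝ)).add (dl_tendsto.const_mul (j : ℝ))).const_mul c)
      simpa using h3
    simpa using h1.add h2
  refine squeeze_zero (fun l => sum_nonneg fun i _ => integral_nonneg fun z => abs_nonneg _)
    (fun l => ?_) hb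
  -- rewriting the integrands
  set H : ℕ → ℝ := fun i => ∫ z, |(3 / 4 : ℝ) ^ (l + j) *
      (gnodes (l + j) i (2 ^ j * 3 ^ m) r (z.appr (m + (l + j)) + 3 ^ (m + (l + j))) : ℝ) -
        c * bet (l + j) i * f z| ∂mu3 with hH
  have hval : ∀ (i : ℕ) (z : ℤ_[3]), (3 / 4 : ℝ) ^ (l + j) *
      (gnodes (l + j) i (2 ^ j * 3 ^ m) r (z.appr (m + (l + j)) + 3 ^ (m + (l + j))) : ℝ) =
      if o ≤ i then up (M + l) (Mi g l (i - o)) z else 0 := by
    intro i z
    have h2 : 1 ≤ z.appr (m + (l + j)) + 3 ^ (m + (l + j)) := by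
      have : 0 < 3 ^ (m + (l + j)) := by positivity
      omega
    rw [gnodes_eq h2]
    have h3 := Mi_ic_per l j m r i ((z.appr (m + (l + j)) : ℕ) : ℤ) 1
    rw [mul_one] at h3
    push_cast
    rw [h3, Mi_ic]
    split_ifs with h
    · rw [up_apply, ← ho, ← hM]
      have h4 : Per (M + l) (Mi g l (i - o)) := Mi_per hgp l (i - o)
      rw [← appr_per (show M + l ≤ m + (l + j) by omega) h4, hg, Mi_smul]
    · rfl
  have hHi : ∀ i, H i = ∫ z, |(if o ≤ i then up (M + l) (Mi g l (i - o)) z else 0) -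
      c * bet (l + j) i * f z| ∂mu3 := by
    intro i
    rw [hH]
    dsimp only
    refine integral_congr_ae (Eventually.of_forall fun z => ?_)
    dsimp only
    rw [hval]
  have hsmall : ∀ i, i < o → H i ≤ c * dl l := by
    intro i hi
    rw [hHi]
    simp only [if_neg (show ¬ o ≤ i by omega), zero_sub, abs_neg, abs_mul]
    rw [integral_const_mul, abs_of_nonneg hc0, abs_of_nonneg (bet_nonneg _ _)]
    have h2 := (bet_le (l + j) i).trans (dl_anti (show l ≤ l + j by omega))
    have h3 := bet_nonneg (l + j) i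
    have h4 : bet (l + j) i * I ≤ dl l := by nlinarith
    calc c * bet (l + j) i * I = c * (bet (l + j) i * I) := by ring
      _ ≤ c * dl l := mul_le_mul_of_nonneg_left h4 hc0
  have hbig : ∀ i, H (o + i) ≤ ∫ z, |up (M + l) (Mi g l i) z - bet l i * (c * f z)| ∂mu3 +
      c * |bet l i - bet (l + j) (i + o)| := by
    intro i
    rw [hHi]
    simp only [if_pos (Nat.le_add_right o i), Nat.add_sub_cancel_left]
    have h2 : ∫ z, |up (M + l) (Mi g l i) z - c * bet (l + j) (o + i) * f z| ∂mu3 ≤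
        ∫ z, (|up (M + l) (Mi g l i) z - bet l i * (c * f z)| +
          c * |bet l i - bet (l + j) (i + o)| * |f z|) ∂mu3 := by
      refine integral_mono ((up_int _ _).sub (hf.const_mul _)).abs
        (((up_int _ _).sub ((hf.const_mul c).const_mul _)).abs.add (hf.abs.const_mul _)) fun z => ?_
      dsimp only
      have e1 : c * |bet l i - bet (l + j) (i + o)| * |f z| =
          |c * (bet l i - bet (l + j) (i + o)) * f z| := by
        rw [abs_mul, abs_mul, abs_of_nonneg hc0]
      rw [e1, add_comm o i]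
      have : up (M + l) (Mi g l i) z - c * bet (l + j) (i + o) * f z =
          (up (M + l) (Mi g l i) z - bet l i * (c * f z)) +
          c * (bet l i - bet (l + j) (i + o)) * f z := by ring
      rw [this]
      exact abs_add_le _ _
    refine h2.trans ?_
    have h3 := integral_add (μ := mu3)
      (f := fun z => |up (M + l) (Mi g l i) z - bet l i * (c * f z)|)
      (g := fun z => c * |bet l i - bet (l + j) (i + o)| * |f z|)
      ((up_int _ _).sub ((hf.const_mul c).const_mul _)).abs (hf.abs.const_mul _)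
    rw [h3, integral_const_mul]
    have h4 : 0 ≤ c * |bet l i - bet (l + j) (i + o)| := mul_nonneg hc0 (abs_nonneg _)
    have h5 : c * |bet l i - bet (l + j) (i + o)| * ∫ z, |f z| ∂mu3 ≤
        c * |bet l i - bet (l + j) (i + o)| * 1 := mul_le_mul_of_nonneg_left hI h4
    linarith
  have hH0 : ∀ i, 0 ≤ H i := fun i => integral_nonneg fun z => abs_nonneg _
  have hfin : ∑ i ∈ range (l + j + 1), H i ≤ ∑ i ∈ range (o + (l + 1 + j)), H i :=
    sum_le_sum_of_subset_of_nonneg (range_subset_range.2 (by omega)) fun i _ _ => hH0 i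
  refine hfin.trans ?_
  rw [sum_range_add H o, sum_range_add (fun i => H (o + i)) (l + 1) j]
  have h5 : ∑ i ∈ range o, H i ≤ c * (o * dl l) := by
    have : ∑ i ∈ range o, H i ≤ ∑ _i ∈ range o, c * dl l :=
      sum_le_sum fun i hi => hsmall i (mem_range.1 hi)
    rw [sum_const, card_range, nsmul_eq_mul] at this
    linarith
  have h6 : ∑ i ∈ range (l + 1), H (o + i) ≤ (∑ i ∈ range (l + 1),
      ∫ z, |up (M + l) (Mi g l i) z - bet l i * (c * f z)| ∂mu3) + c * ((o + j) * dl l) := by
    refine (sum_le_sum fun i _ => hbig i).trans ?_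
    rw [sum_add_distrib, ← mul_sum]
    have h7 := bet_both l (l + 1) o j
    have := mul_le_mul_of_nonneg_left h7 hc0
    linarith
  have h7 : ∑ i ∈ range j, H (o + (l + 1 + i)) ≤ c * (j * dl l) := by
    have h8 : ∀ i ∈ range j, H (o + (l + 1 + i)) ≤ c * dl l := by
      intro i _
      rw [hHi]
      have h9 : ∀ z : ℤ_[3], (if o ≤ o + (l + 1 + i) then up (M + l) (Mi g l (o + (l + 1 + i) - o)) z else 0) = 0 := by
        intro z
        rw [if_pos (Nat.le_add_right _ _), Nat.add_sub_cancel_left, up_apply, Mi_big (by omega)]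
      simp only [h9, zero_sub, abs_neg, abs_mul]
      rw [integral_const_mul, abs_of_nonneg hc0, abs_of_nonneg (bet_nonneg _ _)]
      have h2 := (bet_le (l + j) (o + (l + 1 + i))).trans (dl_anti (show l ≤ l + j by omega))
      have h3 := bet_nonneg (l + j) (o + (l + 1 + i))
      have h4 : bet (l + j) (o + (l + 1 + i)) * I ≤ dl l := by nlinarith
      calc c * bet (l + j) (o + (l + 1 + i)) * I = c * (bet (l + j) (o + (l + 1 + i)) * I) := by ring
        _ ≤ c * dl l := mul_le_mul_of_nonneg_left h4 hc0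
    have := sum_le_sum h8
    rw [sum_const, card_range, nsmul_eq_mul] at this
    linarith
  linarith

end Main

end Pool.Agent.H623.TS
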