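import Pool.Graph.R_seed8.H377R2.NK.LogZ
import Pool.Graph.R_seed8.H377R2.NK.CountUp

/-!
# The transfer operator of the tree of inverse iterates of the `3x+1` map
-/

set_option autoImplicit false

namespace Pool.Agent.H623.TS

open Finset Pool.Agent.H320R2.PD Pool.Agent.H377R2.NK

/-- the transfer operator of the inverse tree, normalised by `3/4` -/
noncomputable def P (g : ℤ → ℝ) (x : ℤ) : ℝ :=
  3 / 4 * (g (2 * x) + if (3 : ℤ) ∣ 2 * x - 1 then g ((2 * x - 1) / 3) else 0)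

/-- periodicity modulo `3 ^ n` -/
def Per (n : ℕ) (g : ℤ → ℝ) : Prop := ∀ x y : ℤ, g (x + 3 ^ n * y) = g x

theorem Per.le {n m : ℕ} {g : ℤ → ℝ} (h : Per n g) (hnm : n ≤ m) : Per m g := by
  intro x y
  obtain ⟨l, rfl⟩ := Nat.exists_eq_add_of_le hnm
  have := h x (3 ^ l * y)
  rw [← this, pow_add]
  congr 1
  ring

theorem Per.smul {n : ℕ} {g : ℤ → ℝ} (h : Per n g) (s : ℤ) : Per n (fun x => g (s * x)) := by
  intro x y
  have := h (s * x) (s * y)
  dsimp only
  rw [← this]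
  congr 1
  ring

theorem Per.P {n : ℕ} {g : ℤ → ℝ} (h : Per n g) : Per (n + 1) (P g) := by
  intro x y
  unfold TS.P
  have h1 : g (2 * (x + 3 ^ (n + 1) * y)) = g (2 * x) := by
    have := h (2 * x) (6 * y)
    rw [← this]
    congr 1
    ring
  have e : 2 * (x + 3 ^ (n + 1) * y) - 1 = 2 * x - 1 + 3 * (3 ^ n * (2 * y)) := by ring
  rw [h1, e]
  by_cases h3 : (3 : ℤ) ∣ 2 * x - 1
  · rw [if_pos h3, if_pos (dvd_add h3 (Dvd.intro _ rfl)), Int.add_mul_ediv_left _ _ (by norm_num),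
      h]
  · rw [if_neg h3, if_neg]
    intro h4
    exact h3 ((dvd_add_left (Dvd.intro _ rfl)).1 h4)

theorem Per.iter {n : ℕ} {g : ℤ → ℝ} (h : Per n g) (k : ℕ) : Per (n + k) (TS.P^[k] g) := by
  induction k with
  | zero => exact h
  | succ k ih =>
    rw [Function.iterate_succ_apply']
    exact ih.P

/-- sum over a period -/
noncomputable def S (n : ℕ) (g : ℤ → ℝ) : ℝ := ∑ x ∈ range (3 ^ n), g (x : ℤ)

theorem S_per {n : ℕ} {g : ℤ → ℝ} (h : Per n g) (l : ℕ) : S (n + l) g = 3 ^ l * S n g := by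
  unfold S
  rw [pow_add, U4_split, mul_sum]
  refine sum_congr rfl fun x _ => ?_
  have : ∀ v ∈ range (3 ^ l), g (((x + 3 ^ n * v : ℕ)) : ℤ) = g x := by
    intro v _
    push_cast
    exact h x v
  rw [sum_congr rfl this, sum_const, card_range, nsmul_eq_mul]
  push_cast
  rfl

theorem S_mono {n : ℕ} {f g : ℤ → ℝ} (h : ∀ x, f x ≤ g x) : S n f ≤ S n g :=
  sum_le_sum fun x _ => h x

theorem S_aff {n : ℕ} {g : ℤ → ℝ} (h : Per n g) (t : ℕ) (c : ℤ) :
    S n (fun x => g (c + 2 ^ t * x)) = S n g := by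
  have h2 : IsCoprime ((2 : ℤ) ^ t) ((3 : ℕ) : ℤ) := U4_coprime (p := 3) (by decide) t
  have := sum_affine (p := 3) (by norm_num) n (2 ^ t) c h2 (h := g)
    (fun x y => by push_cast; exact h x y)
  exact this

theorem S_B {n : ℕ} {g : ℤ → ℝ} (h : Per n g) :
    S (n + 1) (fun x => if (3 : ℤ) ∣ 2 * x - 1 then g ((2 * x - 1) / 3) else 0) = S n g := by
  have h1 := Pool.Agent.H412R2.Lw_sum_step (E := 1) (u := fun _ => (1 / 3 : ℝ)) (g := g) (k := n) h
  unfold Pool.Agent.H412R2.Lw at h1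
  simp only [Icc_self, sum_singleton, pow_one] at h1
  norm_num at h1
  exact h1

theorem S_P {n : ℕ} {g : ℤ → ℝ} (h : Per n g) : S (n + 1) (P g) = 3 * S n g := by
  have h1 : S (n + 1) (P g) = 3 / 4 * (S (n + 1) (fun x => g (0 + 2 ^ 1 * x)) +
      S (n + 1) (fun x => if (3 : ℤ) ∣ 2 * x - 1 then g ((2 * x - 1) / 3) else 0)) := by
    unfold S TS.P
    rw [← mul_sum, ← sum_add_distrib]
    simp only [pow_one, zero_add]
  rw [h1, S_aff (h.le (Nat.le_succ n)), S_B h, S_per h 1]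
  ring

/-- the `L¹` norm -/
noncomputable def N (n : ℕ) (g : ℤ → ℝ) : ℝ := S n (fun x => |g x|) / 3 ^ n

theorem N_nonneg (n : ℕ) (g : ℤ → ℝ) : 0 ≤ N n g := by
  unfold N S
  positivity

theorem Per.abs {n : ℕ} {g : ℤ → ℝ} (h : Per n g) : Per n (fun x => |g x|) := fun x y => by
  dsimp only
  rw [h x y]

theorem N_per {n m : ℕ} {g : ℤ → ℝ} (h : Per n g) (hnm : n ≤ m) : N m g = N n g := by
  obtain ⟨l, rfl⟩ := Nat.exists_eq_add_of_le hnm
  unfold N
  rw [S_per h.abs, pow_add]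
  field_simp

theorem abs_P (g : ℤ → ℝ) (x : ℤ) : |P g x| ≤ P (fun x => |g x|) x := by
  unfold TS.P
  rw [abs_mul, abs_of_pos (by norm_num : (0 : ℝ) < 3 / 4)]
  refine mul_le_mul_of_nonneg_left ?_ (by norm_num)
  refine (abs_add_le _ _).trans ?_
  split_ifs
  · exact le_rfl
  · simp

theorem N_P {n : ℕ} {g : ℤ → ℝ} (h : Per n g) : N (n + 1) (P g) ≤ N n g := by
  unfold N
  have h1 : S (n + 1) (fun x => |P g x|) ≤ S (n + 1) (P (fun x => |g x|)) := S_mono (abs_P g)
  rw [S_P h.abs] at h1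
  rw [div_le_div_iff₀ (by positivity) (by positivity), pow_succ]
  have : (0 : ℝ) < 3 ^ n := by positivity
  nlinarith

theorem N_iter {n : ℕ} {g : ℤ → ℝ} (h : Per n g) (k : ℕ) : N (n + k) (P^[k] g) ≤ N n g := by
  induction k with
  | zero => exact le_rfl
  | succ k ih =>
    rw [Function.iterate_succ_apply']
    exact (N_P (h.iter k)).trans ih

theorem N_add {n : ℕ} (f g : ℤ → ℝ) : N n (fun x => f x + g x) ≤ N n f + N n g := by
  unfold N S
  rw [← add_div, ← sum_add_distrib]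
  exact div_le_div_of_nonneg_right (sum_le_sum fun x _ => abs_add_le _ _) (by positivity)

theorem N_congr {n : ℕ} {f g : ℤ → ℝ} (h : ∀ x, f x = g x) : N n f = N n g := by
  unfold N S
  simp only [h]

theorem N_smul {n : ℕ} (c : ℝ) (g : ℤ → ℝ) : N n (fun x => c * g x) = |c| * N n g := by
  unfold N S
  simp only [abs_mul]
  rw [← mul_sum, mul_div_assoc]

theorem N_tri {n : ℕ} (f g h : ℤ → ℝ) :
    N n (fun x => f x - h x) ≤ N n (fun x => f x - g x) + N n (fun x => g x - h x) := by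
  have := N_add (n := n) (fun x => f x - g x) (fun x => g x - h x)
  refine le_trans (le_of_eq ?_) this
  apply N_congr
  intro x
  ring

theorem N_comm {n : ℕ} (f g : ℤ → ℝ) : N n (fun x => f x - g x) = N n (fun x => g x - f x) := by
  unfold N S
  simp only [abs_sub_comm]

/-! ### linearity of the operator -/

theorem P_add (f g : ℤ → ℝ) : P (fun x => f x + g x) = fun x => P f x + P g x := by
  funext x
  unfold TS.P
  split_ifs <;> ring

theorem P_smul (c : ℝ) (g : ℤ → ℝ) : P (fun x => c * g x) = fun x => c * P g x := by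
  funext x
  unfold TS.P
  split_ifs <;> ring

theorem iter_add (k : ℕ) (f g : ℤ → ℝ) :
    P^[k] (fun x => f x + g x) = fun x => P^[k] f x + P^[k] g x := by
  induction k with
  | zero => rfl
  | succ k ih =>
    rw [Function.iterate_succ_apply', ih, P_add, Function.iterate_succ_apply',
      Function.iterate_succ_apply']

theorem iter_smul (k : ℕ) (c : ℝ) (g : ℤ → ℝ) :
    P^[k] (fun x => c * g x) = fun x => c * P^[k] g x := by
  induction k with
  | zero => rfl
  | succ k ih =>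
    rw [Function.iterate_succ_apply', ih, P_smul, Function.iterate_succ_apply']

theorem iter_sub (k : ℕ) (f g : ℤ → ℝ) :
    P^[k] (fun x => f x - g x) = fun x => P^[k] f x - P^[k] g x := by
  have h1 : (fun x => f x - g x) = fun x => f x + (-1) * g x := by
    funext x; ring
  rw [h1, iter_add k f (fun x => -1 * g x), iter_smul k (-1) g]
  funext x
  ring

/-! ### words -/

/-- decomposition according to the first letter -/
theorem iter_letter (k : ℕ) (g : ℤ → ℝ) (x : ℤ) :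
    P^[k] g x = (3 / 4) ^ k * g (2 ^ k * x) + ∑ e ∈ Icc 1 k,
      if (3 : ℤ) ∣ 2 ^ e * x - 1 then (3 / 4 : ℝ) ^ e * P^[k - e] g ((2 ^ e * x - 1) / 3) else 0 := by
  induction k generalizing x with
  | zero => simp
  | succ k ih =>
    rw [Function.iterate_succ_apply']
    have h1 : P (P^[k] g) x = 3 / 4 * (P^[k] g (2 * x) +
        if (3 : ℤ) ∣ 2 * x - 1 then P^[k] g ((2 * x - 1) / 3) else 0) := rfl
    rw [h1, ih (2 * x)]
    have h2 : ∑ e ∈ Icc 1 (k + 1), (if (3 : ℤ) ∣ 2 ^ e * x - 1 then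
        (3 / 4 : ℝ) ^ e * P^[k + 1 - e] g ((2 ^ e * x - 1) / 3) else 0) =
        (if (3 : ℤ) ∣ 2 ^ 1 * x - 1 then
        (3 / 4 : ℝ) ^ 1 * P^[k + 1 - 1] g ((2 ^ 1 * x - 1) / 3) else 0) +
        ∑ e ∈ Icc 1 k, (if (3 : ℤ) ∣ 2 ^ (e + 1) * x - 1 then
        (3 / 4 : ℝ) ^ (e + 1) * P^[k + 1 - (e + 1)] g ((2 ^ (e + 1) * x - 1) / 3) else 0) := by
      rw [← Finset.sum_erase_add _ _ (mem_Icc.2 ⟨le_refl 1, by omega⟩ : 1 ∈ Icc 1 (k + 1)), add_comm]
      congr 1
      symm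
      refine Finset.sum_bij' (fun e _ => e + 1) (fun e _ => e - 1) ?_ ?_ ?_ ?_ ?_
      · intro e he
        rw [mem_Icc] at he
        rw [mem_erase, mem_Icc]
        omega
      · intro e he
        rw [mem_erase, mem_Icc] at he
        rw [mem_Icc]
        omega
      · intro e _
        simp
      · intro e he
        rw [mem_erase, mem_Icc] at he
        omega
      · intro e _
        rfl
    rw [h2]
    have h3 : ∀ e ∈ Icc 1 k, (if (3 : ℤ) ∣ 2 ^ (e + 1) * x - 1 then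
        (3 / 4 : ℝ) ^ (e + 1) * P^[k + 1 - (e + 1)] g ((2 ^ (e + 1) * x - 1) / 3) else 0) =
        3 / 4 * (if (3 : ℤ) ∣ 2 ^ e * (2 * x) - 1 then
        (3 / 4 : ℝ) ^ e * P^[k - e] g ((2 ^ e * (2 * x) - 1) / 3) else 0) := by
      intro e _
      have e1 : (2 : ℤ) ^ (e + 1) * x = 2 ^ e * (2 * x) := by ring
      have e2 : k + 1 - (e + 1) = k - e := by omega
      rw [e1, e2]
      split_ifs
      · ring
      · ring
    rw [sum_congr rfl h3, ← mul_sum]
    have e1 : (2 : ℤ) ^ (k + 1) * x = 2 ^ k * (2 * x) := by ring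
    have e2 : k + 1 - 1 = k := by omega
    rw [e1, e2, pow_one, pow_one, pow_succ]
    split_ifs <;> ring

/-- the contribution of the words with `n` letters -/
noncomputable def Wn (A n k : ℕ) (g : ℤ → ℝ) (x : ℤ) : ℝ :=
  ∑ w ∈ FW A n, if w.sum ≤ k ∧ (3 : ℤ) ^ n ∣ 2 ^ w.sum * x - (Wp 3 w : ℤ) then
    (3 / 4 : ℝ) ^ k * g (2 ^ (k - w.sum) * en 3 w x) else 0

theorem Wn_zero (A k : ℕ) (g : ℤ → ℝ) (x : ℤ) : Wn A 0 k g x = (3 / 4) ^ k * g (2 ^ k * x) := by
  unfold Wn
  rw [sum_FW_zero]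
  simp [Wp, en]

theorem Wn_big {A n k : ℕ} (h : k < n) (g : ℤ → ℝ) (x : ℤ) : Wn A n k g x = 0 := by
  unfold Wn
  apply sum_eq_zero
  intro w hw
  rw [if_neg]
  rintro ⟨h1, -⟩
  rw [mem_FW] at hw
  have : w.length ≤ w.sum := C1_length_le w fun e he => (hw.2 e he).1
  omega

theorem en_cons (e : ℕ) (v : List ℕ) (x : ℤ) (h : (3 : ℤ) ∣ 2 ^ e * x - 1) :
    en 3 (e :: v) x = en 3 v ((2 ^ e * x - 1) / 3) := by
  obtain ⟨y, hy⟩ := h
  unfold en
  rw [hy, Int.mul_ediv_cancel_left _ (by norm_num : (3 : ℤ) ≠ 0)]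
  have e1 : (2 : ℤ) ^ (e :: v).sum * x - (Wp 3 (e :: v) : ℤ)
      = 3 * (2 ^ v.sum * y - (Wp 3 v : ℤ)) := by
    simp only [Wp, List.sum_cons]
    push_cast
    rw [pow_add]
    linear_combination (2 : ℤ) ^ v.sum * hy
  rw [e1, List.length_cons, pow_succ']
  push_cast
  exact Int.mul_ediv_mul_of_pos _ _ (by norm_num)

theorem Wn_succ (A n k : ℕ) (g : ℤ → ℝ) (x : ℤ) :
    Wn A (n + 1) k g x = ∑ e ∈ Icc 1 A, if e ≤ k ∧ (3 : ℤ) ∣ 2 ^ e * x - 1 then
      (3 / 4 : ℝ) ^ e * Wn A n (k - e) g ((2 ^ e * x - 1) / 3) else 0 := by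
  unfold Wn
  rw [sum_FW_succ]
  refine sum_congr rfl fun e _ => ?_
  by_cases h : e ≤ k ∧ (3 : ℤ) ∣ 2 ^ e * x - 1
  · obtain ⟨h1, h2⟩ := h
    rw [if_pos ⟨h1, h2⟩, mul_sum]
    refine sum_congr rfl fun v _ => ?_
    have hv := valid_cons_iff n e v x
    simp only [h2, true_and] at hv
    have hs : (e :: v).sum = e + v.sum := by simp
    by_cases h3 : v.sum ≤ k - e ∧ (3 : ℤ) ^ n ∣ 2 ^ v.sum * ((2 ^ e * x - 1) / 3) - (Wp 3 v : ℤ)
    · rw [if_pos h3, if_pos ⟨by omega, hv.2 h3.2⟩, en_cons e v x h2, hs]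
      have e1 : k - (e + v.sum) = k - e - v.sum := by omega
      have e2 : (3 / 4 : ℝ) ^ k = (3 / 4) ^ e * (3 / 4) ^ (k - e) := by
        rw [← pow_add]; congr 1; omega
      rw [e1, e2]
      ring
    · rw [if_neg h3, if_neg, mul_zero]
      rintro ⟨h4, h5⟩
      exact h3 ⟨by omega, hv.1 h5⟩
  · rw [if_neg h]
    apply sum_eq_zero
    intro v _
    rw [if_neg]
    rintro ⟨h4, h5⟩
    have hs : (e :: v).sum = e + v.sum := by simp
    exact h ⟨by omega, ((valid_cons_iff n e v x).1 h5).1⟩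

/-- the iterates of the operator as sums over words -/
theorem iter_words {A k : ℕ} (hA : k ≤ A) (g : ℤ → ℝ) (x : ℤ) :
    P^[k] g x = ∑ n ∈ range (k + 1), Wn A n k g x := by
  induction k using Nat.strong_induction_on generalizing x with
  | _ k ih =>
    rw [iter_letter, sum_range_succ', Wn_zero, add_comm]
    congr 1
    simp only [Wn_succ]
    rw [sum_comm]
    have h1 : ∀ e ∈ Icc 1 A, (∑ n ∈ range k, if e ≤ k ∧ (3 : ℤ) ∣ 2 ^ e * x - 1 then
        (3 / 4 : ℝ) ^ e * Wn A n (k - e) g ((2 ^ e * x - 1) / 3) else 0) =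
        if e ≤ k then (if (3 : ℤ) ∣ 2 ^ e * x - 1 then
          (3 / 4 : ℝ) ^ e * P^[k - e] g ((2 ^ e * x - 1) / 3) else 0) else 0 := by
      intro e he
      rw [mem_Icc] at he
      by_cases h1 : e ≤ k
      · by_cases h2 : (3 : ℤ) ∣ 2 ^ e * x - 1
        · simp only [h1, h2, true_and, if_true]
          rw [← mul_sum, ih (k - e) (by omega) (by omega)]
          congr 1
          symm
          apply sum_subset
          · intro n hn
            rw [mem_range] at hn ⊢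
            omega
          · intro n _ hn
            rw [mem_range, not_lt] at hn
            exact Wn_big (by omega) g _
        · simp [h2]
      · simp [h1]
    rw [sum_congr rfl h1]
    rw [← sum_filter (fun e => e ≤ k) (fun e => if (3 : ℤ) ∣ 2 ^ e * x - 1 then
          (3 / 4 : ℝ) ^ e * P^[k - e] g ((2 ^ e * x - 1) / 3) else 0)]
    apply sum_congr
    · ext e
      rw [mem_filter, mem_Icc, mem_Icc]
      omega
    · intro _ _
      rfl

end Pool.Agent.H623.TS
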