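import Pool.Graph.R_seed8.H377R2.NK.LogZ

/-!
# Fine digits of the offsets are asymptotically uniform
-/

set_option autoImplicit false

namespace Pool.Agent.H623.TS

open Finset Pool.Agent.H320R2.PD Pool.Agent.H377R2.NK

theorem gz_shift_anti (A i : ℕ) {n n' : ℕ} (h : n ≤ n') : gz A n' (n' + i) ≤ gz A n (n + i) := by
  obtain ⟨d, rfl⟩ := Nat.exists_eq_add_of_le' h
  have h0 := gz_rec A d n (n + i)
  rw [← add_assoc] at h0
  refine h0.trans ?_
  have h1 := gz_le_one A d (d + n + i)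
  have h2 := gz_nonneg A n (n + i)
  nlinarith

/-- one step of the recursion -/
theorem gz_step (i : ℕ) : ∃ h₀ : ℕ, 1 ≤ h₀ ∧ ∀ h, h₀ ≤ h → ∀ A, 6 * h ≤ A →
    gz A (6 * h) (6 * h + i) ≤ 3 / 5 * gz A h (h + i) := by
  obtain ⟨k₀, hk₀, hav⟩ := gz_avg
  refine ⟨k₀ + 28 * (i + 4), by omega, fun h hh A hA => ?_⟩
  set k : ℕ := 2 * h with hk
  have h1 := hav k (by omega) A (by omega)
  -- a good index
  obtain ⟨l, hl1, hl2, hl3⟩ : ∃ l, h ≤ l ∧ l + i < 152 * k / 100 ∧ gz A k (k + l + i) ≤ 3 / 5 := by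
    by_contra hcon
    push Not at hcon
    have h2 : (3 / 5 : ℝ) * ((152 * k / 100 - (h + i) : ℕ) : ℝ) ≤
        ∑ j ∈ range (152 * k / 100), gz A k (k + j) := by
      have e1 : 152 * k / 100 = (h + i) + (152 * k / 100 - (h + i)) := by omega
      rw [e1, sum_range_add]
      have h3 : 0 ≤ ∑ j ∈ range (h + i), gz A k (k + j) := sum_nonneg fun j _ => gz_nonneg _ _ _
      have h4 : (3 / 5 : ℝ) * ((152 * k / 100 - (h + i) : ℕ) : ℝ) ≤
          ∑ j ∈ range (152 * k / 100 - (h + i)), gz A k (k + (h + i + j)) := by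
        calc (3 / 5 : ℝ) * ((152 * k / 100 - (h + i) : ℕ) : ℝ)
            = ∑ _j ∈ range (152 * k / 100 - (h + i)), (3 / 5 : ℝ) := by
              rw [sum_const, card_range, nsmul_eq_mul, mul_comm]
          _ ≤ _ := by
              refine sum_le_sum fun j hj => ?_
              rw [mem_range] at hj
              have h5 := hcon (h + j) (by omega) (by omega)
              have e2 : k + (h + i + j) = k + (h + j) + i := by omega
              rw [e2]
              exact h5.le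
      have e3 : h + i + (152 * k / 100 - (h + i)) - (h + i) = 152 * k / 100 - (h + i) := by omega
      rw [e3]
      linarith
    have h3 : (3 / 5 : ℝ) * ((152 * k / 100 - (h + i) : ℕ) : ℝ) ≤ 59 / 100 * k := h2.trans h1
    have h4 : 100 * (152 * k / 100 - (h + i)) + 100 * (h + i) + 100 ≥ 152 * k := by omega
    have h5 : (100 : ℝ) * ((152 * k / 100 - (h + i) : ℕ) : ℝ) + 100 * (h + i) + 100 ≥ 152 * k := by
      exact_mod_cast h4
    have h6 : (k : ℝ) = 2 * h := by rw [hk]; push_cast; ring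
    have h7 : ((k₀ + 28 * (i + 4) : ℕ) : ℝ) ≤ h := by exact_mod_cast hh
    push_cast at h7
    have h8 : (0 : ℝ) ≤ k₀ := Nat.cast_nonneg _
    rw [h6] at h5 h3
    have h9 : (0 : ℝ) ≤ i := Nat.cast_nonneg _
    nlinarith
  have h2 : gz A (6 * h) (6 * h + i) ≤ gz A (k + l) (k + l + i) := gz_shift_anti A i (by omega)
  have h3 : gz A (k + l) (k + (l + i)) ≤ gz A k (k + (l + i)) * gz A l (l + i) := gz_rec A k l (l + i)
  have h4 : gz A l (l + i) ≤ gz A h (h + i) := gz_shift_anti A i hl1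
  have h5 := gz_nonneg A h (h + i)
  have h6 := gz_nonneg A l (l + i)
  rw [← add_assoc] at h3
  calc gz A (6 * h) (6 * h + i) ≤ gz A k (k + l + i) * gz A l (l + i) := h2.trans h3
    _ ≤ 3 / 5 * gz A l (l + i) := mul_le_mul_of_nonneg_right hl3 h6
    _ ≤ 3 / 5 * gz A h (h + i) := mul_le_mul_of_nonneg_left h4 (by norm_num)

theorem gz_small (i : ℕ) {ε : ℝ} (hε : 0 < ε) : ∃ n₀ : ℕ, ∀ n, n₀ ≤ n → ∀ A, 3 * n ≤ A →
    gz A n (n + i) ≤ ε := by
  obtain ⟨h₀, hh₀, hstep⟩ := gz_step i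
  obtain ⟨j, hj⟩ := exists_pow_lt_of_lt_one hε (show (3 / 5 : ℝ) < 1 by norm_num)
  have key : ∀ j : ℕ, ∀ A, 6 ^ j * h₀ ≤ A → gz A (6 ^ j * h₀) (6 ^ j * h₀ + i) ≤ (3 / 5) ^ j := by
    intro j
    induction j with
    | zero =>
      intro A _
      simp only [pow_zero, one_mul]
      exact gz_le_one _ _ _
    | succ j ih =>
      intro A hA
      have e : 6 ^ (j + 1) * h₀ = 6 * (6 ^ j * h₀) := by ring
      rw [e] at hA ⊢
      have h1 : h₀ ≤ 6 ^ j * h₀ := Nat.le_mul_of_pos_left _ (by positivity)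
      refine (hstep _ h1 A hA).trans ?_
      have h2 := ih A (by omega)
      rw [pow_succ]
      linarith
  refine ⟨6 ^ j * h₀, fun n hn A hA => ?_⟩
  exact (gz_shift_anti A i hn).trans ((key j A (by omega)).trans hj.le)

end Pool.Agent.H623.TS
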