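import Pool.Agent.H623.TS.A
import Pool.Agent.H623.TS.B

/-!
# Mixing of the transfer operator in mean
-/

set_option autoImplicit false

namespace Pool.Agent.H623.TS

open Finset Pool.Agent.H320R2.PD Pool.Agent.H377R2.NK

/-- deviation of three numbers from their mean -/
theorem tri_dev {a b c : ℝ} (ha : 0 ≤ a) (hb : 0 ≤ b) (hc : 0 ≤ c) :
    |a - (a + b + c) / 3| + |b - (a + b + c) / 3| + |c - (a + b + c) / 3| ≤
      Real.sqrt (2 * F3 a b c) * Real.sqrt (a + b + c) := by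
  have hF := F3_nonneg ha hb hc
  rw [← Real.sqrt_mul (by positivity)]
  apply Real.le_sqrt_of_sq_le
  have h1 : F3 a b c * (a + b + c) = a ^ 2 + b ^ 2 + c ^ 2 - a * b - b * c - c * a := by
    unfold F3
    rcases (show 0 ≤ a + b + c by positivity).eq_or_lt with h | h
    · have ha' : a = 0 := by linarith
      have hb' : b = 0 := by linarith
      have hc' : c = 0 := by linarith
      subst ha' hb' hc'
      simp
    · field_simp
  have h2 : 2 * F3 a b c * (a + b + c) = 2 * (F3 a b c * (a + b + c)) := by ring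
  rw [h2, h1]
  set p := |a - (a + b + c) / 3| with hp
  set q := |b - (a + b + c) / 3| with hq
  set r := |c - (a + b + c) / 3| with hr
  have e1 : p ^ 2 = (a - (a + b + c) / 3) ^ 2 := sq_abs _
  have e2 : q ^ 2 = (b - (a + b + c) / 3) ^ 2 := sq_abs _
  have e3 : r ^ 2 = (c - (a + b + c) / 3) ^ 2 := sq_abs _
  nlinarith [sq_nonneg (p - q), sq_nonneg (q - r), sq_nonneg (p - r)]

section Fam

variable {ι : Type*} (s : Finset ι) (wt : ι → ℝ) (v : ι → ℤ)

/-- one digit -/
noncomputable def R1 (J : ℕ) : ℝ :=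
  ∑ y ∈ range (3 ^ (J + 1)), |cnt s wt v (J + 1) (y : ℤ) - cnt s wt v J (y : ℤ) / 3|

theorem R1_le (h : ∀ i ∈ s, 0 ≤ wt i) (J : ℕ) :
    R1 s wt v J ≤ Real.sqrt (2 * Gam s wt v J) * Real.sqrt (∑ i ∈ s, wt i) := by
  classical
  unfold R1
  rw [ent_range_split (fun y => |cnt s wt v (J + 1) y - cnt s wt v J y / 3|) J]
  have h1 : ∀ y : ℤ, |cnt s wt v (J + 1) y - cnt s wt v J y / 3| +
      |cnt s wt v (J + 1) (y + 3 ^ J) - cnt s wt v J (y + 3 ^ J) / 3| +
      |cnt s wt v (J + 1) (y + 2 * 3 ^ J) - cnt s wt v J (y + 2 * 3 ^ J) / 3| ≤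
      Real.sqrt (2 * Fib s wt v J y) * Real.sqrt (cnt s wt v J y) := by
    intro y
    have e1 : cnt s wt v J (y + 3 ^ J) = cnt s wt v J y := cnt_congr J ⟨1, by ring⟩
    have e2 : cnt s wt v J (y + 2 * 3 ^ J) = cnt s wt v J y := cnt_congr J ⟨2, by ring⟩
    rw [e1, e2]
    have h2 := tri_dev (cnt_nonneg (v := v) h (J + 1) y) (cnt_nonneg (v := v) h (J + 1) (y + 3 ^ J))
      (cnt_nonneg (v := v) h (J + 1) (y + 2 * 3 ^ J))
    rw [← cnt_split s wt v J y] at h2
    exact h2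
  refine (sum_le_sum fun (y : ℕ) _ => h1 (y : ℤ)).trans ?_
  refine (Real.sum_sqrt_mul_sqrt_le _ (fun y => ?_) (fun y => cnt_nonneg h _ _)).trans ?_
  · have := Fib_nonneg (s := s) (wt := wt) v J h (y : ℤ)
    positivity
  · rw [sum_cnt, ← mul_sum]
    rfl

theorem many_digits (n m : ℕ) :
    ∑ y ∈ range (3 ^ (n + m)), |cnt s wt v (n + m) (y : ℤ) - cnt s wt v n (y : ℤ) / 3 ^ m| ≤
      ∑ i ∈ range m, R1 s wt v (n + i) := by
  induction m with
  | zero => simp
  | succ m ih =>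
    rw [sum_range_succ]
    have h1 : ∀ y : ℤ, |cnt s wt v (n + (m + 1)) y - cnt s wt v n y / 3 ^ (m + 1)| ≤
        |cnt s wt v (n + m) y - cnt s wt v n y / 3 ^ m| / 3 +
        |cnt s wt v (n + m + 1) y - cnt s wt v (n + m) y / 3| := by
      intro y
      have e : cnt s wt v (n + (m + 1)) y - cnt s wt v n y / 3 ^ (m + 1) =
          (cnt s wt v (n + m) y - cnt s wt v n y / 3 ^ m) / 3 +
          (cnt s wt v (n + m + 1) y - cnt s wt v (n + m) y / 3) := by
        rw [← add_assoc, pow_succ]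
        field_simp
        ring
      rw [e]
      refine (abs_add_le _ _).trans (le_of_eq ?_)
      rw [abs_div, abs_of_pos (by norm_num : (0 : ℝ) < 3)]
    refine (sum_le_sum fun (y : ℕ) _ => h1 (y : ℤ)).trans ?_
    rw [sum_add_distrib]
    refine add_le_add ?_ (le_of_eq rfl)
    have hper : ∀ y : ℤ, ∀ t : ℤ, |cnt s wt v (n + m) (y + t * 3 ^ (n + m)) -
        cnt s wt v n (y + t * 3 ^ (n + m)) / 3 ^ m| / 3 =
        |cnt s wt v (n + m) y - cnt s wt v n y / 3 ^ m| / 3 := by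
      intro y t
      have e1 : cnt s wt v (n + m) (y + t * 3 ^ (n + m)) = cnt s wt v (n + m) y :=
        cnt_congr _ ⟨t, by ring⟩
      have e2 : cnt s wt v n (y + t * 3 ^ (n + m)) = cnt s wt v n y :=
        cnt_congr _ ⟨t * 3 ^ m, by rw [pow_add]; ring⟩
      rw [e1, e2]
    rw [← add_assoc, ent_range_split (fun y => |cnt s wt v (n + m) y - cnt s wt v n y / 3 ^ m| / 3)
      (n + m)]
    refine le_trans (le_of_eq ?_) ih
    refine sum_congr rfl fun y _ => ?_
    have h2 := hper y 1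
    have h3 := hper y 2
    rw [one_mul] at h2
    rw [h2, h3]
    ring

end Fam

/-- integers `y`: the words with `3 ^ n ∣ y - Wo w` -/
noncomputable def Hf (F : Finset (List ℕ)) (n : ℕ) (G : ℤ → ℝ) (y : ℤ) : ℝ :=
  ∑ w ∈ F, if (3 : ℤ) ^ n ∣ y - (Wo w : ℤ) then qw w * G ((y - (Wo w : ℤ)) / 3 ^ n) else 0

theorem Hf_eq (F : Finset (List ℕ)) {n m : ℕ} {G : ℤ → ℝ} (hG : Per m G) (y : ℤ) :
    Hf F n G y = ∑ d ∈ range (3 ^ m), G (d : ℤ) *
      cnt F qw (fun w => (Wo w : ℤ)) (n + m) (y - 3 ^ n * (d : ℤ)) := by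
  classical
  unfold Hf cnt
  simp only [mul_sum]
  rw [sum_comm]
  refine sum_congr rfl fun w _ => ?_
  by_cases h : (3 : ℤ) ^ n ∣ y - (Wo w : ℤ)
  · obtain ⟨t, ht⟩ := h
    rw [if_pos ⟨t, ht⟩, ht, Int.mul_ediv_cancel_left _ (by positivity)]
    have h1 := sum_indicator (3 ^ m) (by positivity) t (G t * qw w)
    push_cast at h1
    rw [mul_comm (qw w), ← h1]
    refine sum_congr rfl fun d _ => ?_
    have e : (Wo w : ℤ) - (y - 3 ^ n * (d : ℤ)) = 3 ^ n * (-(t - d)) := by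
      linear_combination -ht
    have hiff : (3 : ℤ) ^ (n + m) ∣ (Wo w : ℤ) - (y - 3 ^ n * (d : ℤ)) ↔ (3 : ℤ) ^ m ∣ t - d := by
      rw [e, pow_add, mul_dvd_mul_iff_left (by positivity), dvd_neg]
    by_cases h2 : (3 : ℤ) ^ m ∣ t - d
    · rw [if_pos h2, if_pos (hiff.2 h2)]
      obtain ⟨u, hu⟩ := h2
      have h3 := hG d u
      have : t = d + 3 ^ m * u := by linarith
      rw [this, h3]
    · rw [if_neg h2, if_neg (fun h3 => h2 (hiff.1 h3)), mul_zero]
  · rw [if_neg h]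
    symm
    apply sum_eq_zero
    intro d _
    rw [if_neg, mul_zero]
    intro h2
    apply h
    have h3 : (3 : ℤ) ^ n ∣ (Wo w : ℤ) - (y - 3 ^ n * (d : ℤ)) :=
      (Dvd.intro _ (pow_add 3 n m).symm).trans h2
    have e : y - (Wo w : ℤ) = -((Wo w : ℤ) - (y - 3 ^ n * (d : ℤ))) + 3 ^ n * d := by ring
    rw [e]
    exact dvd_add (h3.neg_right) (Dvd.intro _ rfl)

theorem Hf_bound (F : Finset (List ℕ)) {n m : ℕ} {G : ℤ → ℝ} (hG : Per m G) (h0 : S m G = 0)
    {B : ℝ} (hB : ∀ x, |G x| ≤ B) :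
    S (n + m) (fun y => |Hf F n G y|) ≤
      B * 3 ^ m * ∑ i ∈ range m, R1 F qw (fun w => (Wo w : ℤ)) (n + i) := by
  classical
  have hB0 : 0 ≤ B := (abs_nonneg _).trans (hB 0)
  set φ : ℤ → ℝ := fun y => |cnt F qw (fun w => (Wo w : ℤ)) (n + m) y -
    cnt F qw (fun w => (Wo w : ℤ)) n y / 3 ^ m| with hφ
  have hper : Per (n + m) φ := by
    intro x y
    rw [hφ]
    dsimp only
    have e1 : cnt F qw (fun w => (Wo w : ℤ)) (n + m) (x + 3 ^ (n + m) * y) =
        cnt F qw (fun w => (Wo w : ℤ)) (n + m) x := cnt_congr _ ⟨y, by ring⟩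
    have e2 : cnt F qw (fun w => (Wo w : ℤ)) n (x + 3 ^ (n + m) * y) =
        cnt F qw (fun w => (Wo w : ℤ)) n x := cnt_congr _ ⟨3 ^ m * y, by rw [pow_add]; ring⟩
    rw [e1, e2]
  have h1 : ∀ y : ℤ, |Hf F n G y| ≤ B * ∑ d ∈ range (3 ^ m), φ (y - 3 ^ n * (d : ℤ)) := by
    intro y
    have h2 : Hf F n G y = ∑ d ∈ range (3 ^ m), G (d : ℤ) *
        (cnt F qw (fun w => (Wo w : ℤ)) (n + m) (y - 3 ^ n * (d : ℤ)) -
          cnt F qw (fun w => (Wo w : ℤ)) n (y - 3 ^ n * (d : ℤ)) / 3 ^ m) := by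
      rw [Hf_eq F hG]
      simp only [mul_sub]
      rw [sum_sub_distrib]
      have h3 : ∑ d ∈ range (3 ^ m), G (d : ℤ) *
          (cnt F qw (fun w => (Wo w : ℤ)) n (y - 3 ^ n * (d : ℤ)) / 3 ^ m) =
          (∑ d ∈ range (3 ^ m), G (d : ℤ)) * (cnt F qw (fun w => (Wo w : ℤ)) n y / 3 ^ m) := by
        rw [sum_mul]
        refine sum_congr rfl fun d _ => ?_
        have e2 : cnt F qw (fun w => (Wo w : ℤ)) n (y - 3 ^ n * (d : ℤ)) =
          cnt F qw (fun w => (Wo w : ℤ)) n y := cnt_congr _ ⟨-d, by ring⟩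
        rw [e2]
      unfold S at h0
      rw [h3, h0]
      ring
    rw [h2, mul_sum]
    refine (abs_sum_le_sum_abs _ _).trans (sum_le_sum fun d _ => ?_)
    rw [abs_mul]
    exact mul_le_mul_of_nonneg_right (hB _) (abs_nonneg _)
  have h2 : S (n + m) (fun y => |Hf F n G y|) ≤
      B * ∑ d ∈ range (3 ^ m), S (n + m) (fun y => φ (-(3 ^ n * (d : ℤ)) + 2 ^ 0 * y)) := by
    unfold S
    rw [sum_comm, mul_sum]
    refine sum_le_sum fun y _ => (h1 y).trans (le_of_eq ?_)
    congr 1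
    refine sum_congr rfl fun d _ => ?_
    congr 1
    ring
  refine h2.trans ?_
  have h3 : ∀ d ∈ range (3 ^ m), S (n + m) (fun y => φ (-(3 ^ n * (d : ℤ)) + 2 ^ 0 * y)) =
      S (n + m) φ := fun d _ => S_aff hper 0 _
  rw [sum_congr rfl h3, sum_const, card_range, nsmul_eq_mul, mul_assoc]
  push_cast
  refine mul_le_mul_of_nonneg_left ?_ hB0
  refine mul_le_mul_of_nonneg_left ?_ (by positivity)
  exact many_digits F qw (fun w => (Wo w : ℤ)) n m

/-- the error of the words with `n` letters and size `s` -/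
noncomputable def Er (A m n s : ℕ) : ℝ :=
  ∑ i ∈ range m, Real.sqrt (2 * Gam (FWT A n s) qw (fun w => (Wo w : ℤ)) (n + i)) *
    Real.sqrt (∑ w ∈ FWT A n s, qw w)

theorem Er_nonneg (A m n s : ℕ) : 0 ≤ Er A m n s := by
  unfold Er
  exact sum_nonneg fun i _ => mul_nonneg (Real.sqrt_nonneg _) (Real.sqrt_nonneg _)

/-- the part of `Wn` of size `s` -/
noncomputable def Ws (A n s k : ℕ) (g : ℤ → ℝ) (x : ℤ) : ℝ :=
  ∑ w ∈ FWT A n s, if (3 : ℤ) ^ n ∣ 2 ^ s * x - (Wp 3 w : ℤ) then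
    (3 / 4 : ℝ) ^ k * g (2 ^ (k - s) * en 3 w x) else 0

theorem Wn_eq_Ws (A n k : ℕ) (g : ℤ → ℝ) (x : ℤ) :
    Wn A n k g x = ∑ s ∈ range (k + 1), Ws A n s k g x := by
  classical
  unfold Wn Ws FWT
  have h1 : ∀ s ∈ range (k + 1), (∑ w ∈ (FW A n).filter (fun w => w.sum = s),
      if (3 : ℤ) ^ n ∣ 2 ^ s * x - (Wp 3 w : ℤ) then
        (3 / 4 : ℝ) ^ k * g (2 ^ (k - s) * en 3 w x) else 0) =
      ∑ w ∈ FW A n, if w.sum = s then (if (3 : ℤ) ^ n ∣ 2 ^ w.sum * x - (Wp 3 w : ℤ) then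
        (3 / 4 : ℝ) ^ k * g (2 ^ (k - w.sum) * en 3 w x) else 0) else 0 := by
    intro s _
    rw [sum_filter]
    refine sum_congr rfl fun w _ => ?_
    by_cases h : w.sum = s
    · subst h
      rw [if_pos rfl]
    · rw [if_neg h, if_neg h]
  rw [sum_congr rfl h1, sum_comm]
  refine sum_congr rfl fun w _ => ?_
  rw [sum_ite_eq]
  by_cases h2 : w.sum ≤ k
  · rw [if_pos (mem_range.2 (by omega))]
    simp only [h2, true_and]
  · rw [if_neg (fun h => h2 h.1), if_neg (by rw [mem_range]; omega)]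

theorem Ws_per {A n s k m : ℕ} {g : ℤ → ℝ} (hg : Per m g) : Per (n + m) (Ws A n s k g) := by
  intro x y
  unfold Ws
  refine sum_congr rfl fun w hw => ?_
  have hlen : w.length = n := by
    unfold FWT at hw
    rw [mem_filter, mem_FW] at hw
    exact hw.1.1
  have e : (2 : ℤ) ^ s * (x + 3 ^ (n + m) * y) - (Wp 3 w : ℤ) =
      2 ^ s * x - (Wp 3 w : ℤ) + 3 ^ n * (3 ^ m * (2 ^ s * y)) := by
    rw [pow_add]; ring
  have e2 : en 3 w (x + 3 ^ (n + m) * y) = en 3 w x + 3 ^ m * (2 ^ w.sum * y) := by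
    have h1 := en_shift (p := 3) (by norm_num) (w := w) x (3 ^ m * y)
    rw [hlen] at h1
    have h2 : x + ((3 : ℕ) : ℤ) ^ n * (3 ^ m * y) = x + 3 ^ (n + m) * y := by
      rw [pow_add]; push_cast; ring
    rw [h2] at h1
    rw [h1]
    ring
  have e3 : g (2 ^ (k - s) * en 3 w (x + 3 ^ (n + m) * y)) = g (2 ^ (k - s) * en 3 w x) := by
    rw [e2]
    have := hg (2 ^ (k - s) * en 3 w x) (2 ^ (k - s) * (2 ^ w.sum * y))
    rw [← this]
    congr 1
    ring
  rw [e, e3]
  have hiff : (3 : ℤ) ^ n ∣ 2 ^ s * x - (Wp 3 w : ℤ) + 3 ^ n * (3 ^ m * (2 ^ s * y)) ↔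
      (3 : ℤ) ^ n ∣ 2 ^ s * x - (Wp 3 w : ℤ) := dvd_add_left (Dvd.intro _ rfl)
  simp only [hiff]

theorem N_Ws (A : ℕ) {n s k m : ℕ} (hs : s ≤ k) {g : ℤ → ℝ} (hg : Per m g) (h0 : S m g = 0)
    {B : ℝ} (hB : ∀ x, |g x| ≤ B) :
    N (n + m) (Ws A n s k g) ≤ B * (3 / 4) ^ (k - s) * Er A m n s := by
  classical
  have hB0 : 0 ≤ B := (abs_nonneg _).trans (hB 0)
  set G : ℤ → ℝ := fun x => g (2 ^ (k - s) * x) with hG
  have hGper : Per m G := hg.smul _
  have hG0 : S m G = 0 := by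
    have := S_aff hg (k - s) 0
    simp only [zero_add] at this
    rw [hG, this, h0]
  have h1 := Hf_bound (FWT A n s) (n := n) hGper hG0 (B := B) (fun x => hB _)
  have h2 : ∀ x : ℤ, |Ws A n s k g x| = 3 ^ n * (3 / 4) ^ (k - s) *
      |Hf (FWT A n s) n G (0 + 2 ^ s * x)| := by
    intro x
    rw [zero_add, ← abs_of_nonneg (by positivity : (0 : ℝ) ≤ 3 ^ n * (3 / 4) ^ (k - s)),
      ← abs_mul]
    congr 1
    unfold Ws Hf
    rw [mul_sum]
    refine sum_congr rfl fun w hw => ?_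
    unfold FWT at hw
    rw [mem_filter, mem_FW] at hw
    have hlen : w.length = n := hw.1.1
    have hsum : w.sum = s := hw.2
    rw [Wp_three]
    by_cases h3 : (3 : ℤ) ^ n ∣ 2 ^ s * x - (Wo w : ℤ)
    · rw [if_pos h3, if_pos h3]
      have e1 : en 3 w x = (2 ^ s * x - (Wo w : ℤ)) / 3 ^ n := by
        unfold en
        rw [hsum, hlen, Wp_three]
        norm_num
      rw [e1]
      unfold qw
      rw [hlen, hsum]
      have e2 : (3 / 4 : ℝ) ^ k = (3 / 4) ^ (k - s) * (3 / 4) ^ s := by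
        rw [← pow_add]; congr 1; omega
      rw [e2, hG]
      have e3 : (3 : ℝ) ^ n * (1 / 3) ^ n = 1 := by rw [← mul_pow]; norm_num
      dsimp only
      linear_combination (-(3 / 4 : ℝ) ^ (k - s) * (3 / 4) ^ s *
        g (2 ^ (k - s) * ((2 ^ s * x - (Wo w : ℤ)) / 3 ^ n))) * e3
    · rw [if_neg h3, if_neg h3, mul_zero]
  have hHper : Per (n + m) (fun y => |Hf (FWT A n s) n G y|) := by
    intro x y
    dsimp only
    congr 1
    rw [Hf_eq _ hGper, Hf_eq _ hGper]
    refine sum_congr rfl fun d _ => ?_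
    congr 1
    exact cnt_congr _ ⟨y, by ring⟩
  unfold N
  have h3 : S (n + m) (fun x => |Ws A n s k g x|) = 3 ^ n * (3 / 4) ^ (k - s) *
      S (n + m) (fun y => |Hf (FWT A n s) n G y|) := by
    rw [← S_aff hHper s 0]
    unfold S
    rw [mul_sum]
    exact sum_congr rfl fun x _ => h2 x
  rw [h3, div_le_iff₀ (by positivity)]
  have h4 : ∑ i ∈ range m, R1 (FWT A n s) qw (fun w => (Wo w : ℤ)) (n + i) ≤ Er A m n s := by
    unfold Er
    exact sum_le_sum fun i _ => R1_le _ _ _ (fun w _ => qw_nonneg w) _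
  calc 3 ^ n * (3 / 4 : ℝ) ^ (k - s) * S (n + m) (fun y => |Hf (FWT A n s) n G y|)
      ≤ 3 ^ n * (3 / 4 : ℝ) ^ (k - s) * (B * 3 ^ m * Er A m n s) := by
        refine mul_le_mul_of_nonneg_left (h1.trans ?_) (by positivity)
        exact mul_le_mul_of_nonneg_left h4 (by positivity)
    _ = _ := by rw [pow_add]; ring

theorem N_sum_le {ι : Type*} (t : Finset ι) (n : ℕ) (f : ι → ℤ → ℝ) :
    N n (fun x => ∑ i ∈ t, f i x) ≤ ∑ i ∈ t, N n (f i) := by
  unfold N S
  rw [← sum_div, sum_comm]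
  exact div_le_div_of_nonneg_right (sum_le_sum fun x _ => abs_sum_le_sum_abs _ _) (by positivity)

theorem N_iter_le {A k m : ℕ} (hA : k ≤ A) {g : ℤ → ℝ} (hg : Per m g) (h0 : S m g = 0)
    {B : ℝ} (hB : ∀ x, |g x| ≤ B) :
    N (m + k) (P^[k] g) ≤
      ∑ n ∈ range (k + 1), ∑ s ∈ range (k + 1), B * (3 / 4) ^ (k - s) * Er A m n s := by
  have h1 : ∀ x, P^[k] g x = ∑ n ∈ range (k + 1), ∑ s ∈ range (k + 1), Ws A n s k g x := by
    intro x
    rw [iter_words hA]
    exact sum_congr rfl fun n _ => Wn_eq_Ws A n k g x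
  rw [N_congr h1]
  refine (N_sum_le _ _ _).trans (sum_le_sum fun n hn => ?_)
  refine (N_sum_le _ _ _).trans (sum_le_sum fun s hs => ?_)
  rw [mem_range] at hn hs
  rw [N_per (Ws_per hg) (show n + m ≤ m + k by omega)]
  exact N_Ws A (by omega) hg h0 hB

/-- the sum of the errors over the sizes -/
theorem sum_Er_le (A m n K : ℕ) :
    ∑ s ∈ range (K + 1), Er A m n s ≤ ∑ i ∈ range m, Real.sqrt (2 * gz A n (n + i)) := by
  classical
  unfold Er
  rw [sum_comm]
  refine sum_le_sum fun i _ => ?_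
  have hG : ∀ s, 0 ≤ Gam (FWT A n s) qw (fun w => (Wo w : ℤ)) (n + i) :=
    fun s => Gam_nonneg _ _ fun w _ => qw_nonneg w
  have hM : ∀ s, 0 ≤ ∑ w ∈ FWT A n s, qw w := fun s => sum_nonneg fun w _ => qw_nonneg w
  have h1 : ∀ s ∈ range (K + 1), s ∉ range (n * A + 1) → FWT A n s = ∅ := by
    intro s _ hs
    rw [mem_range, not_lt] at hs
    unfold FWT
    rw [filter_eq_empty_iff]
    intro w hw h2
    have := (sum_le_of_mem hw).2
    omega
  calc ∑ s ∈ range (K + 1), Real.sqrt (2 * Gam (FWT A n s) qw (fun w => (Wo w : ℤ)) (n + i)) *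
        Real.sqrt (∑ w ∈ FWT A n s, qw w)
      ≤ ∑ s ∈ range (K + 1) ∪ range (n * A + 1),
        Real.sqrt (2 * Gam (FWT A n s) qw (fun w => (Wo w : ℤ)) (n + i)) *
        Real.sqrt (∑ w ∈ FWT A n s, qw w) :=
        sum_le_sum_of_subset_of_nonneg subset_union_left
          fun s _ _ => mul_nonneg (Real.sqrt_nonneg _) (Real.sqrt_nonneg _)
    _ = ∑ s ∈ range (n * A + 1),
        Real.sqrt (2 * Gam (FWT A n s) qw (fun w => (Wo w : ℤ)) (n + i)) *
        Real.sqrt (∑ w ∈ FWT A n s, qw w) := by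
        symm
        apply sum_subset subset_union_right
        intro s hs1 hs2
        rw [mem_union] at hs1
        have h3 := h1 s (hs1.resolve_right hs2) hs2
        rw [h3]
        simp
    _ ≤ Real.sqrt (∑ s ∈ range (n * A + 1),
          2 * Gam (FWT A n s) qw (fun w => (Wo w : ℤ)) (n + i)) *
        Real.sqrt (∑ s ∈ range (n * A + 1), ∑ w ∈ FWT A n s, qw w) :=
        Real.sum_sqrt_mul_sqrt_le _ (fun s => by have := hG s; positivity) hM
    _ ≤ Real.sqrt (2 * gz A n (n + i)) * 1 := by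
        refine mul_le_mul (le_of_eq ?_) ?_ (Real.sqrt_nonneg _) (Real.sqrt_nonneg _)
        · rw [← mul_sum]
          rfl
        · refine (Real.sqrt_le_sqrt ?_).trans (le_of_eq Real.sqrt_one)
          have h4 : ∑ s ∈ range (n * A + 1), ∑ w ∈ FWT A n s, qw w = ∑ w ∈ FW A n, qw w := by
            unfold FWT
            apply sum_fiberwise_of_maps_to
            intro w hw
            have := (sum_le_of_mem hw).2
            rw [mem_range]
            omega
          rw [h4]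
          exact sum_qw_le A n
    _ = _ := mul_one _

/-- **mixing in mean** -/
theorem mixing {m : ℕ} {g : ℤ → ℝ} (hg : Per m g) (h0 : S m g = 0) {ε : ℝ} (hε : 0 < ε) :
    ∃ K : ℕ, ∀ k, K ≤ k → N (m + k) (P^[k] g) ≤ ε := by
  classical
  -- a bound for `g`
  obtain ⟨B, hB⟩ : ∃ B : ℝ, ∀ x, |g x| ≤ B := by
    refine ⟨∑ x ∈ range (3 ^ m), |g (x : ℤ)|, fun x => ?_⟩
    have h3 : (0 : ℤ) < 3 ^ m := by positivity
    have h4 : g x = g ((x % 3 ^ m : ℤ)) := by
      have := hg (x % 3 ^ m) (x / 3 ^ m)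
      rw [← this]
      congr 1
      exact (Int.emod_add_mul_ediv x (3 ^ m)).symm
    have h5 : ((x % 3 ^ m).toNat : ℤ) = x % 3 ^ m := Int.toNat_of_nonneg (Int.emod_nonneg _ h3.ne')
    rw [h4, ← h5]
    apply single_le_sum (f := fun x : ℕ => |g (x : ℤ)|) (fun _ _ => abs_nonneg _)
    rw [mem_range]
    have h6 := Int.emod_lt_of_pos x h3
    zify
    rw [h5]
    exact_mod_cast h6
  have hB0 : 0 ≤ B := (abs_nonneg _).trans (hB 0)
  -- choice of the parameters
  set δ : ℝ := ε / (16 * (B + 1) * (m + 1)) with hδ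
  have hδ0 : 0 < δ := by positivity
  have h1 : ∀ i : ℕ, ∃ n₀ : ℕ, ∀ n, n₀ ≤ n → ∀ A, 3 * n ≤ A → Real.sqrt (2 * gz A n (n + i)) ≤ δ := by
    intro i
    obtain ⟨n₀, hn₀⟩ := gz_small i (ε := δ ^ 2 / 2) (by positivity)
    refine ⟨n₀, fun n hn A hA => ?_⟩
    rw [Real.sqrt_le_left hδ0.le]
    have := hn₀ n hn A hA
    linarith
  choose n₀ hn₀ using h1
  set n₁ : ℕ := ∑ i ∈ range m, n₀ i with hn₁
  have hn₁' : ∀ i ∈ range m, n₀ i ≤ n₁ := fun i hi => single_le_sum (fun _ _ => Nat.zero_le _) hi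
  obtain ⟨K, hK⟩ := exists_nat_ge (16 * (B + 1) * (m + 1) * n₁ / ε)
  refine ⟨K, fun k hk => ?_⟩
  set A : ℕ := 3 * k with hA
  have hanti : ∀ j, j ≤ k → N (m + k) (P^[k] g) ≤ N (m + j) (P^[j] g) := by
    intro j hj
    obtain ⟨d, rfl⟩ := Nat.exists_eq_add_of_le' hj
    rw [Function.iterate_add_apply]
    have := N_iter (hg.iter j) d
    have e : m + (d + j) = m + j + d := by ring
    rw [e]
    exact this
  -- the Cesaro mean
  have h2 : ((k : ℝ) + 1) * N (m + k) (P^[k] g) ≤ ∑ j ∈ range (k + 1), N (m + j) (P^[j] g) := by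
    calc ((k : ℝ) + 1) * N (m + k) (P^[k] g) = ∑ _j ∈ range (k + 1), N (m + k) (P^[k] g) := by
          rw [sum_const, card_range, nsmul_eq_mul]; push_cast; ring
      _ ≤ _ := sum_le_sum fun j hj => hanti j (by rw [mem_range] at hj; omega)
  have h3 : ∑ j ∈ range (k + 1), N (m + j) (P^[j] g) ≤
      4 * B * ∑ n ∈ range (k + 1), ∑ s ∈ range (k + 1), Er A m n s := by
    have h4 : ∀ j ∈ range (k + 1), N (m + j) (P^[j] g) ≤ ∑ n ∈ range (k + 1),
        ∑ s ∈ range (k + 1), if s ≤ j then B * (3 / 4) ^ (j - s) * Er A m n s else 0 := by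
      intro j hj
      rw [mem_range] at hj
      refine (N_iter_le (A := A) (by omega) hg h0 hB).trans ?_
      refine (sum_le_sum_of_subset_of_nonneg (t := range (k + 1)) ?_ ?_).trans ?_
      · intro n hn
        rw [mem_range] at hn ⊢
        omega
      · intro n _ _
        refine sum_nonneg fun s _ => ?_
        have := Er_nonneg A m n s
        positivity
      · refine sum_le_sum fun n _ => ?_
        rw [← sum_filter]
        apply le_of_eq
        apply sum_congr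
        · ext s
          rw [mem_filter, mem_range, mem_range]
          omega
        · intro _ _
          rfl
    refine (sum_le_sum h4).trans ?_
    rw [sum_comm, mul_sum]
    refine sum_le_sum fun n _ => ?_
    rw [sum_comm, mul_sum]
    refine sum_le_sum fun s _ => ?_
    have h5 : ∑ j ∈ range (k + 1), (if s ≤ j then B * (3 / 4 : ℝ) ^ (j - s) * Er A m n s else 0) =
        B * Er A m n s * ∑ j ∈ range (k + 1), if s ≤ j then (3 / 4 : ℝ) ^ (j - s) else 0 := by
      rw [mul_sum]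
      refine sum_congr rfl fun j _ => ?_
      split_ifs <;> ring
    rw [h5]
    have h6 : ∑ j ∈ range (k + 1), (if s ≤ j then (3 / 4 : ℝ) ^ (j - s) else 0) ≤ 4 := by
      rw [← sum_filter]
      have h7 : ∑ j ∈ (range (k + 1)).filter (fun j => s ≤ j), (3 / 4 : ℝ) ^ (j - s) ≤
          ∑ i ∈ range (k + 1), (3 / 4 : ℝ) ^ i := by
        rw [← sum_image (f := fun i => (3 / 4 : ℝ) ^ i) (g := fun j => j - s)
          (s := (range (k + 1)).filter (fun j => s ≤ j))]
        · apply sum_le_sum_of_subset_of_nonneg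
          · intro i hi
            rw [mem_image] at hi
            obtain ⟨j, hj, rfl⟩ := hi
            rw [mem_filter, mem_range] at hj
            rw [mem_range]
            omega
          · intro _ _ _
            positivity
        · intro a ha b hb hab
          simp only [coe_filter, mem_range, Set.mem_ofPred_eq] at ha hb
          dsimp only at hab
          omega
      refine h7.trans ?_
      rw [geom_sum_eq (by norm_num)]
      have : (0 : ℝ) < (3 / 4) ^ (k + 1) := by positivity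
      rw [div_le_iff_of_neg (by norm_num)]
      linarith
    have h8 := Er_nonneg A m n s
    calc B * Er A m n s * _ ≤ B * Er A m n s * 4 := mul_le_mul_of_nonneg_left h6 (by positivity)
      _ = _ := by ring
  have h4 : ∑ n ∈ range (k + 1), ∑ s ∈ range (k + 1), Er A m n s ≤
      2 * m * n₁ + (k + 1) * (m * δ) := by
    have h5 : ∀ n ∈ range (k + 1), ∑ s ∈ range (k + 1), Er A m n s ≤
        (if n < n₁ then 2 * (m : ℝ) else 0) + m * δ := by
      intro n hn
      rw [mem_range] at hn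
      refine (sum_Er_le A m n k).trans ?_
      by_cases h6 : n < n₁
      · rw [if_pos h6]
        have h7 : ∑ i ∈ range m, Real.sqrt (2 * gz A n (n + i)) ≤ ∑ _i ∈ range m, (2 : ℝ) := by
          refine sum_le_sum fun i _ => ?_
          rw [Real.sqrt_le_left (by norm_num)]
          have := gz_le_one A n (n + i)
          linarith
        rw [sum_const, card_range, nsmul_eq_mul] at h7
        have : 0 ≤ (m : ℝ) * δ := by positivity
        linarith
      · rw [if_neg h6, zero_add]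
        have h7 : ∑ i ∈ range m, Real.sqrt (2 * gz A n (n + i)) ≤ ∑ _i ∈ range m, δ := by
          refine sum_le_sum fun i hi => hn₀ i n ?_ A (by omega)
          have := hn₁' i hi
          omega
        rw [sum_const, card_range, nsmul_eq_mul] at h7
        exact h7
    refine (sum_le_sum h5).trans ?_
    rw [sum_add_distrib, sum_const, card_range, nsmul_eq_mul, ← sum_filter, sum_const,
      nsmul_eq_mul]
    have h6 : (((range (k + 1)).filter (fun n => n < n₁)).card : ℝ) ≤ n₁ := by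
      have : ((range (k + 1)).filter (fun n => n < n₁)).card ≤ (range n₁).card := by
        apply card_le_card
        intro n hn
        rw [mem_filter] at hn
        rw [mem_range]
        exact hn.2
      rw [card_range] at this
      exact_mod_cast this
    push_cast
    nlinarith [Nat.cast_nonneg (α := ℝ) m]
  have h5 : ((k : ℝ) + 1) * N (m + k) (P^[k] g) ≤
      4 * B * (2 * m * n₁ + (k + 1) * (m * δ)) :=
    h2.trans (h3.trans (mul_le_mul_of_nonneg_left h4 (by positivity)))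
  -- conclusion
  have hk0 : (0 : ℝ) ≤ k := Nat.cast_nonneg _
  have hkK : (K : ℝ) ≤ k := by exact_mod_cast hk
  have h6 : 16 * (B + 1) * (m + 1) * n₁ ≤ ε * k := by
    have := hK.trans hkK
    rw [div_le_iff₀ hε] at this
    linarith
  have h7 : 4 * B * (m * δ) ≤ ε / 4 := by
    rw [hδ]
    rw [show 4 * B * (m * (ε / (16 * (B + 1) * (m + 1)))) =
      (4 * B * m * ε) / (16 * (B + 1) * (m + 1)) by ring, div_le_iff₀ (by positivity)]
    have hm0 : (0 : ℝ) ≤ m := Nat.cast_nonneg _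
    have e1 : 0 ≤ B * m * ε := by positivity
    have e2 : 0 ≤ B * ε := by positivity
    have e3 : 0 ≤ m * ε := by positivity
    nlinarith
  have h8 : 4 * B * (2 * m * n₁) ≤ ε * k / 2 := by
    have hm0 : (0 : ℝ) ≤ m := Nat.cast_nonneg _
    have hn0 : (0 : ℝ) ≤ n₁ := Nat.cast_nonneg _
    have e1 : 0 ≤ B * n₁ := by positivity
    have e2 : 0 ≤ m * (n₁ : ℝ) := by positivity
    nlinarith
  have h9 : ((k : ℝ) + 1) * N (m + k) (P^[k] g) ≤ (k + 1) * ε := by
    calc ((k : ℝ) + 1) * N (m + k) (P^[k] g) ≤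
        4 * B * (2 * m * n₁) + (k + 1) * (4 * B * (m * δ)) := by linarith
      _ ≤ ε * k / 2 + (k + 1) * (ε / 4) :=
        add_le_add h8 (mul_le_mul_of_nonneg_left h7 (by positivity))
      _ ≤ _ := by nlinarith
  exact le_of_mul_le_mul_left h9 (by positivity)

end Pool.Agent.H623.TS
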