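import Pool.Agent.H623.TS.C

/-!
# The critical martingale converges in mean, and its limit is invariant
-/

set_option autoImplicit false

namespace Pool.Agent.H623.TS

open Finset Filter Topology Pool.Agent.H320R2.PD Pool.Agent.H377R2.NK

theorem odd3 : Odd 3 := by decide

/-- the critical martingale without the cap on the letters -/
noncomputable def D (n : ℕ) (x : ℤ) : ℝ := ⨆ A : ℕ, DD 3 A n x

theorem D_bdd (n : ℕ) (x : ℤ) : BddAbove (Set.range fun A : ℕ => DD 3 A n x) := by
  refine ⟨(3 : ℝ) ^ n, ?_⟩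
  rintro _ ⟨A, rfl⟩
  exact_mod_cast DD_le odd3 A n x

theorem D_tendsto (n : ℕ) (x : ℤ) : Tendsto (fun A : ℕ => DD 3 A n x) atTop (𝓝 (D n x)) :=
  tendsto_atTop_ciSup (fun _ _ h => DD_mono n x h) (D_bdd n x)

theorem D_nonneg (n : ℕ) (x : ℤ) : 0 ≤ D n x :=
  ge_of_tendsto' (D_tendsto n x) fun A => DD_nonneg A n x

theorem D_le (n : ℕ) (x : ℤ) : D n x ≤ 3 ^ n :=
  le_of_tendsto' (D_tendsto n x) fun A => by exact_mod_cast DD_le odd3 A n x

theorem D_zero (x : ℤ) : D 0 x = 1 := by
  unfold D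
  simp [DD_zero]

theorem D_per (n : ℕ) : Per n (D n) := by
  intro x y
  refine tendsto_nhds_unique (D_tendsto n (x + 3 ^ n * y)) ?_
  refine (D_tendsto n x).congr fun A => ?_
  exact_mod_cast (DD_shift (p := 3) A n x y).symm

theorem pow_tendsto : Tendsto (fun A : ℕ => (3 / 4 : ℝ) ^ A) atTop (𝓝 0) :=
  tendsto_pow_atTop_nhds_zero_of_lt_one (by norm_num) (by norm_num)

theorem D_total (n : ℕ) : S n (D n) = 3 ^ n := by
  have h1 : Tendsto (fun A : ℕ => S n (DD 3 A n)) atTop (𝓝 (S n (D n))) := by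
    unfold S
    exact tendsto_finsetSum _ fun x _ => D_tendsto n x
  have h2 : Tendsto (fun A : ℕ => S n (DD 3 A n)) atTop (𝓝 (3 ^ n)) := by
    have h3 : ∀ A : ℕ, S n (DD 3 A n) = (3 * (1 - (3 / 4) ^ A)) ^ n := by
      intro A
      unfold S
      have := DD_total (p := 3) odd3 A n
      rw [zz_three] at this
      exact_mod_cast this
    simp only [h3]
    have h4 : Tendsto (fun A : ℕ => (3 * (1 - (3 / 4 : ℝ) ^ A)) ^ n) atTop
        (𝓝 ((3 * (1 - 0)) ^ n)) := ((tendsto_const_nhds.sub pow_tendsto).const_mul 3).pow n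
    simpa using h4
  exact tendsto_nhds_unique h1 h2

theorem D_lift (n : ℕ) (x : ℤ) :
    D (n + 1) x + D (n + 1) (x + 3 ^ n) + D (n + 1) (x + 2 * 3 ^ n) = 3 * D n x := by
  have h1 := ((D_tendsto (n + 1) x).add (D_tendsto (n + 1) (x + 3 ^ n))).add
    (D_tendsto (n + 1) (x + 2 * 3 ^ n))
  have h2 : Tendsto (fun A : ℕ => 3 * (1 - (3 / 4 : ℝ) ^ A) * DD 3 A n x) atTop
      (𝓝 (3 * (1 - 0) * D n x)) :=
    ((tendsto_const_nhds.sub pow_tendsto).const_mul 3).mul (D_tendsto n x)
  have h3 : (fun A : ℕ => DD 3 A (n + 1) x + DD 3 A (n + 1) (x + 3 ^ n) +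
      DD 3 A (n + 1) (x + 2 * 3 ^ n)) = fun A : ℕ => 3 * (1 - (3 / 4 : ℝ) ^ A) * DD 3 A n x := by
    funext A
    exact DD_lift_eq A n x
  rw [h3] at h1
  have := tendsto_nhds_unique h1 h2
  rw [this]
  ring

theorem D_succ_le (n : ℕ) (x : ℤ) : D (n + 1) x ≤ 3 * D n x := by
  have h := D_lift n x
  have h1 := D_nonneg (n + 1) (x + 3 ^ n)
  have h2 := D_nonneg (n + 1) (x + 2 * 3 ^ n)
  linarith

theorem D_add_le (n l : ℕ) (x : ℤ) : D (n + l) x ≤ 3 ^ l * D n x := by
  induction l with
  | zero => simp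
  | succ l ih =>
    calc D (n + (l + 1)) x ≤ 3 * D (n + l) x := D_succ_le (n + l) x
      _ ≤ 3 * (3 ^ l * D n x) := by linarith
      _ = _ := by ring

theorem shift_sum (F : ℕ → ℝ) (M : ℕ) :
    ∑ e ∈ Icc 1 M, F (e + 1) + F 1 = ∑ e ∈ Icc 1 M, F e + F (M + 1) := by
  induction M with
  | zero => simp
  | succ M ih =>
    rw [sum_Icc_succ_top (by omega), sum_Icc_succ_top (by omega)]
    linarith

/-- the equation of the martingale -/
theorem D_letter (n : ℕ) (x : ℤ) : D (n + 1) x = 3 / 4 * D (n + 1) (2 * x) +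
    3 / 4 * (if (3 : ℤ) ∣ 2 * x - 1 then D n ((2 * x - 1) / 3) else 0) := by
  set F : ℕ → ℕ → ℝ := fun A e => if (3 : ℤ) ∣ 2 ^ e * x - 1 then
      (3 / 4 : ℝ) ^ e * DD 3 A n ((2 ^ e * x - 1) / 3) else 0 with hF
  have h1 : ∀ A : ℕ, DD 3 A (n + 1) x + F A (A + 1) = 3 / 4 * DD 3 A (n + 1) (2 * x) + F A 1 := by
    intro A
    have h2 : DD 3 A (n + 1) x = ∑ e ∈ Icc 1 A, F A e := DD3_succ A n x
    have h3 : 3 / 4 * DD 3 A (n + 1) (2 * x) = ∑ e ∈ Icc 1 A, F A (e + 1) := by
      rw [DD3_succ, mul_sum]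
      refine sum_congr rfl fun e _ => ?_
      rw [hF]
      dsimp only
      have e1 : (2 : ℤ) ^ (e + 1) * x = 2 ^ e * (2 * x) := by ring
      rw [e1, pow_succ]
      split_ifs <;> ring
    rw [h2, h3]
    exact (shift_sum (F A) A).symm
  have h2 : Tendsto (fun A : ℕ => F A (A + 1)) atTop (𝓝 0) := by
    have h3 : Tendsto (fun A : ℕ => (3 / 4 : ℝ) ^ (A + 1) * 3 ^ n) atTop (𝓝 (0 * 3 ^ n)) :=
      ((tendsto_add_atTop_iff_nat 1).2 pow_tendsto).mul_const _
    rw [zero_mul] at h3
    refine squeeze_zero (fun A => ?_) (fun A => ?_) h3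
    · rw [hF]
      dsimp only
      have := DD_nonneg (p := 3) A n ((2 ^ (A + 1) * x - 1) / 3)
      split_ifs
      · positivity
      · exact le_rfl
    · rw [hF]
      dsimp only
      have := DD_le odd3 A n ((2 ^ (A + 1) * x - 1) / 3)
      push_cast at this
      split_ifs
      · exact mul_le_mul_of_nonneg_left this (by positivity)
      · positivity
  have h3 : Tendsto (fun A : ℕ => F A 1) atTop
      (𝓝 (3 / 4 * (if (3 : ℤ) ∣ 2 * x - 1 then D n ((2 * x - 1) / 3) else 0))) := by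
    rw [hF]
    simp only [pow_one]
    split_ifs
    · exact (D_tendsto n _).const_mul _
    · simp
  have h4 := ((D_tendsto (n + 1) (2 * x)).const_mul (3 / 4)).add h3
  have h5 := (D_tendsto (n + 1) x).add h2
  simp only [h1] at h5
  have := tendsto_nhds_unique h5 h4
  rw [add_zero] at this
  exact this

/-! ### entropy -/

/-- the entropy -/
noncomputable def En (n : ℕ) : ℝ := S n (fun x => D n x * Real.log (D n x)) / 3 ^ n

theorem En_le : ∃ C : ℝ, 0 < C ∧ ∀ n, En n ≤ C := by
  obtain ⟨C, hC, hsum⟩ := gz_sum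
  refine ⟨2 * C, by positivity, fun n => ?_⟩
  unfold En
  rw [div_le_iff₀ (by positivity)]
  have h1 : Tendsto (fun A : ℕ => EntD A n) atTop
      (𝓝 (S n (fun x => D n x * Real.log (D n x)))) := by
    unfold EntD S
    refine tendsto_finsetSum _ fun x _ => ?_
    exact (Real.continuous_mul_log.tendsto _).comp (D_tendsto n x)
  refine le_of_tendsto h1 ?_
  filter_upwards [eventually_ge_atTop (3 * n + 1)] with A hA
  refine (EntD_le A n (by omega)).trans ?_
  have h2 : ∑ m ∈ range n, gz A m m ≤ C := by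
    refine le_trans ?_ (hsum n A (by omega))
    rw [sum_range_succ]
    have := (gz_pos (A := A) (by omega) n n).le
    linarith
  have h3 : (0 : ℝ) < 3 ^ n := by positivity
  nlinarith

/-- the martingale property -/
theorem D_mart (n l : ℕ) {φ : ℤ → ℝ} (hφ : Per n φ) :
    S (n + l) (fun x => D (n + l) x * φ x) = 3 ^ l * S n (fun x => D n x * φ x) := by
  induction l with
  | zero => simp
  | succ l ih =>
    have h1 : S (n + (l + 1)) (fun x => D (n + (l + 1)) x * φ x) =
        3 * S (n + l) (fun x => D (n + l) x * φ x) := by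
      unfold S
      rw [← add_assoc, ent_range_split (fun x => D (n + l + 1) x * φ x) (n + l), mul_sum]
      refine sum_congr rfl fun x _ => ?_
      have hφ' := hφ.le (Nat.le_add_right n l)
      have e1 : φ ((x : ℤ) + 3 ^ (n + l)) = φ x := by
        have := hφ' x 1
        rwa [mul_one] at this
      have e2 : φ ((x : ℤ) + 2 * 3 ^ (n + l)) = φ x := by
        have := hφ' x 2
        rwa [mul_comm] at this
      rw [e1, e2]
      have := D_lift (n + l) x
      linear_combination φ x * this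
    rw [h1, ih]
    ring

theorem hell {x y : ℝ} (hx : 0 ≤ x) (hy : 0 ≤ y) (h : x = 0 → y = 0) :
    (Real.sqrt y - Real.sqrt x) ^ 2 ≤ y * Real.log y - y * Real.log x - y + x := by
  rcases hx.eq_or_lt with h0 | h0
  · have := h h0.symm
    subst this
    rw [← h0]
    simp
  rcases hy.eq_or_lt with h1 | h1
  · rw [← h1]
    simp [Real.sq_sqrt hx]
  · have h2 : Real.log y - Real.log x = 2 * Real.log (Real.sqrt y / Real.sqrt x) := by
      rw [Real.log_div (by positivity) (by positivity), Real.log_sqrt hy, Real.log_sqrt hx]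
      ring
    have h3 := Real.one_sub_inv_le_log_of_pos (show 0 < Real.sqrt y / Real.sqrt x by positivity)
    have h4 : y * Real.log y - y * Real.log x = y * (2 * Real.log (Real.sqrt y / Real.sqrt x)) := by
      rw [← h2]; ring
    rw [h4]
    set u := Real.sqrt y with hu
    set v := Real.sqrt x with hv
    have hu0 : 0 < u := Real.sqrt_pos.2 h1
    have hv0 : 0 < v := Real.sqrt_pos.2 h0
    have e1 : y = u ^ 2 := (Real.sq_sqrt hy).symm
    have e2 : x = v ^ 2 := (Real.sq_sqrt hx).symm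
    rw [e1, e2]
    have h5 : u ^ 2 * (2 * (1 - (u / v)⁻¹)) ≤ u ^ 2 * (2 * Real.log (u / v)) := by
      apply mul_le_mul_of_nonneg_left _ (by positivity)
      linarith
    have h6 : u ^ 2 * (2 * (1 - (u / v)⁻¹)) = 2 * u ^ 2 - 2 * u * v := by
      field_simp
    nlinarith

theorem D_abs_cont {n l : ℕ} {x : ℤ} (h : D n x = 0) : D (n + l) x = 0 := by
  have h1 := D_add_le n l x
  rw [h, mul_zero] at h1
  exact le_antisymm h1 (D_nonneg _ _)

theorem log_per (n : ℕ) : Per n (fun x => Real.log (D n x)) := fun x y => by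
  dsimp only
  rw [D_per n x y]

theorem hell_sum (n l : ℕ) :
    S (n + l) (fun x => (Real.sqrt (D (n + l) x) - Real.sqrt (D n x)) ^ 2) ≤
      3 ^ (n + l) * (En (n + l) - En n) := by
  have h1 : S (n + l) (fun x => (Real.sqrt (D (n + l) x) - Real.sqrt (D n x)) ^ 2) ≤
      S (n + l) (fun x => D (n + l) x * Real.log (D (n + l) x) - D (n + l) x * Real.log (D n x) -
        D (n + l) x + D n x) :=
    S_mono fun x => hell (D_nonneg _ _) (D_nonneg _ _) D_abs_cont
  refine h1.trans (le_of_eq ?_)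
  have h2 : S (n + l) (fun x => D (n + l) x * Real.log (D (n + l) x) -
      D (n + l) x * Real.log (D n x) - D (n + l) x + D n x) =
      S (n + l) (fun x => D (n + l) x * Real.log (D (n + l) x)) -
      S (n + l) (fun x => D (n + l) x * Real.log (D n x)) - S (n + l) (D (n + l)) +
      S (n + l) (D n) := by
    unfold S
    rw [sum_add_distrib, sum_sub_distrib, sum_sub_distrib]
  rw [h2, D_mart n l (log_per n), D_total, S_per (D_per n) l, D_total]
  unfold En
  rw [pow_add]
  field_simp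
  ring

theorem En_mono (n l : ℕ) : En n ≤ En (n + l) := by
  have h1 := hell_sum n l
  have h2 : 0 ≤ S (n + l) (fun x => (Real.sqrt (D (n + l) x) - Real.sqrt (D n x)) ^ 2) :=
    sum_nonneg fun x _ => sq_nonneg _
  have h3 : (0 : ℝ) < 3 ^ (n + l) := by positivity
  nlinarith

theorem N_diff_le (n l : ℕ) :
    N (n + l) (fun x => D (n + l) x - D n x) ≤ 2 * Real.sqrt (En (n + l) - En n) := by
  have hE : 0 ≤ En (n + l) - En n := by
    have := En_mono n l
    linarith
  unfold N
  rw [div_le_iff₀ (by positivity)]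
  have h1 : ∀ x : ℤ, |D (n + l) x - D n x| =
      Real.sqrt ((Real.sqrt (D (n + l) x) - Real.sqrt (D n x)) ^ 2) *
      Real.sqrt ((Real.sqrt (D (n + l) x) + Real.sqrt (D n x)) ^ 2) := by
    intro x
    rw [Real.sqrt_sq_eq_abs, Real.sqrt_sq_eq_abs, ← abs_mul]
    congr 1
    have e1 := Real.sq_sqrt (D_nonneg (n + l) x)
    have e2 := Real.sq_sqrt (D_nonneg n x)
    nlinarith
  have h2 : S (n + l) (fun x => |D (n + l) x - D n x|) ≤
      Real.sqrt (S (n + l) (fun x => (Real.sqrt (D (n + l) x) - Real.sqrt (D n x)) ^ 2)) *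
      Real.sqrt (S (n + l) (fun x => (Real.sqrt (D (n + l) x) + Real.sqrt (D n x)) ^ 2)) := by
    unfold S
    simp only [h1]
    exact Real.sum_sqrt_mul_sqrt_le _ (fun x => sq_nonneg _) (fun x => sq_nonneg _)
  have h3 : S (n + l) (fun x => (Real.sqrt (D (n + l) x) + Real.sqrt (D n x)) ^ 2) ≤
      4 * 3 ^ (n + l) := by
    have h4 : S (n + l) (fun x => (Real.sqrt (D (n + l) x) + Real.sqrt (D n x)) ^ 2) ≤
        S (n + l) (fun x => 2 * D (n + l) x + 2 * D n x) := by
      apply S_mono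
      intro x
      have e1 := Real.sq_sqrt (D_nonneg (n + l) x)
      have e2 := Real.sq_sqrt (D_nonneg n x)
      nlinarith [sq_nonneg (Real.sqrt (D (n + l) x) - Real.sqrt (D n x))]
    have h5 : S (n + l) (fun x => 2 * D (n + l) x + 2 * D n x) =
        2 * S (n + l) (D (n + l)) + 2 * S (n + l) (D n) := by
      unfold S
      rw [sum_add_distrib, mul_sum, mul_sum]
    rw [h5, D_total, S_per (D_per n) l, D_total] at h4
    refine h4.trans (le_of_eq ?_)
    rw [pow_add]
    ring
  refine h2.trans ?_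
  have h6 : Real.sqrt (S (n + l) (fun x => (Real.sqrt (D (n + l) x) - Real.sqrt (D n x)) ^ 2)) ≤
      Real.sqrt (3 ^ (n + l) * (En (n + l) - En n)) := Real.sqrt_le_sqrt (hell_sum n l)
  have h7 : Real.sqrt (S (n + l) (fun x => (Real.sqrt (D (n + l) x) + Real.sqrt (D n x)) ^ 2)) ≤
      Real.sqrt (4 * 3 ^ (n + l)) := Real.sqrt_le_sqrt h3
  refine (mul_le_mul h6 h7 (Real.sqrt_nonneg _) (Real.sqrt_nonneg _)).trans (le_of_eq ?_)
  rw [Real.sqrt_mul (by positivity), Real.sqrt_mul (by norm_num : (0 : ℝ) ≤ 4)]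
  have e4 : Real.sqrt 4 = 2 := by
    rw [show (4 : ℝ) = 2 ^ 2 by norm_num, Real.sqrt_sq (by norm_num)]
  rw [e4]
  have e5 := Real.mul_self_sqrt (show (0 : ℝ) ≤ 3 ^ (n + l) by positivity)
  linear_combination (2 * Real.sqrt (En (n + l) - En n)) * e5

theorem cauchy {ε : ℝ} (hε : 0 < ε) : ∃ M : ℕ, ∀ n l : ℕ, M ≤ n →
    N (n + l) (fun x => D (n + l) x - D n x) ≤ ε := by
  obtain ⟨C, hC, hEn⟩ := En_le
  have hmono : Monotone En := fun a b h => by
    obtain ⟨l, rfl⟩ := Nat.exists_eq_add_of_le h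
    exact En_mono a l
  have hb : BddAbove (Set.range En) := ⟨C, by rintro _ ⟨n, rfl⟩; exact hEn n⟩
  have h1 := tendsto_atTop_ciSup hmono hb
  have h2 : ∀ᶠ n in atTop, (⨆ n, En n) - (ε / 2) ^ 2 < En n :=
    h1.eventually (lt_mem_nhds (by have : 0 < (ε / 2) ^ 2 := by positivity
                                   linarith))
  obtain ⟨M, hM⟩ := eventually_atTop.1 h2
  refine ⟨M, fun n l hn => (N_diff_le n l).trans ?_⟩
  have h3 := hM n hn
  have h4 : En (n + l) ≤ ⨆ n, En n := le_ciSup hb (n + l)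
  have h5 : Real.sqrt (En (n + l) - En n) ≤ ε / 2 := by
    rw [Real.sqrt_le_left (by positivity)]
    linarith
  linarith

/-! ### approximate invariance -/

theorem N_iter' {n k L : ℕ} {g : ℤ → ℝ} (h : Per n g) (hL : n + k ≤ L) :
    N L (P^[k] g) ≤ N L g := by
  rw [N_per (h.iter k) hL, N_per h (by omega)]
  exact N_iter h k

theorem P_D (n : ℕ) (x : ℤ) : P (D n) x - D n x =
    (D (n + 1) x - D n x) + (-(3 / 4)) * (D (n + 1) (2 * x) - D n (2 * x)) := by
  have h := D_letter n x
  unfold TS.P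
  split_ifs at h ⊢ with h1
  · linarith
  · linarith

theorem N_PD (n : ℕ) : N (n + 1) (fun x => P (D n) x - D n x) ≤
    7 / 4 * N (n + 1) (fun x => D (n + 1) x - D n x) := by
  rw [N_congr (P_D n)]
  refine (N_add _ _).trans ?_
  have h1 := N_smul (n := n + 1) (-(3 / 4)) (fun x => D (n + 1) (2 * x) - D n (2 * x))
  rw [h1]
  have hper : Per (n + 1) (fun x => |D (n + 1) x - D n x|) := by
    intro x y
    dsimp only
    rw [D_per (n + 1) x y, (D_per n).le (Nat.le_succ n) x y]
  have h2 : N (n + 1) (fun x => D (n + 1) (2 * x) - D n (2 * x)) =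
      N (n + 1) (fun x => D (n + 1) x - D n x) := by
    unfold N
    congr 1
    have := S_aff hper 1 0
    simp only [pow_one, zero_add] at this
    exact this
  rw [h2, abs_neg, abs_of_pos (by norm_num : (0 : ℝ) < 3 / 4)]
  linarith

theorem N_PkD (n k L : ℕ) (hL : n + 1 + k ≤ L) : N L (fun x => P^[k] (D n) x - D n x) ≤
    k * (7 / 4 * N (n + 1) (fun x => D (n + 1) x - D n x)) := by
  induction k with
  | zero => simp [N, S]
  | succ k ih =>
    have h1 := N_tri (n := L) (P^[k + 1] (D n)) (P^[k] (D n)) (D n)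
    refine h1.trans ?_
    have h2 := ih (by omega)
    have hper : Per (n + 1) (fun x => P (D n) x - D n x) := by
      intro x y
      dsimp only
      rw [(D_per n).P x y, (D_per n).le (Nat.le_succ n) x y]
    have h3 : N L (fun x => P^[k + 1] (D n) x - P^[k] (D n) x) ≤
        7 / 4 * N (n + 1) (fun x => D (n + 1) x - D n x) := by
      have e : (fun x => P^[k + 1] (D n) x - P^[k] (D n) x) =
          P^[k] (fun x => P (D n) x - D n x) := by
        rw [iter_sub, Function.iterate_succ_apply]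
      rw [e]
      refine (N_iter' hper (by omega)).trans ?_
      rw [N_per hper (by omega)]
      exact N_PD n
    push_cast
    linarith

theorem almost_inv {ε : ℝ} (hε : 0 < ε) : ∃ M : ℕ, ∀ n, M ≤ n → ∀ k L : ℕ, n + k ≤ L →
    N L (fun x => P^[k] (D n) x - D n x) ≤ ε := by
  obtain ⟨M, hM⟩ := cauchy (show 0 < ε / 2 by positivity)
  refine ⟨M, fun n hn k L hL => ?_⟩
  have hper0 : Per (n + k) (fun x => P^[k] (D n) x - D n x) := by
    intro x y
    dsimp only
    rw [(D_per n).iter k x y, (D_per n).le (Nat.le_add_right n k) x y]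
  apply le_of_forall_pos_le_add
  intro η hη
  obtain ⟨M', hM'⟩ := cauchy (show 0 < η / (2 * (k + 1)) by positivity)
  set l : ℕ := M' with hl
  set L' : ℕ := L + n + l + 1 + k with hL'
  rw [N_per hper0 hL, ← N_per hper0 (show n + k ≤ L' by omega)]
  have h1 := N_tri (n := L') (P^[k] (D n)) (P^[k] (D (n + l))) (D n)
  have h2 := N_tri (n := L') (P^[k] (D (n + l))) (D (n + l)) (D n)
  have hperd : Per (n + l) (fun x => D n x - D (n + l) x) := by
    intro x y
    dsimp only
    rw [D_per (n + l) x y, (D_per n).le (Nat.le_add_right n l) x y]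
  have h3 : N L' (fun x => P^[k] (D n) x - P^[k] (D (n + l)) x) ≤ ε / 2 := by
    rw [← iter_sub]
    refine (N_iter' hperd (by omega)).trans ?_
    rw [N_comm, N_per (n := n + l) (g := fun x => D (n + l) x - D n x) ?_ (by omega)]
    · exact hM n l hn
    · intro x y
      dsimp only
      rw [D_per (n + l) x y, (D_per n).le (Nat.le_add_right n l) x y]
  have h4 : N L' (fun x => P^[k] (D (n + l)) x - D (n + l) x) ≤ η := by
    refine (N_PkD (n + l) k L' (by omega)).trans ?_
    have h5 := hM' (n + l) 1 (by omega)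
    have h6 : (k : ℝ) * (7 / 4 * N (n + l + 1) (fun x => D (n + l + 1) x - D (n + l) x)) ≤
        k * (7 / 4 * (η / (2 * (k + 1)))) := by
      refine mul_le_mul_of_nonneg_left ?_ (Nat.cast_nonneg _)
      linarith
    refine h6.trans ?_
    have hk0 : (0 : ℝ) ≤ k := Nat.cast_nonneg _
    have e9 : (k : ℝ) * (7 / 4 * (η / (2 * (k + 1)))) = (7 * k * η) / (8 * (k + 1)) := by
      field_simp
      ring
    rw [e9, div_le_iff₀ (by positivity)]
    nlinarith
  have h5 : N L' (fun x => D (n + l) x - D n x) ≤ ε / 2 := by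
    rw [N_per (n := n + l) (g := fun x => D (n + l) x - D n x) ?_ (by omega)]
    · exact hM n l hn
    · intro x y
      dsimp only
      rw [D_per (n + l) x y, (D_per n).le (Nat.le_add_right n l) x y]
  linarith

/-- **convergence in mean** -/
theorem main_conv {m : ℕ} {g : ℤ → ℝ} (hg : Per m g) {ε : ℝ} (hε : 0 < ε) :
    ∃ n₀ : ℕ, ∀ n, n₀ ≤ n → ∃ K : ℕ, ∀ k, K ≤ k → ∀ L, m + n + k ≤ L →
      N L (fun x => P^[k] g x - S m g / 3 ^ m * D n x) ≤ ε := by
  set γ : ℝ := S m g / 3 ^ m with hγ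
  obtain ⟨M, hM⟩ := almost_inv (show 0 < ε / (2 * (|γ| + 1)) by positivity)
  refine ⟨M, fun n hn => ?_⟩
  have hperh : Per (m + n) (fun x => g x - γ * D n x) := by
    intro x y
    dsimp only
    rw [(hg.le (Nat.le_add_right m n)) x y, (D_per n).le (Nat.le_add_left n m) x y]
  have h0 : S (m + n) (fun x => g x - γ * D n x) = 0 := by
    have h1 : S (m + n) (fun x => g x - γ * D n x) = S (m + n) g - γ * S (m + n) (D n) := by
      unfold S
      rw [sum_sub_distrib, mul_sum]
    rw [h1, S_per hg n, add_comm m n, S_per (D_per n) m, D_total, hγ]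
    field_simp
    ring
  obtain ⟨K, hK⟩ := mixing hperh h0 (show 0 < ε / 2 by positivity)
  refine ⟨K, fun k hk L hL => ?_⟩
  have h1 := N_tri (n := L) (P^[k] g) (fun x => γ * P^[k] (D n) x) (fun x => γ * D n x)
  refine h1.trans ?_
  have h2 : N L (fun x => P^[k] g x - γ * P^[k] (D n) x) ≤ ε / 2 := by
    have e : (fun x => P^[k] g x - γ * P^[k] (D n) x) = P^[k] (fun x => g x - γ * D n x) := by
      rw [iter_sub, iter_smul]
    rw [e, N_per (hperh.iter k) hL]
    exact hK k hk
  have h3 : N L (fun x => γ * P^[k] (D n) x - γ * D n x) ≤ ε / 2 := by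
    have e : ∀ x, γ * P^[k] (D n) x - γ * D n x = γ * (P^[k] (D n) x - D n x) := fun x => by ring
    rw [N_congr e, N_smul]
    have h4 := hM n hn k L (by omega)
    calc |γ| * N L (fun x => P^[k] (D n) x - D n x) ≤ |γ| * (ε / (2 * (|γ| + 1))) :=
          mul_le_mul_of_nonneg_left h4 (abs_nonneg _)
      _ ≤ ε / 2 := by
          rw [← mul_div_assoc, div_le_div_iff₀ (by positivity) (by norm_num)]
          nlinarith [abs_nonneg γ]
  linarith

end Pool.Agent.H623.TS
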