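import Pool.Agent.H623.TS.G

/-!
# Counting the nodes of the trees
-/

set_option autoImplicit false

namespace Pool.Agent.H623.TS

open Finset Filter Topology MeasureTheory Pool.Agent.H320R2.PD Pool.Agent.H377R2.NK
open Pool.Agent.X16.SL (ms3 bs3 mu3 cl mem_cl_iff meas_cl stp stp_eq stp_meas stp_int int_stp real_cl)

attribute [local instance] ms3
attribute [local instance] bs3

/-- the `3x+1` map -/
def T (n : ℕ) : ℕ := if n % 2 = 0 then n / 2 else (3 * n + 1) / 2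

/-- the number of odd terms among the first `j` iterates -/
def odds : ℕ → ℕ → ℕ
  | 0, _ => 0
  | j + 1, r => r % 2 + odds j (T r)

theorem T_le (n : ℕ) : n ≤ 2 * T n := by
  unfold T
  split_ifs <;> omega

theorem T_iter_le (k n : ℕ) : n ≤ 2 ^ k * T^[k] n := by
  induction k generalizing n with
  | zero => simp
  | succ k ih =>
    rw [Function.iterate_succ_apply, pow_succ]
    have h1 := ih (T n)
    have h2 := T_le n
    calc n ≤ 2 * T n := h2
      _ ≤ 2 * (2 ^ k * T^[k] (T n)) := by omega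
      _ = _ := by ring

/-- the nodes of level `k` of the tree above `a` -/
def Fr (k a : ℕ) : Finset ℕ := (range (2 ^ k * a + 1)).filter fun n => T^[k] n = a

theorem mem_Fr {k a n : ℕ} : n ∈ Fr k a ↔ T^[k] n = a := by
  unfold Fr
  rw [mem_filter, mem_range]
  constructor
  · exact fun h => h.2
  · intro h
    refine ⟨?_, h⟩
    have := T_iter_le k n
    rw [h] at this
    omega

theorem T_eq_iff {m a : ℕ} (ha : 1 ≤ a) : T m = a ↔ m = 2 * a ∨ (3 ∣ 2 * a - 1 ∧ m = (2 * a - 1) / 3) := by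
  unfold T
  split_ifs with h
  · constructor
    · intro h1; left; omega
    · rintro (h1 | ⟨h1, h2⟩)
      · omega
      · obtain ⟨c, hc⟩ := h1
        rw [hc, Nat.mul_div_cancel_left _ (by norm_num)] at h2
        omega
  · constructor
    · intro h1
      right
      have h2 : 2 * a - 1 = 3 * m := by omega
      exact ⟨⟨m, h2⟩, by rw [h2, Nat.mul_div_cancel_left _ (by norm_num)]⟩
    · rintro (h1 | ⟨h1, h2⟩)
      · omega
      · obtain ⟨c, hc⟩ := h1
        rw [hc, Nat.mul_div_cancel_left _ (by norm_num)] at h2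
        omega

theorem Fr_succ {k a : ℕ} (ha : 1 ≤ a) : Fr (k + 1) a =
    Fr k (2 * a) ∪ (if 3 ∣ 2 * a - 1 then Fr k ((2 * a - 1) / 3) else ∅) := by
  ext n
  rw [mem_Fr, Function.iterate_succ_apply', T_eq_iff ha, mem_union, mem_Fr]
  split_ifs with h
  · rw [mem_Fr]
    simp [h]
  · simp [h]

theorem sum_Fr_succ {k a : ℕ} (ha : 1 ≤ a) (g : ℕ → ℝ) : ∑ n ∈ Fr (k + 1) a, g n =
    ∑ n ∈ Fr k (2 * a), g n + (if 3 ∣ 2 * a - 1 then ∑ n ∈ Fr k ((2 * a - 1) / 3), g n else 0) := by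
  rw [Fr_succ ha, sum_union]
  · congr 1
    split_ifs <;> simp
  · rw [disjoint_left]
    intro n h1 h2
    split_ifs at h2 with h
    · rw [mem_Fr] at h1 h2
      obtain ⟨c, hc⟩ := h
      rw [hc, Nat.mul_div_cancel_left _ (by norm_num)] at h2
      omega
    · simp at h2

theorem iter_eq (g : ℤ → ℝ) (k : ℕ) : ∀ a : ℕ, 1 ≤ a → P^[k] g a = (3 / 4) ^ k * ∑ n ∈ Fr k a, g n := by
  induction k with
  | zero =>
    intro a _
    have : Fr 0 a = {a} := by ext n; rw [mem_Fr]; simp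
    rw [this]
    simp
  | succ k ih =>
    intro a ha
    rw [Function.iterate_succ_apply', sum_Fr_succ ha (fun n => g n)]
    have h1 : P (P^[k] g) a = 3 / 4 * (P^[k] g ((2 * a : ℕ) : ℤ) +
        if 3 ∣ 2 * a - 1 then P^[k] g (((2 * a - 1) / 3 : ℕ) : ℤ) else 0) := by
      unfold TS.P
      have h2 : ((2 * a : ℕ) : ℤ) = 2 * (a : ℤ) := by push_cast; rfl
      have h3 : ((2 * a - 1 : ℕ) : ℤ) = 2 * (a : ℤ) - 1 := by
        rw [Nat.cast_sub (by omega)]
        push_cast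
        rfl
      have h4 : (3 : ℤ) ∣ 2 * (a : ℤ) - 1 ↔ 3 ∣ 2 * a - 1 := by
        rw [← h3]
        exact_mod_cast Int.natCast_dvd_natCast (m := 3) (n := 2 * a - 1)
      have h5 : (((2 * a - 1) / 3 : ℕ) : ℤ) = (2 * (a : ℤ) - 1) / 3 := by
        rw [Int.natCast_div, h3]
        norm_num
      rw [h2, h5]
      simp only [h4]
    rw [h1, ih _ (by omega)]
    split_ifs with h
    · obtain ⟨c, hc⟩ := h
      have h6 : 1 ≤ (2 * a - 1) / 3 := by
        rw [hc, Nat.mul_div_cancel_left _ (by norm_num)]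
        omega
      rw [ih _ h6]
      ring
    · ring

/-- the indicator function of a class modulo `2 ^ j * 3 ^ m` -/
noncomputable def ic (j m r : ℕ) (x : ℤ) : ℝ := if (2 : ℤ) ^ j * 3 ^ m ∣ x - r then 1 else 0

theorem ic_per (m r : ℕ) : Per m (ic 0 m r) := by
  intro x y
  unfold ic
  have e : x + 3 ^ m * y - r = x - r + 3 ^ m * y := by ring
  have : (2 : ℤ) ^ 0 * 3 ^ m ∣ x + 3 ^ m * y - r ↔ (2 : ℤ) ^ 0 * 3 ^ m ∣ x - r := by
    rw [pow_zero, one_mul, e]
    exact dvd_add_left (Dvd.intro _ rfl)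
  simp only [this]

theorem P_ic (j m r : ℕ) (x : ℤ) : P (ic (j + 1) m r) x = 3 / 4 * ic j (m + r % 2) (T r) x := by
  unfold TS.P
  congr 1
  unfold ic T
  rcases Nat.mod_two_eq_zero_or_one r with h | h
  · obtain ⟨s, hs⟩ : ∃ s, r = 2 * s := ⟨r / 2, by omega⟩
    subst hs
    rw [if_pos h, h, add_zero]
    have h1 : 2 * s / 2 = s := by omega
    rw [h1]
    have h2 : (2 : ℤ) ^ (j + 1) * 3 ^ m ∣ 2 * x - ((2 * s : ℕ) : ℤ) ↔ (2 : ℤ) ^ j * 3 ^ m ∣ x - s := by
      have e1 : (2 : ℤ) ^ (j + 1) * 3 ^ m = 2 * (2 ^ j * 3 ^ m) := by ring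
      have e2 : 2 * x - ((2 * s : ℕ) : ℤ) = 2 * (x - s) := by push_cast; ring
      rw [e1, e2]
      exact mul_dvd_mul_iff_left (by norm_num)
    simp only [h2]
    have h3 : (if (3 : ℤ) ∣ 2 * x - 1 then
        (if (2 : ℤ) ^ (j + 1) * 3 ^ m ∣ (2 * x - 1) / 3 - ((2 * s : ℕ) : ℤ) then (1 : ℝ) else 0) else 0) = 0 := by
      split_ifs with h4 h5
      · exfalso
        obtain ⟨c, hc⟩ := h4
        rw [hc, Int.mul_ediv_cancel_left _ (by norm_num)] at h5
        have h6 : (2 : ℤ) ∣ c - ((2 * s : ℕ) : ℤ) :=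
          dvd_trans (by rw [pow_succ, mul_assoc, mul_comm ((2 : ℤ) ^ j), mul_assoc]; exact Dvd.intro _ rfl) h5
        push_cast at h6
        omega
      · rfl
      · rfl
    rw [h3, add_zero]
  · obtain ⟨s, hs⟩ : ∃ s, r = 2 * s + 1 := ⟨r / 2, by omega⟩
    subst hs
    have h1 : (3 * (2 * s + 1) + 1) / 2 = 3 * s + 2 := by omega
    rw [h, h1, if_neg (show ¬ (1 : ℕ) = 0 by norm_num)]
    have h2 : ¬ (2 : ℤ) ^ (j + 1) * 3 ^ m ∣ 2 * x - ((2 * s + 1 : ℕ) : ℤ) := by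
      intro h5
      have h6 : (2 : ℤ) ∣ 2 * x - ((2 * s + 1 : ℕ) : ℤ) :=
        dvd_trans (by rw [pow_succ, mul_assoc, mul_comm ((2 : ℤ) ^ j), mul_assoc]; exact Dvd.intro _ rfl) h5
      push_cast at h6
      omega
    rw [if_neg h2, zero_add]
    by_cases h4 : (3 : ℤ) ∣ 2 * x - 1
    · rw [if_pos h4]
      obtain ⟨c, hc⟩ := h4
      rw [hc, Int.mul_ediv_cancel_left _ (by norm_num)]
      have h5 : (2 : ℤ) ^ (j + 1) * 3 ^ m ∣ c - ((2 * s + 1 : ℕ) : ℤ) ↔
          (2 : ℤ) ^ j * 3 ^ (m + 1) ∣ x - ((3 * s + 2 : ℕ) : ℤ) := by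
        rw [← mul_dvd_mul_iff_left (show (3 : ℤ) ≠ 0 by norm_num),
          ← mul_dvd_mul_iff_left (show (2 : ℤ) ≠ 0 by norm_num) (a := 2) (b := (2 : ℤ) ^ j * 3 ^ (m + 1))]
        have e1 : 3 * ((2 : ℤ) ^ (j + 1) * 3 ^ m) = 2 * (2 ^ j * 3 ^ (m + 1)) := by ring
        have e2 : 3 * (c - ((2 * s + 1 : ℕ) : ℤ)) = 2 * (x - ((3 * s + 2 : ℕ) : ℤ)) := by
          push_cast
          linarith
        rw [e1, e2]
      simp only [h5]
    · rw [if_neg h4, if_neg]
      intro h5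
      apply h4
      have h6 : (3 : ℤ) ∣ x - ((3 * s + 2 : ℕ) : ℤ) :=
        dvd_trans (by rw [pow_succ, ← mul_assoc, mul_comm]; exact Dvd.intro _ rfl) h5
      push_cast at h6
      omega

theorem iter_ic (j m r : ℕ) : P^[j] (ic j m r) = fun x => (3 / 4) ^ j * ic 0 (m + odds j r) (T^[j] r) x := by
  induction j generalizing m r with
  | zero => funext x; simp [odds]
  | succ j ih =>
    have h1 : P (ic (j + 1) m r) = fun x => 3 / 4 * ic j (m + r % 2) (T r) x := by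
      funext x; exact P_ic j m r x
    rw [Function.iterate_succ_apply, h1, iter_smul, ih]
    funext x
    rw [odds, Function.iterate_succ_apply, add_assoc]
    ring

end Pool.Agent.H623.TS
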