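import Pool.Agent.H623.TS.E

/-!
# Positivity and logarithmic integrability of the limit density
-/

set_option autoImplicit false

namespace Pool.Agent.H623.TS

open Finset Filter Topology MeasureTheory Pool.Agent.H320R2.PD Pool.Agent.H377R2.NK
open Pool.Agent.X16.SL (ms3 bs3 mu3 cl mem_cl_iff meas_cl stp stp_eq stp_meas stp_int int_stp real_cl)
open scoped ENNReal

attribute [local instance] ms3
attribute [local instance] bs3

theorem D_pos {n : ℕ} {x : ℤ} (hx : ¬ (3 : ℤ) ∣ x) : 0 < D n x := by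
  have h1 : 0 < DD 3 6 n x := by
    rw [← ffz_eq]
    exact ffz_pos le_rfl hx
  exact h1.trans_le (le_ciSup (D_bdd n x) 6)

theorem log_avg_D : ∃ C : ℝ, 0 < C ∧ ∀ T : ℕ, 1 ≤ T → ∀ x : ℤ, ¬ (3 : ℤ) ∣ x →
    ∑ y ∈ range (3 ^ T), - Real.log (D (T + 1) (x + 3 * (y : ℤ))) ≤ 3 ^ T * C := by
  obtain ⟨C, hC, h⟩ := log_avg
  refine ⟨C, hC, fun T hT x hx => ?_⟩
  have h1 : Tendsto (fun A : ℕ => ∑ y ∈ range (3 ^ T), - Real.log (ffz A (T + 1) (x + 3 * (y : ℤ))))
      atTop (𝓝 (∑ y ∈ range (3 ^ T), - Real.log (D (T + 1) (x + 3 * (y : ℤ))))) := by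
    refine tendsto_finsetSum _ fun y _ => ?_
    have h2 : ¬ (3 : ℤ) ∣ x + 3 * (y : ℤ) := by omega
    have h3 : Tendsto (fun A : ℕ => ffz A (T + 1) (x + 3 * (y : ℤ))) atTop
        (𝓝 (D (T + 1) (x + 3 * (y : ℤ)))) := by
      simp only [ffz_eq]
      exact D_tendsto _ _
    exact (h3.log (D_pos h2).ne').neg
  refine le_of_tendsto h1 ?_
  filter_upwards [eventually_ge_atTop (3 * (T + 3))] with A hA
  exact h T A hT hA x hx

theorem abs_log_le {t : ℝ} (ht : 0 < t) : |Real.log t| ≤ - Real.log t + 2 * t := by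
  rcases le_total 0 (Real.log t) with h | h
  · rw [abs_of_nonneg h]
    have := Real.log_le_sub_one_of_pos ht
    linarith
  · rw [abs_of_nonpos h]
    linarith

theorem log_bound : ∃ C : ℝ, 0 < C ∧ ∀ n : ℕ, 2 ≤ n → S n (fun x => |Real.log (D n x)|) ≤ 3 ^ n * C := by
  obtain ⟨C, hC, h⟩ := log_avg_D
  refine ⟨C + 2, by positivity, fun n hn => ?_⟩
  obtain ⟨T, rfl⟩ := Nat.exists_eq_add_of_le' (show 1 ≤ n by omega)
  have h1 := h T (by omega) 1 (by norm_num)
  have h2 := h T (by omega) 2 (by norm_num)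
  have h3 : S (T + 1) (fun x => |Real.log (D (T + 1) x)|) ≤
      S (T + 1) (fun x => (if (3 : ℤ) ∣ x then 0 else - Real.log (D (T + 1) x)) + 2 * D (T + 1) x) := by
    apply S_mono
    intro x
    by_cases hx : (3 : ℤ) ∣ x
    · rw [if_pos hx, D_three hx]
      simp
    · rw [if_neg hx]
      exact abs_log_le (D_pos hx)
  refine h3.trans ?_
  have h4 : S (T + 1) (fun x => (if (3 : ℤ) ∣ x then 0 else - Real.log (D (T + 1) x)) +
      2 * D (T + 1) x) = S (T + 1) (fun x => (if (3 : ℤ) ∣ x then 0 else - Real.log (D (T + 1) x))) +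
      2 * S (T + 1) (D (T + 1)) := by
    unfold S
    rw [sum_add_distrib, mul_sum]
  rw [h4, D_total]
  have h5 : S (T + 1) (fun x => (if (3 : ℤ) ∣ x then 0 else - Real.log (D (T + 1) x))) =
      ∑ y ∈ range (3 ^ T), - Real.log (D (T + 1) (1 + 3 * (y : ℤ))) +
      ∑ y ∈ range (3 ^ T), - Real.log (D (T + 1) (2 + 3 * (y : ℤ))) := by
    unfold S
    rw [show 3 ^ (T + 1) = 3 * 3 ^ T by ring,
      Pool.Agent.H412R2.sum_range_three_mul (3 ^ T)
        (fun x => (if (3 : ℤ) ∣ x then 0 else - Real.log (D (T + 1) x))), ← sum_add_distrib]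
    refine sum_congr rfl fun y _ => ?_
    rw [if_pos (Dvd.intro _ rfl), if_neg (by omega), if_neg (by omega), zero_add,
      add_comm (3 * (y : ℤ)) 1, add_comm (3 * (y : ℤ)) 2]
  rw [h5]
  have h6 : (0 : ℝ) < 3 ^ T := by positivity
  rw [pow_succ]
  nlinarith

theorem mul_log_ge {t : ℝ} (ht : 0 ≤ t) : |t * Real.log t| ≤ t * Real.log t + 2 := by
  rcases ht.eq_or_lt with h | h
  · rw [← h]; simp
  · have h1 := Real.one_sub_inv_le_log_of_pos h
    have h2 : t - 1 ≤ t * Real.log t := by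
      have := mul_le_mul_of_nonneg_left h1 ht
      rwa [mul_sub, mul_one, mul_inv_cancel₀ h.ne'] at this
    rcases le_total 0 (t * Real.log t) with h3 | h3
    · rw [abs_of_nonneg h3]; linarith
    · rw [abs_of_nonpos h3]; linarith

theorem mul_log_bound : ∃ C : ℝ, 0 < C ∧ ∀ n : ℕ, S n (fun x => |D n x * Real.log (D n x)|) ≤ 3 ^ n * C := by
  obtain ⟨C, hC, h⟩ := En_le
  refine ⟨C + 2, by positivity, fun n => ?_⟩
  have h1 : S n (fun x => |D n x * Real.log (D n x)|) ≤
      S n (fun x => D n x * Real.log (D n x) + 2) := S_mono fun x => mul_log_ge (D_nonneg _ _)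
  refine h1.trans ?_
  have h2 : S n (fun x => D n x * Real.log (D n x) + 2) = 3 ^ n * En n + 3 ^ n * 2 := by
    unfold En S
    rw [sum_add_distrib, sum_const, card_range, nsmul_eq_mul, mul_div_cancel₀ _ (by positivity)]
    push_cast
    rfl
  rw [h2, mul_add]
  have := h n
  have h3 : (0 : ℝ) < 3 ^ n := by positivity
  nlinarith

section Main

variable {f : ℤ_[3] → ℝ} (hf : Integrable f mu3)
  (hlim : Tendsto (fun n => ∫ z, |up n (D n) z - f z| ∂mu3) atTop (𝓝 0))

include hf hlim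

theorem exists_seq : ∃ ns : ℕ → ℕ, StrictMono ns ∧
    ∀ᵐ z ∂mu3, Tendsto (fun i => up (ns i) (D (ns i)) z) atTop (𝓝 (f z)) := by
  have hlim' : Tendsto (fun n => eLpNorm (up n (D n) - f) 1 mu3) atTop (𝓝 0) := by
    have h1 : ∀ n, eLpNorm (up n (D n) - f) 1 mu3 =
        ENNReal.ofReal (∫ z, |up n (D n) z - f z| ∂mu3) := by
      intro n
      rw [eLpNorm_one_eq_lintegral_enorm,
        ofReal_integral_eq_lintegral_ofReal (f := fun z => |up n (D n) z - f z|)
        ((up_int _ _).sub hf).abs (Eventually.of_forall fun z => abs_nonneg _)]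
      refine lintegral_congr fun z => ?_
      rw [← Real.enorm_of_nonneg (abs_nonneg _)]
      simp
    simp only [h1]
    rw [← ENNReal.ofReal_zero]
    exact (ENNReal.continuous_ofReal.tendsto 0).comp hlim
  exact (tendstoInMeasure_of_tendsto_eLpNorm one_ne_zero (fun n => (up_int n _).1) hf.1
    hlim').exists_seq_tendsto_ae

theorem fatou_gen {φ : ℝ → ℝ} {C : ℝ} (hC : 0 ≤ C)
    (hφ : ∀ n : ℕ, 2 ≤ n → S n (fun x => |φ (D n x)|) ≤ 3 ^ n * C) {ns : ℕ → ℕ} (hns : StrictMono ns) :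
    ∫⁻ z, liminf (fun i => ENNReal.ofReal |φ (up (ns i) (D (ns i)) z)|) atTop ∂mu3 ≤
      ENNReal.ofReal C := by
  have hmeas : ∀ n, Measurable fun z => ENNReal.ofReal |φ (up n (D n) z)| := by
    intro n
    exact ENNReal.measurable_ofReal.comp (stp_meas n (fun x => |φ (D n (x : ℤ))|))
  refine (lintegral_liminf_le fun i => hmeas (ns i)).trans ?_
  refine liminf_le_of_frequently_le' (Eventually.frequently ?_)
  filter_upwards [eventually_ge_atTop 2] with i hi
  have h2 : 2 ≤ ns i := hi.trans (hns.id_le i)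
  have h3 := hφ (ns i) h2
  have h4 : ∫ z, |φ (up (ns i) (D (ns i)) z)| ∂mu3 = S (ns i) (fun x => |φ (D (ns i) x)|) / 3 ^ (ns i) :=
    integral_up (ns i) (fun x => |φ (D (ns i) x)|)
  rw [← ofReal_integral_eq_lintegral_ofReal (f := fun z => |φ (up (ns i) (D (ns i)) z)|)
    (up_int (ns i) (fun x => |φ (D (ns i) x)|)) (Eventually.of_forall fun z => abs_nonneg _), h4]
  apply ENNReal.ofReal_le_ofReal
  rw [div_le_iff₀ (by positivity)]
  linarith

/-- positivity and integrability of the logarithm of the density -/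
theorem log_f (h0 : ∀ z, 0 ≤ f z) (h3 : ∀ z, (3 : ℤ_[3]) ∣ z → f z = 0) :
    (∀ᵐ z ∂mu3, ¬ (3 : ℤ_[3]) ∣ z → 0 < f z) ∧ Integrable (fun z => Real.log (f z)) mu3 := by
  obtain ⟨C, hC, hb⟩ := log_bound
  obtain ⟨ns, hns, hae⟩ := exists_seq hf hlim
  have h1 := fatou_gen hf hlim hC.le hb hns
  have h2 : ∀ᵐ z ∂mu3, liminf (fun i => ENNReal.ofReal |Real.log (up (ns i) (D (ns i)) z)|) atTop < ∞ := by
    refine ae_lt_top' ?_ (ne_of_lt (h1.trans_lt ENNReal.ofReal_lt_top))
    exact (Measurable.liminf fun i => ENNReal.measurable_ofReal.comp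
      (stp_meas (ns i) (fun x => |Real.log (D (ns i) (x : ℤ))|))).aemeasurable
  have h3' : ∀ᵐ z ∂mu3, ¬ (3 : ℤ_[3]) ∣ z → 0 < f z := by
    filter_upwards [hae, h2] with z hz hz2 hz3
    by_contra hcon
    have hf0 : f z = 0 := le_antisymm (not_lt.1 hcon) (h0 z)
    rw [hf0] at hz
    have h4 : Tendsto (fun i => ENNReal.ofReal |Real.log (up (ns i) (D (ns i)) z)|) atTop (𝓝 ∞) := by
      rw [ENNReal.tendsto_ofReal_nhds_top]
      refine tendsto_abs_atBot_atTop.comp ?_
      refine Real.tendsto_log_nhdsGT_zero.comp ?_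
      rw [tendsto_nhdsWithin_iff]
      refine ⟨hz, ?_⟩
      filter_upwards [eventually_ge_atTop 1] with i hi
      have h5 : 1 ≤ ns i := hi.trans (hns.id_le i)
      show 0 < up (ns i) (D (ns i)) z
      rw [up_apply]
      exact D_pos (fun h => hz3 ((three_dvd_appr h5 z).1 h))
    rw [h4.liminf_eq] at hz2
    exact lt_irrefl _ hz2
  refine ⟨h3', ?_⟩
  refine ⟨(Real.measurable_log.comp_aemeasurable hf.1.aemeasurable).aestronglyMeasurable, ?_⟩
  rw [hasFiniteIntegral_iff_norm]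
  refine lt_of_le_of_lt ?_ (h1.trans_lt ENNReal.ofReal_lt_top)
  refine lintegral_mono_ae ?_
  filter_upwards [hae, h3'] with z hz hz3
  rw [Real.norm_eq_abs]
  by_cases h3z : (3 : ℤ_[3]) ∣ z
  · rw [h3 z h3z]
    simp
  · have h4 : Tendsto (fun i => ENNReal.ofReal |Real.log (up (ns i) (D (ns i)) z)|) atTop
        (𝓝 (ENNReal.ofReal |Real.log (f z)|)) :=
      ENNReal.tendsto_ofReal (hz.log (hz3 h3z).ne').abs
    exact h4.liminf_eq.ge

/-- the density belongs to `L log L` -/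
theorem mul_log_f : Integrable (fun z => f z * Real.log (f z)) mu3 := by
  obtain ⟨C, hC, hb⟩ := mul_log_bound
  obtain ⟨ns, hns, hae⟩ := exists_seq hf hlim
  have h1 := fatou_gen hf hlim (φ := fun t => t * Real.log t) hC.le (fun n _ => hb n) hns
  refine ⟨(Real.continuous_mul_log.measurable.comp_aemeasurable hf.1.aemeasurable).aestronglyMeasurable, ?_⟩
  rw [hasFiniteIntegral_iff_norm]
  refine lt_of_le_of_lt ?_ (h1.trans_lt ENNReal.ofReal_lt_top)
  refine lintegral_mono_ae ?_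
  filter_upwards [hae] with z hz
  rw [Real.norm_eq_abs]
  have h4 : Tendsto (fun i => ENNReal.ofReal |up (ns i) (D (ns i)) z *
      Real.log (up (ns i) (D (ns i)) z)|) atTop (𝓝 (ENNReal.ofReal |f z * Real.log (f z)|)) :=
    ENNReal.tendsto_ofReal ((Real.continuous_mul_log.tendsto _).comp hz).abs
  exact h4.liminf_eq.ge

end Main

end Pool.Agent.H623.TS
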