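import Pool.Agent.H623.TS.F

/-!
# Limit theorem for the nodes of the trees, and the limit law
-/

set_option autoImplicit false

namespace Pool.Agent.H623.TS

open Finset Filter Topology MeasureTheory Pool.Agent.H320R2.PD Pool.Agent.H377R2.NK
open Pool.Agent.X16.SL (ms3 bs3 mu3 cl mem_cl_iff meas_cl stp stp_eq stp_meas stp_int int_stp real_cl)

attribute [local instance] ms3
attribute [local instance] bs3

/-- the number of nodes of level `k` above `a` in a residue class -/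
noncomputable def nodes (k q r a : ℕ) : ℕ := Set.ncard {n : ℕ | T^[k] n = a ∧ n ≡ r [MOD q]}

theorem nodes_eq {k j m r a : ℕ} (ha : 1 ≤ a) :
    (3 / 4 : ℝ) ^ k * (nodes k (2 ^ j * 3 ^ m) r a : ℝ) = P^[k] (ic j m r) a := by
  rw [iter_eq _ k a ha]
  congr 1
  unfold ic
  rw [← sum_filter, sum_const, nsmul_eq_mul, mul_one]
  unfold nodes
  rw [← Set.ncard_coe_finset]
  congr 2
  ext n
  rw [Finset.mem_coe, mem_filter, mem_Fr, Set.mem_ofPred_eq]
  refine and_congr_right fun _ => ?_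
  rw [Nat.modEq_iff_dvd]
  push_cast
  rw [← dvd_neg, neg_sub]

theorem odds_le (j r : ℕ) : odds j r ≤ j := by
  induction j generalizing r with
  | zero => simp [odds]
  | succ j ih =>
    rw [odds]
    have := ih (T r)
    omega

theorem iter_ic_per (l j m r : ℕ) : Per (m + (l + j)) (P^[l + j] (ic j m r)) := by
  rw [Function.iterate_add_apply, iter_ic]
  have h1 : Per (m + odds j r) (fun x => (3 / 4 : ℝ) ^ j * ic 0 (m + odds j r) (T^[j] r) x) := by
    intro x y
    dsimp only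
    rw [ic_per]
  refine (h1.iter l).le ?_
  have := odds_le j r
  omega

/-- the counts depend only on the root modulo a power of `3` -/
theorem nodes_congr {k j m r a b : ℕ} (hj : j ≤ k) (ha : 1 ≤ a) (hb : 1 ≤ b)
    (hab : a ≡ b [MOD 3 ^ (m + k)]) :
    nodes k (2 ^ j * 3 ^ m) r a = nodes k (2 ^ j * 3 ^ m) r b := by
  obtain ⟨l, rfl⟩ := Nat.exists_eq_add_of_le' hj
  have h1 : P^[l + j] (ic j m r) (a : ℤ) = P^[l + j] (ic j m r) (b : ℤ) := by
    rw [Nat.modEq_iff_dvd] at hab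
    obtain ⟨c, hc⟩ := hab
    push_cast at hc
    have h2 := iter_ic_per l j m r a c
    have h3 : (b : ℤ) = a + 3 ^ (m + (l + j)) * c := by linarith
    rw [h3, h2]
  rw [← nodes_eq ha, ← nodes_eq hb] at h1
  have h2 : (0 : ℝ) < (3 / 4) ^ (l + j) := by positivity
  exact_mod_cast mul_left_cancel₀ h2.ne' h1

theorem S_ic (M R : ℕ) : S M (ic 0 M R) = 1 := by
  have h0 : 0 < 3 ^ M := by positivity
  unfold S
  rw [sum_eq_single (R % 3 ^ M)]
  · unfold ic
    rw [if_pos]
    rw [pow_zero, one_mul]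
    refine ⟨-((R / 3 ^ M : ℕ) : ℤ), ?_⟩
    have := Nat.mod_add_div R (3 ^ M)
    have h1 : ((R % 3 ^ M : ℕ) : ℤ) + 3 ^ M * ((R / 3 ^ M : ℕ) : ℤ) = R := by exact_mod_cast this
    linarith
  · intro b hb hne
    unfold ic
    rw [if_neg]
    intro h
    apply hne
    rw [pow_zero, one_mul] at h
    have h1 : b ≡ R [MOD 3 ^ M] := by
      rw [Nat.modEq_iff_dvd]
      push_cast
      rwa [← dvd_neg, neg_sub]
    have h2 : b % 3 ^ M = R % 3 ^ M := h1
    rwa [Nat.mod_eq_of_lt (mem_range.1 hb)] at h2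
  · intro h
    exact absurd (mem_range.2 (Nat.mod_lt _ h0)) h

section Main

variable {f : ℤ_[3] → ℝ} (hf : Integrable f mu3)
  (hlim : Tendsto (fun n => ∫ z, |up n (D n) z - f z| ∂mu3) atTop (𝓝 0))

include hf hlim

theorem nodes_lim (j m r : ℕ) : Tendsto (fun k => ∫ z, |(3 / 4 : ℝ) ^ k *
    (nodes k (2 ^ j * 3 ^ m) r (z.appr (m + k) + 3 ^ (m + k)) : ℝ) -
      (3 / 4) ^ j / 3 ^ (m + odds j r) * f z| ∂mu3) atTop (𝓝 0) := by
  rw [← tendsto_add_atTop_iff_nat j]
  set M : ℕ := m + odds j r with hM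
  set g : ℤ → ℝ := fun x => (3 / 4 : ℝ) ^ j * ic 0 M (T^[j] r) x with hg
  have hgp : Per M g := by
    intro x y
    rw [hg]
    dsimp only
    rw [ic_per]
  have hS : S M g = (3 / 4) ^ j := by
    have : S M g = (3 / 4) ^ j * S M (ic 0 M (T^[j] r)) := by
      unfold S
      rw [mul_sum]
    rw [this, S_ic, mul_one]
  have h1 := conv_up hf hlim hgp
  rw [hS] at h1
  refine h1.congr fun l => ?_
  refine integral_congr_ae (Eventually.of_forall fun z => ?_)
  dsimp only
  congr 2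
  have h2 : 1 ≤ z.appr (m + (l + j)) + 3 ^ (m + (l + j)) := by
    have : 0 < 3 ^ (m + (l + j)) := by positivity
    omega
  rw [nodes_eq h2, Function.iterate_add_apply, iter_ic, up_apply]
  have h3 : Per (M + l) (P^[l] g) := hgp.iter l
  have h4 := odds_le j r
  have h5 : M + l ≤ m + (l + j) := by omega
  have h6 := (h3.le h5) ((z.appr (m + (l + j)) : ℕ) : ℤ) 1
  rw [mul_one] at h6
  push_cast
  rw [h6, appr_per h5 h3]

end Main

/-! ### the units and the limit law -/

/-- the units -/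
def U : Set ℤ_[3] := {z | ¬ (3 : ℤ_[3]) ∣ z}

theorem U_meas : MeasurableSet U := units_meas

theorem U_real : mu3.real U = 2 / 3 := by
  have h1 : U = (cl 1 0)ᶜ := units_eq
  rw [h1, measureReal_compl (meas_cl 1 0), real_cl]
  simp
  norm_num

theorem U_ne : mu3 U ≠ 0 := by
  intro h
  have := U_real
  rw [measureReal_def, h] at this
  norm_num at this

/-- the limit law -/
noncomputable def nu (f : ℤ_[3] → ℝ) : Measure ℝ := (ProbabilityTheory.cond mu3 U).map f

theorem integral_cond (g : ℤ_[3] → ℝ) : ∫ z, g z ∂(ProbabilityTheory.cond mu3 U) =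
    3 / 2 * ∫ z in U, g z ∂mu3 := by
  unfold ProbabilityTheory.cond
  rw [integral_smul_measure, ENNReal.toReal_inv, smul_eq_mul]
  congr 1
  have : (mu3 U).toReal = 2 / 3 := U_real
  rw [this]
  norm_num

theorem sum_units (n : ℕ) (g : ℤ → ℝ) : (∑ a ∈ (range (3 ^ (n + 1))).filter (fun a => ¬ 3 ∣ a), g (a : ℤ)) /
    (2 * 3 ^ n) = 3 / 2 * ∫ z in U, up (n + 1) g z ∂mu3 := by
  rw [← integral_indicator U_meas]
  have h1 : U.indicator (up (n + 1) g) = up (n + 1) (fun x => if (3 : ℤ) ∣ x then 0 else g x) := by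
    funext z
    rw [up_apply]
    have h2 := three_dvd_appr (n := n + 1) (by omega) z
    by_cases h : (3 : ℤ_[3]) ∣ z
    · rw [Set.indicator_of_notMem (by simpa [U] using h), if_pos (h2.2 h)]
    · rw [Set.indicator_of_mem (show z ∈ U from h), if_neg (fun h' => h (h2.1 h')), up_apply]
  rw [h1, integral_up]
  unfold S
  rw [sum_filter]
  have h2 : ∀ a ∈ range (3 ^ (n + 1)), (if ¬ 3 ∣ a then g (a : ℤ) else 0) =
      (if (3 : ℤ) ∣ (a : ℤ) then 0 else g (a : ℤ)) := by
    intro a _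
    have h3 : (3 : ℤ) ∣ (a : ℤ) ↔ 3 ∣ a := by exact_mod_cast Int.natCast_dvd_natCast (m := 3) (n := a)
    simp only [h3]
    by_cases h : 3 ∣ a
    · simp [h]
    · simp [h]
  rw [sum_congr rfl h2, pow_succ (3 : ℝ)]
  field_simp

section Law

variable {f : ℤ_[3] → ℝ} (hf : Integrable f mu3)
  (hlim : Tendsto (fun n => ∫ z, |up n (D n) z - f z| ∂mu3) atTop (𝓝 0))

include hf

theorem f_aem : AEMeasurable f (ProbabilityTheory.cond mu3 U) :=
  hf.1.aemeasurable.mono_ac ProbabilityTheory.cond_absolutelyContinuous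

theorem nu_prob : IsProbabilityMeasure (nu f) := by
  have : IsProbabilityMeasure (ProbabilityTheory.cond mu3 U) :=
    ProbabilityTheory.cond_isProbabilityMeasure U_ne
  exact Measure.isProbabilityMeasure_map (f_aem hf)

theorem nu_pos (hpos : ∀ᵐ z ∂mu3, ¬ (3 : ℤ_[3]) ∣ z → 0 < f z) : nu f (Set.Iic 0) = 0 := by
  unfold nu
  rw [Measure.map_apply_of_aemeasurable (f_aem hf) measurableSet_Iic]
  rw [ProbabilityTheory.cond_apply U_meas]
  have : mu3 (U ∩ f ⁻¹' Set.Iic 0) = 0 := by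
    rw [measure_eq_zero_iff_ae_notMem]
    filter_upwards [hpos] with z hz h
    exact absurd (hz h.1) (not_lt.2 h.2)
  rw [this, mul_zero]

include hlim

theorem law_lim {φ : ℝ → ℝ} {L : NNReal} (hφ : LipschitzWith L φ) :
    Tendsto (fun k : ℕ => (∑ a ∈ (range (3 ^ (k + 1))).filter (fun a => ¬ 3 ∣ a),
      φ ((3 / 4 : ℝ) ^ k * (nodes k 1 0 a : ℝ))) / (2 * 3 ^ k)) atTop (𝓝 (∫ t, φ t ∂(nu f))) := by
  have h1 : ∫ t, φ t ∂(nu f) = 3 / 2 * ∫ z in U, φ (f z) ∂mu3 := by
    unfold nu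
    rw [integral_map (f_aem hf) hφ.continuous.aestronglyMeasurable, integral_cond]
  rw [h1]
  have h2 : ∀ k : ℕ, (∑ a ∈ (range (3 ^ (k + 1))).filter (fun a => ¬ 3 ∣ a),
      φ ((3 / 4 : ℝ) ^ k * (nodes k 1 0 a : ℝ))) / (2 * 3 ^ k) =
      3 / 2 * ∫ z in U, φ (up k (P^[k] (ic 0 0 0)) z) ∂mu3 := by
    intro k
    have e1 : ∑ a ∈ (range (3 ^ (k + 1))).filter (fun a => ¬ 3 ∣ a),
        φ ((3 / 4 : ℝ) ^ k * (nodes k 1 0 a : ℝ)) =
        ∑ a ∈ (range (3 ^ (k + 1))).filter (fun a => ¬ 3 ∣ a),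
          (fun x : ℤ => φ (P^[k] (ic 0 0 0) x)) (a : ℤ) := by
      refine sum_congr rfl fun a ha => ?_
      have ha' : 1 ≤ a := by
        rcases Nat.eq_zero_or_pos a with h | h
        · subst h
          simp at ha
        · exact h
      dsimp only
      rw [← nodes_eq ha', pow_zero, pow_zero, one_mul]
    rw [e1, sum_units k (fun x : ℤ => φ (P^[k] (ic 0 0 0) x))]
    congr 1
    have e2 : ∀ z, up (k + 1) (fun x : ℤ => φ (P^[k] (ic 0 0 0) x)) z =
        φ (up k (P^[k] (ic 0 0 0)) z) := by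
      intro z
      rw [up_apply, up_apply]
      have e3 : Per k (P^[k] (ic 0 0 0)) := by
        have := (ic_per 0 0).iter k
        rwa [zero_add] at this
      rw [appr_per (Nat.le_succ k) e3]
    simp only [e2]
  simp only [h2]
  refine Tendsto.const_mul _ ?_
  have hlim2 : Tendsto (fun k => (L : ℝ) * ∫ z, |up k (P^[k] (ic 0 0 0)) z - f z| ∂mu3) atTop (𝓝 0) := by
    have h3 := conv_up hf hlim (ic_per 0 0)
    rw [S_ic] at h3
    simp only [zero_add, pow_zero, div_one, one_mul] at h3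
    have := h3.const_mul (L : ℝ)
    rwa [mul_zero] at this
  rw [tendsto_iff_dist_tendsto_zero]
  refine squeeze_zero (fun _ => dist_nonneg) (fun k => ?_) hlim2
  have hc1 : Integrable (fun z => φ (up k (P^[k] (ic 0 0 0)) z)) mu3 :=
    up_int k (fun x => φ (P^[k] (ic 0 0 0) x))
  have hc2 : Integrable (fun z => φ (f z)) mu3 := by
    have h5 : Integrable (fun z => |φ 0| + (L : ℝ) * |f z|) mu3 :=
      (integrable_const _).add (hf.abs.const_mul _)
    refine h5.mono' (hφ.continuous.comp_aestronglyMeasurable hf.1) (Eventually.of_forall fun z => ?_)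
    rw [Real.norm_eq_abs]
    have h6 := hφ.dist_le_mul (f z) 0
    rw [Real.dist_eq, Real.dist_eq, sub_zero] at h6
    have h7 := abs_sub_abs_le_abs_sub (φ (f z)) (φ 0)
    linarith
  rw [Real.dist_eq, ← integral_sub hc1.integrableOn hc2.integrableOn]
  refine (abs_integral_le_integral_abs).trans ?_
  rw [← integral_const_mul]
  have h8 : ∫ z in U, |φ (up k (P^[k] (ic 0 0 0)) z) - φ (f z)| ∂mu3 ≤
      ∫ z, |φ (up k (P^[k] (ic 0 0 0)) z) - φ (f z)| ∂mu3 :=
    setIntegral_le_integral (hc1.sub hc2).abs (Eventually.of_forall fun z => abs_nonneg _)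
  refine h8.trans ?_
  refine integral_mono (hc1.sub hc2).abs (((up_int _ _).sub hf).abs.const_mul _) fun z => ?_
  have h9 := hφ.dist_le_mul (up k (P^[k] (ic 0 0 0)) z) (f z)
  rwa [Real.dist_eq, Real.dist_eq] at h9

end Law

end Pool.Agent.H623.TS
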