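import Pool.Agent.H623.TS.J
import Pool.Agent.H623.TS.F

/-!
# The iterates graded by the number of odd steps
-/

set_option autoImplicit false

namespace Pool.Agent.H623.TS

open Finset Pool.Agent.H320R2.PD Pool.Agent.H377R2.NK

/-- the part of `P^[k] g` of the paths with `i` odd steps -/
noncomputable def Mi (g : ℤ → ℝ) : ℕ → ℕ → ℤ → ℝ
  | 0, 0 => g
  | 0, (_ + 1) => fun _ => 0
  | (k + 1), 0 => fun x => 3 / 4 * Mi g k 0 (2 * x)
  | (k + 1), (i + 1) => fun x => 3 / 4 * (Mi g k (i + 1) (2 * x) +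
      if (3 : ℤ) ∣ 2 * x - 1 then Mi g k i ((2 * x - 1) / 3) else 0)

theorem Mi_zero_zero (g : ℤ → ℝ) (x : ℤ) : Mi g 0 0 x = g x := rfl

theorem Mi_zero_succ (g : ℤ → ℝ) (i : ℕ) (x : ℤ) : Mi g 0 (i + 1) x = 0 := rfl

theorem Mi_succ_zero (g : ℤ → ℝ) (k : ℕ) (x : ℤ) : Mi g (k + 1) 0 x = 3 / 4 * Mi g k 0 (2 * x) := rfl

theorem Mi_succ_succ (g : ℤ → ℝ) (k i : ℕ) (x : ℤ) : Mi g (k + 1) (i + 1) x =
    3 / 4 * (Mi g k (i + 1) (2 * x) + if (3 : ℤ) ∣ 2 * x - 1 then Mi g k i ((2 * x - 1) / 3) else 0) := rfl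

theorem Mi_big {g : ℤ → ℝ} {k i : ℕ} (h : k < i) (x : ℤ) : Mi g k i x = 0 := by
  induction k generalizing i x with
  | zero =>
    obtain ⟨l, rfl⟩ := Nat.exists_eq_add_of_le' h
    exact Mi_zero_succ g l x
  | succ k ih =>
    obtain ⟨l, rfl⟩ := Nat.exists_eq_add_of_le' (show 1 ≤ i by omega)
    rw [Mi_succ_succ, ih (by omega), ih (by omega)]
    simp

/-- the words: last letter -/
theorem Wn_rec {A k : ℕ} (hA : k + 1 ≤ A) (n : ℕ) (g : ℤ → ℝ) (x : ℤ) :
    Wn A (n + 1) (k + 1) g x = 3 / 4 * (Wn A (n + 1) k g (2 * x) +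
      if (3 : ℤ) ∣ 2 * x - 1 then Wn A n k g ((2 * x - 1) / 3) else 0) := by
  set F : ℕ → ℝ := fun e => if e ≤ k + 1 ∧ (3 : ℤ) ∣ 2 ^ e * x - 1 then
      (3 / 4 : ℝ) ^ e * Wn A n (k + 1 - e) g ((2 ^ e * x - 1) / 3) else 0 with hF
  have h1 : Wn A (n + 1) (k + 1) g x = ∑ e ∈ Icc 1 A, F e := Wn_succ A n (k + 1) g x
  have h2 := shift_sum F A
  have h3 : F (A + 1) = 0 := by
    rw [hF]
    dsimp only
    rw [if_neg]
    rintro ⟨h, -⟩
    omega
  have h4 : F 1 = 3 / 4 * (if (3 : ℤ) ∣ 2 * x - 1 then Wn A n k g ((2 * x - 1) / 3) else 0) := by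
    rw [hF]
    dsimp only
    rw [pow_one, pow_one]
    have : 1 ≤ k + 1 := by omega
    simp only [this, true_and, Nat.add_sub_cancel]
    split_ifs <;> ring
  have h5 : ∑ e ∈ Icc 1 A, F (e + 1) = 3 / 4 * Wn A (n + 1) k g (2 * x) := by
    rw [Wn_succ, mul_sum]
    refine sum_congr rfl fun e _ => ?_
    rw [hF]
    dsimp only
    have e1 : (2 : ℤ) ^ (e + 1) * x = 2 ^ e * (2 * x) := by ring
    have e2 : k + 1 - (e + 1) = k - e := by omega
    have e3 : e + 1 ≤ k + 1 ↔ e ≤ k := by omega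
    rw [e1, e2]
    simp only [e3]
    split_ifs
    · ring
    · ring
  rw [h1]
  linarith

theorem Mi_eq {A k : ℕ} (hA : k ≤ A) (i : ℕ) (g : ℤ → ℝ) (x : ℤ) : Mi g k i x = Wn A i k g x := by
  induction k generalizing i x with
  | zero =>
    cases i with
    | zero => rw [Mi_zero_zero, Wn_zero]; simp
    | succ i => rw [Mi_zero_succ, Wn_big (by omega)]
  | succ k ih =>
    cases i with
    | zero =>
      rw [Mi_succ_zero, ih (by omega), Wn_zero, Wn_zero, pow_succ (3 / 4 : ℝ), pow_succ (2 : ℤ)]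
      have e : (2 : ℤ) ^ k * (2 * x) = 2 ^ k * 2 * x := by ring
      rw [e]
      ring
    | succ i =>
      rw [Mi_succ_succ, Wn_rec hA, ih (by omega)]
      split_ifs
      · rw [ih (by omega)]
      · rfl

/-- the sum over the grades -/
theorem sum_Mi (g : ℤ → ℝ) (k : ℕ) (x : ℤ) : ∑ i ∈ range (k + 1), Mi g k i x = P^[k] g x := by
  rw [iter_words (le_refl k)]
  exact sum_congr rfl fun i _ => Mi_eq (le_refl k) i g x

theorem Mi_per {m : ℕ} {g : ℤ → ℝ} (hg : Per m g) (k i : ℕ) : Per (m + k) (Mi g k i) := by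
  induction k generalizing i with
  | zero =>
    cases i with
    | zero => exact hg
    | succ i => intro x y; rfl
  | succ k ih =>
    cases i with
    | zero =>
      intro x y
      rw [Mi_succ_zero, Mi_succ_zero]
      have h1 := ((ih 0).le (show m + k ≤ m + (k + 1) by omega)).smul 2 x y
      dsimp only at h1
      rw [h1]
    | succ i =>
      intro x y
      rw [Mi_succ_succ, Mi_succ_succ]
      have h1 := ((ih (i + 1)).le (show m + k ≤ m + (k + 1) by omega)).smul 2 x y
      dsimp only at h1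
      rw [h1]
      have e : 2 * (x + 3 ^ (m + (k + 1)) * y) - 1 = 2 * x - 1 + 3 * (3 ^ (m + k) * (2 * y)) := by ring
      rw [e]
      by_cases h3 : (3 : ℤ) ∣ 2 * x - 1
      · rw [if_pos h3, if_pos (dvd_add h3 (Dvd.intro _ rfl)), Int.add_mul_ediv_left _ _ (by norm_num),
          ih i]
      · rw [if_neg h3, if_neg]
        intro h4
        exact h3 ((dvd_add_left (Dvd.intro _ rfl)).1 h4)

theorem Mi_add (f g : ℤ → ℝ) (k i : ℕ) (x : ℤ) :
    Mi (fun x => f x + g x) k i x = Mi f k i x + Mi g k i x := by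
  induction k generalizing i x with
  | zero =>
    cases i with
    | zero => rfl
    | succ i => simp [Mi_zero_succ]
  | succ k ih =>
    cases i with
    | zero => rw [Mi_succ_zero, Mi_succ_zero, Mi_succ_zero, ih]; ring
    | succ i =>
      rw [Mi_succ_succ, Mi_succ_succ, Mi_succ_succ, ih]
      split_ifs
      · rw [ih]; ring
      · ring

theorem Mi_smul (c : ℝ) (g : ℤ → ℝ) (k i : ℕ) (x : ℤ) :
    Mi (fun x => c * g x) k i x = c * Mi g k i x := by
  induction k generalizing i x with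
  | zero =>
    cases i with
    | zero => rfl
    | succ i => simp [Mi_zero_succ]
  | succ k ih =>
    cases i with
    | zero => rw [Mi_succ_zero, Mi_succ_zero, ih]; ring
    | succ i =>
      rw [Mi_succ_succ, Mi_succ_succ, ih]
      split_ifs
      · rw [ih]; ring
      · ring

theorem Mi_sub (f g : ℤ → ℝ) (k i : ℕ) (x : ℤ) :
    Mi (fun x => f x - g x) k i x = Mi f k i x - Mi g k i x := by
  have h1 : (fun x => f x - g x) = fun x => f x + (-1) * g x := by
    funext x; ring
  rw [h1, Mi_add f (fun x => -1 * g x), Mi_smul (-1) g]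
  ring

theorem N_step_scale {n : ℕ} {h : ℤ → ℝ} (hh : Per n h) : N (n + 1) (fun x => 3 / 4 * h (2 * x)) =
    3 / 4 * N n h := by
  rw [N_smul, abs_of_pos (by norm_num : (0 : ℝ) < 3 / 4)]
  congr 1
  rw [N_per (n := n) (m := n + 1) (hh.smul 2) (by omega)]
  unfold N
  congr 1
  have := S_aff hh.abs 1 0
  simp only [pow_one, zero_add] at this
  exact this

theorem N_Mi_zero {m : ℕ} {g : ℤ → ℝ} (hg : Per m g) (k : ℕ) :
    N (m + (k + 1)) (Mi g (k + 1) 0) = 3 / 4 * N (m + k) (Mi g k 0) :=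
  N_step_scale (Mi_per hg k 0)

theorem N_Mi_succ {m : ℕ} {g : ℤ → ℝ} (hg : Per m g) (k i : ℕ) :
    N (m + (k + 1)) (Mi g (k + 1) (i + 1)) ≤
      3 / 4 * N (m + k) (Mi g k (i + 1)) + 1 / 4 * N (m + k) (Mi g k i) := by
  have e : ∀ x, Mi g (k + 1) (i + 1) x = 3 / 4 * Mi g k (i + 1) (2 * x) +
      3 / 4 * (if (3 : ℤ) ∣ 2 * x - 1 then Mi g k i ((2 * x - 1) / 3) else 0) := by
    intro x
    rw [Mi_succ_succ]
    ring
  rw [N_congr e]
  refine (N_add _ _).trans ?_
  have h1 : N (m + (k + 1)) (fun x => 3 / 4 * Mi g k (i + 1) (2 * x)) =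
      3 / 4 * N (m + k) (Mi g k (i + 1)) := N_step_scale (Mi_per hg k (i + 1))
  have h2 : N (m + (k + 1)) (fun x => 3 / 4 *
      (if (3 : ℤ) ∣ 2 * x - 1 then Mi g k i ((2 * x - 1) / 3) else 0)) =
      1 / 4 * N (m + k) (Mi g k i) := by
    rw [N_smul, abs_of_pos (by norm_num : (0 : ℝ) < 3 / 4)]
    have h3 : N (m + (k + 1)) (fun x => if (3 : ℤ) ∣ 2 * x - 1 then Mi g k i ((2 * x - 1) / 3) else 0) =
        N (m + k) (Mi g k i) / 3 := by
      unfold N
      have h4 := S_B (Mi_per hg k i).abs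
      have h5 : (fun x : ℤ => |if (3 : ℤ) ∣ 2 * x - 1 then Mi g k i ((2 * x - 1) / 3) else 0|) =
          fun x : ℤ => if (3 : ℤ) ∣ 2 * x - 1 then |Mi g k i ((2 * x - 1) / 3)| else 0 := by
        funext x
        split_ifs
        · rfl
        · exact abs_zero
      have e6 : m + (k + 1) = m + k + 1 := by ring
      rw [h5, e6, h4, pow_succ]
      field_simp
    rw [h3]
    ring
  rw [h1, h2]

/-- the contraction -/
theorem N_Mi {m : ℕ} {g : ℤ → ℝ} (hg : Per m g) (k i : ℕ) : N (m + k) (Mi g k i) ≤ bet k i * N m g := by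
  induction k generalizing i with
  | zero =>
    cases i with
    | zero => rw [bet_zero_zero, one_mul]; exact le_rfl
    | succ i =>
      rw [bet_zero_succ, zero_mul]
      unfold N S
      simp [Mi_zero_succ]
  | succ k ih =>
    cases i with
    | zero =>
      rw [N_Mi_zero hg, bet_succ_zero]
      have := ih 0
      linarith
    | succ i =>
      refine (N_Mi_succ hg k i).trans ?_
      rw [bet_succ_succ]
      have h6 := ih (i + 1)
      have h7 := ih i
      linarith

/-- the sum of the norms of the graded parts -/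
noncomputable def GN (m k : ℕ) (g : ℤ → ℝ) : ℝ := ∑ i ∈ range (k + 1), N (m + k) (Mi g k i)

theorem GN_succ {m : ℕ} {g : ℤ → ℝ} (hg : Per m g) (k : ℕ) : GN m (k + 1) g ≤ GN m k g := by
  unfold GN
  rw [sum_range_succ', N_Mi_zero hg]
  have h1 : ∑ i ∈ range (k + 1), N (m + (k + 1)) (Mi g (k + 1) (i + 1)) ≤
      3 / 4 * ∑ i ∈ range (k + 1), N (m + k) (Mi g k (i + 1)) +
      1 / 4 * ∑ i ∈ range (k + 1), N (m + k) (Mi g k i) := by
    rw [mul_sum, mul_sum, ← sum_add_distrib]
    exact sum_le_sum fun i _ => N_Mi_succ hg k i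
  have h2 : ∑ i ∈ range (k + 1), N (m + k) (Mi g k (i + 1)) + N (m + k) (Mi g k 0) =
      ∑ i ∈ range (k + 1), N (m + k) (Mi g k i) := by
    rw [← sum_range_succ' (fun i => N (m + k) (Mi g k i)), sum_range_succ]
    have h3 : N (m + k) (Mi g k (k + 1)) = 0 := by
      unfold N S
      have : ∀ x : ℤ, Mi g k (k + 1) x = 0 := fun x => Mi_big (by omega) x
      simp [this]
    rw [h3, add_zero]
  linarith

theorem GN_anti {m : ℕ} {g : ℤ → ℝ} (hg : Per m g) {j k : ℕ} (h : j ≤ k) : GN m k g ≤ GN m j g := by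
  induction k with
  | zero =>
    have : j = 0 := by omega
    subst this
    exact le_rfl
  | succ k ih =>
    rcases Nat.lt_or_ge j (k + 1) with h1 | h1
    · exact (GN_succ hg k).trans (ih (by omega))
    · have : j = k + 1 := by omega
      subst this
      exact le_rfl

/-! ### the trees -/

theorem odds_succ_last (k n : ℕ) : odds (k + 1) n = odds k n + T^[k] n % 2 := by
  induction k generalizing n with
  | zero => simp [odds]
  | succ k ih =>
    rw [odds, ih (T n), ← Function.iterate_succ_apply T k n]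
    conv_rhs => rw [odds]
    ring

/-- the graded iterates count the nodes according to the number of odd terms -/
theorem Mi_nodes (g : ℤ → ℝ) (k : ℕ) : ∀ (i a : ℕ), 1 ≤ a → Mi g k i a =
    (3 / 4) ^ k * ∑ n ∈ Fr k a, if odds k n = i then g n else 0 := by
  induction k with
  | zero =>
    intro i a _
    have : Fr 0 a = {a} := by ext n; rw [mem_Fr]; simp
    rw [this]
    cases i with
    | zero => simp [Mi_zero_zero, odds]
    | succ i => simp [Mi_zero_succ, odds]
  | succ k ih =>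
    intro i a ha
    rw [sum_Fr_succ ha (fun n => if odds (k + 1) n = i then g n else 0)]
    have h1 : ∀ n ∈ Fr k (2 * a), (if odds (k + 1) n = i then g (n : ℤ) else 0) =
        if odds k n = i then g n else 0 := by
      intro n hn
      rw [mem_Fr] at hn
      rw [odds_succ_last, hn, Nat.mul_mod_right, add_zero]
    rw [sum_congr rfl h1]
    have h2 : ((2 * a : ℕ) : ℤ) = 2 * (a : ℤ) := by push_cast; rfl
    have h3 : ((2 * a - 1 : ℕ) : ℤ) = 2 * (a : ℤ) - 1 := by
      rw [Nat.cast_sub (by omega)]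
      push_cast
      rfl
    have h4 : (3 : ℤ) ∣ 2 * (a : ℤ) - 1 ↔ 3 ∣ 2 * a - 1 := by
      rw [← h3]
      exact_mod_cast Int.natCast_dvd_natCast (m := 3) (n := 2 * a - 1)
    have h5 : (((2 * a - 1) / 3 : ℕ) : ℤ) = (2 * (a : ℤ) - 1) / 3 := by
      rw [Int.natCast_div, h3]
      norm_num
    have hb : 3 ∣ 2 * a - 1 → 1 ≤ (2 * a - 1) / 3 ∧ (2 * a - 1) / 3 % 2 = 1 := by
      rintro ⟨c, hc⟩
      rw [hc, Nat.mul_div_cancel_left _ (by norm_num)]
      omega
    cases i with
    | zero =>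
      rw [Mi_succ_zero, ← h2, ih 0 (2 * a) (by omega)]
      have h6 : (if 3 ∣ 2 * a - 1 then ∑ n ∈ Fr k ((2 * a - 1) / 3),
          (if odds (k + 1) n = 0 then g (n : ℤ) else 0) else 0) = 0 := by
        split_ifs with h
        · apply sum_eq_zero
          intro n hn
          rw [mem_Fr] at hn
          rw [if_neg]
          rw [odds_succ_last, hn, (hb h).2]
          omega
        · rfl
      rw [h6]
      ring
    | succ i =>
      have h7 := ih (i + 1) (2 * a) (by omega)
      rw [h2] at h7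
      rw [Mi_succ_succ, h7, ← h5]
      simp only [h4]
      split_ifs with h
      · rw [ih i _ (hb h).1]
        have h6 : ∀ n ∈ Fr k ((2 * a - 1) / 3), (if odds (k + 1) n = i + 1 then g (n : ℤ) else 0) =
            if odds k n = i then g n else 0 := by
          intro n hn
          rw [mem_Fr] at hn
          rw [odds_succ_last, hn, (hb h).2]
          simp only [Nat.add_right_cancel_iff]
        rw [sum_congr rfl h6]
        ring
      · ring

/-- the even step -/
noncomputable def sA (g : ℤ → ℝ) (x : ℤ) : ℝ := 3 / 4 * g (2 * x)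

/-- the odd step -/
noncomputable def sB (g : ℤ → ℝ) (x : ℤ) : ℝ :=
  3 / 4 * (if (3 : ℤ) ∣ 2 * x - 1 then g ((2 * x - 1) / 3) else 0)

/-- the innermost step -/
theorem Mi_inner_zero (g : ℤ → ℝ) (k : ℕ) : ∀ x : ℤ, Mi g (k + 1) 0 x = Mi (sA g) k 0 x := by
  induction k with
  | zero => intro x; rfl
  | succ k ih =>
    intro x
    rw [Mi_succ_zero, ih, Mi_succ_zero]

theorem Mi_inner_succ (g : ℤ → ℝ) (k : ℕ) : ∀ (i : ℕ) (x : ℤ), Mi g (k + 1) (i + 1) x =
    Mi (sA g) k (i + 1) x + Mi (sB g) k i x := by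
  induction k with
  | zero =>
    intro i x
    rw [Mi_succ_succ]
    cases i with
    | zero => rw [Mi_zero_succ, Mi_zero_succ, Mi_zero_zero, Mi_zero_zero, sB]; ring
    | succ i => rw [Mi_zero_succ, Mi_zero_succ, Mi_zero_succ, Mi_zero_succ]; simp
  | succ k ih =>
    intro i x
    rw [Mi_succ_succ, ih, Mi_succ_succ (sA g)]
    cases i with
    | zero =>
      rw [Mi_succ_zero (sB g), Mi_inner_zero]
      ring
    | succ i =>
      rw [Mi_succ_succ (sB g), ih i]
      split_ifs
      · ring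
      · ring

theorem dvd_two_mul_pow (j m : ℕ) {y : ℤ} (h : (2 : ℤ) ^ (j + 1) * 3 ^ m ∣ y) : (2 : ℤ) ∣ y :=
  dvd_trans (by rw [pow_succ, mul_assoc, mul_comm ((2 : ℤ) ^ j), mul_assoc]; exact Dvd.intro _ rfl) h

theorem even_ic (j m r : ℕ) (x : ℤ) : sA (ic (j + 1) m r) x =
    if r % 2 = 0 then 3 / 4 * ic j m (T r) x else 0 := by
  unfold sA ic T
  rcases Nat.mod_two_eq_zero_or_one r with h | h
  · obtain ⟨s, hs⟩ : ∃ s, r = 2 * s := ⟨r / 2, by omega⟩
    subst hs
    rw [if_pos h, if_pos h]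
    have h1 : 2 * s / 2 = s := by omega
    rw [h1]
    have h2 : (2 : ℤ) ^ (j + 1) * 3 ^ m ∣ 2 * x - ((2 * s : ℕ) : ℤ) ↔ (2 : ℤ) ^ j * 3 ^ m ∣ x - s := by
      have e1 : (2 : ℤ) ^ (j + 1) * 3 ^ m = 2 * (2 ^ j * 3 ^ m) := by ring
      have e2 : 2 * x - ((2 * s : ℕ) : ℤ) = 2 * (x - s) := by push_cast; ring
      rw [e1, e2]
      exact mul_dvd_mul_iff_left (by norm_num)
    simp only [h2]
  · have h7 : ¬ (2 : ℤ) ^ (j + 1) * 3 ^ m ∣ 2 * x - (r : ℤ) := by
      intro h5
      have h6 := dvd_two_mul_pow j m h5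
      omega
    rw [if_neg h7, if_neg (show ¬ r % 2 = 0 by omega), mul_zero]

theorem odd_ic (j m r : ℕ) (x : ℤ) : sB (ic (j + 1) m r) x =
    if r % 2 = 0 then 0 else 3 / 4 * ic j (m + 1) (T r) x := by
  have h1 := P_ic j m r x
  have h2 := even_ic j m r x
  unfold sA at h2
  unfold sB
  unfold TS.P at h1
  rw [mul_add, h2] at h1
  rcases Nat.mod_two_eq_zero_or_one r with h | h
  · rw [h] at h1 ⊢
    rw [if_pos rfl] at h1 ⊢
    rw [add_zero] at h1
    linarith
  · rw [h] at h1 ⊢
    rw [if_neg one_ne_zero, zero_add] at h1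
    rw [if_neg one_ne_zero]
    exact h1

/-- `j` steps of a class modulo `2 ^ j * 3 ^ m` -/
theorem Mi_ic (j l : ℕ) : ∀ (m r i : ℕ) (x : ℤ), Mi (ic j m r) (l + j) i x =
    if odds j r ≤ i then (3 / 4) ^ j * Mi (ic 0 (m + odds j r) (T^[j] r)) l (i - odds j r) x else 0 := by
  induction j with
  | zero => intro m r i x; simp [odds]
  | succ j ih =>
    intro m r i x
    have e1 : sA (ic (j + 1) m r) =
        fun x => if r % 2 = 0 then 3 / 4 * ic j m (T r) x else 0 := funext (even_ic j m r)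
    have e2 : sB (ic (j + 1) m r) =
        fun x => if r % 2 = 0 then 0 else 3 / 4 * ic j (m + 1) (T r) x := funext (odd_ic j m r)
    have h0 : ∀ k i x, Mi (fun _ => (0 : ℝ)) k i x = 0 := by
      intro k i x
      have := Mi_smul 0 (fun _ => 0) k i x
      simpa using this
    rw [← add_assoc, odds, Function.iterate_succ_apply]
    rcases Nat.mod_two_eq_zero_or_one r with h | h
    · rw [h] at e1 e2 ⊢
      simp only [if_true] at e1 e2
      rw [zero_add]
      have e3 : Mi (ic (j + 1) m r) (l + j + 1) i x = Mi (fun x => 3 / 4 * ic j m (T r) x) (l + j) i x := by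
        cases i with
        | zero => rw [Mi_inner_zero, e1]
        | succ i => rw [Mi_inner_succ, e1, e2, h0, add_zero]
      rw [e3, Mi_smul, ih]
      split_ifs
      · rw [pow_succ]; ring
      · ring
    · rw [h] at e1 e2 ⊢
      simp only [one_ne_zero, if_false] at e1 e2
      cases i with
      | zero =>
        rw [Mi_inner_zero, e1, h0, if_neg (by omega)]
      | succ i =>
        rw [Mi_inner_succ, e1, e2, h0, zero_add, Mi_smul, ih]
        have e3 : 1 + odds j (T r) ≤ i + 1 ↔ odds j (T r) ≤ i := by omega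
        have e4 : i + 1 - (1 + odds j (T r)) = i - odds j (T r) := by omega
        rw [e4, ← add_assoc]
        simp only [e3]
        split_ifs
        · rw [pow_succ]; ring
        · ring

end Pool.Agent.H623.TS
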