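import Pool.Agent.H623.TS.K

/-!
# Graded mixing of the transfer operator in mean
-/

set_option autoImplicit false

namespace Pool.Agent.H623.TS

open Finset Pool.Agent.H320R2.PD Pool.Agent.H377R2.NK

theorem GN_le {A k m : ℕ} (hA : k ≤ A) {g : ℤ → ℝ} (hg : Per m g) (h0 : S m g = 0)
    {B : ℝ} (hB : ∀ x, |g x| ≤ B) :
    GN m k g ≤ ∑ n ∈ range (k + 1), ∑ s ∈ range (k + 1), B * (3 / 4) ^ (k - s) * Er A m n s := by
  unfold GN
  refine sum_le_sum fun n hn => ?_
  have h1 : ∀ x, Mi g k n x = ∑ s ∈ range (k + 1), Ws A n s k g x := by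
    intro x
    rw [Mi_eq hA, Wn_eq_Ws]
  rw [N_congr h1]
  refine (N_sum_le _ _ _).trans (sum_le_sum fun s hs => ?_)
  rw [mem_range] at hn hs
  rw [N_per (Ws_per hg) (show n + m ≤ m + k by omega)]
  exact N_Ws A (by omega) hg h0 hB

/-- **graded mixing in mean** -/
theorem gmixing {m : ℕ} {g : ℤ → ℝ} (hg : Per m g) (h0 : S m g = 0) {ε : ℝ} (hε : 0 < ε) :
    ∃ K : ℕ, ∀ k, K ≤ k → GN m k g ≤ ε := by
  classical
  -- a bound for `g`
  obtain ⟨B, hB⟩ : ∃ B : ℝ, ∀ x, |g x| ≤ B := by
    refine ⟨∑ x ∈ range (3 ^ m), |g (x : ℤ)|, fun x => ?_⟩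
    have h3 : (0 : ℤ) < 3 ^ m := by positivity
    have h4 : g x = g ((x % 3 ^ m : ℤ)) := by
      have := hg (x % 3 ^ m) (x / 3 ^ m)
      rw [← this]
      congr 1
      exact (Int.emod_add_mul_ediv x (3 ^ m)).symm
    have h5 : ((x % 3 ^ m).toNat : ℤ) = x % 3 ^ m := Int.toNat_of_nonneg (Int.emod_nonneg _ h3.ne')
    rw [h4, ← h5]
    apply single_le_sum (f := fun x : ℕ => |g (x : ℤ)|) (fun _ _ => abs_nonneg _)
    rw [mem_range]
    have h6 := Int.emod_lt_of_pos x h3
    zify
    rw [h5]
    exact_mod_cast h6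
  have hB0 : 0 ≤ B := (abs_nonneg _).trans (hB 0)
  -- choice of the parameters
  set δ : ℝ := ε / (16 * (B + 1) * (m + 1)) with hδ
  have hδ0 : 0 < δ := by positivity
  have h1 : ∀ i : ℕ, ∃ n₀ : ℕ, ∀ n, n₀ ≤ n → ∀ A, 3 * n ≤ A → Real.sqrt (2 * gz A n (n + i)) ≤ δ := by
    intro i
    obtain ⟨n₀, hn₀⟩ := gz_small i (ε := δ ^ 2 / 2) (by positivity)
    refine ⟨n₀, fun n hn A hA => ?_⟩
    rw [Real.sqrt_le_left hδ0.le]
    have := hn₀ n hn A hA
    linarith
  choose n₀ hn₀ using h1
  set n₁ : ℕ := ∑ i ∈ range m, n₀ i with hn₁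
  have hn₁' : ∀ i ∈ range m, n₀ i ≤ n₁ := fun i hi => single_le_sum (fun _ _ => Nat.zero_le _) hi
  obtain ⟨K, hK⟩ := exists_nat_ge (16 * (B + 1) * (m + 1) * n₁ / ε)
  refine ⟨K, fun k hk => ?_⟩
  set A : ℕ := 3 * k with hA
  have hanti : ∀ j, j ≤ k → GN m k g ≤ GN m j g := fun j hj => GN_anti hg hj
  -- the Cesaro mean
  have h2 : ((k : ℝ) + 1) * GN m k g ≤ ∑ j ∈ range (k + 1), GN m j g := by
    calc ((k : ℝ) + 1) * GN m k g = ∑ _j ∈ range (k + 1), GN m k g := by
          rw [sum_const, card_range, nsmul_eq_mul]; push_cast; ring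
      _ ≤ _ := sum_le_sum fun j hj => hanti j (by rw [mem_range] at hj; omega)
  have h3 : ∑ j ∈ range (k + 1), GN m j g ≤
      4 * B * ∑ n ∈ range (k + 1), ∑ s ∈ range (k + 1), Er A m n s := by
    have h4 : ∀ j ∈ range (k + 1), GN m j g ≤ ∑ n ∈ range (k + 1),
        ∑ s ∈ range (k + 1), if s ≤ j then B * (3 / 4) ^ (j - s) * Er A m n s else 0 := by
      intro j hj
      rw [mem_range] at hj
      refine (GN_le (A := A) (by omega) hg h0 hB).trans ?_
      refine (sum_le_sum_of_subset_of_nonneg (t := range (k + 1)) ?_ ?_).trans ?_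
      · intro n hn
        rw [mem_range] at hn ⊢
        omega
      · intro n _ _
        refine sum_nonneg fun s _ => ?_
        have := Er_nonneg A m n s
        positivity
      · refine sum_le_sum fun n _ => ?_
        rw [← sum_filter]
        apply le_of_eq
        apply sum_congr
        · ext s
          rw [mem_filter, mem_range, mem_range]
          omega
        · intro _ _
          rfl
    refine (sum_le_sum h4).trans ?_
    rw [sum_comm, mul_sum]
    refine sum_le_sum fun n _ => ?_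
    rw [sum_comm, mul_sum]
    refine sum_le_sum fun s _ => ?_
    have h5 : ∑ j ∈ range (k + 1), (if s ≤ j then B * (3 / 4 : ℝ) ^ (j - s) * Er A m n s else 0) =
        B * Er A m n s * ∑ j ∈ range (k + 1), if s ≤ j then (3 / 4 : ℝ) ^ (j - s) else 0 := by
      rw [mul_sum]
      refine sum_congr rfl fun j _ => ?_
      split_ifs <;> ring
    rw [h5]
    have h6 : ∑ j ∈ range (k + 1), (if s ≤ j then (3 / 4 : ℝ) ^ (j - s) else 0) ≤ 4 := by
      rw [← sum_filter]
      have h7 : ∑ j ∈ (range (k + 1)).filter (fun j => s ≤ j), (3 / 4 : ℝ) ^ (j - s) ≤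
          ∑ i ∈ range (k + 1), (3 / 4 : ℝ) ^ i := by
        rw [← sum_image (f := fun i => (3 / 4 : ℝ) ^ i) (g := fun j => j - s)
          (s := (range (k + 1)).filter (fun j => s ≤ j))]
        · apply sum_le_sum_of_subset_of_nonneg
          · intro i hi
            rw [mem_image] at hi
            obtain ⟨j, hj, rfl⟩ := hi
            rw [mem_filter, mem_range] at hj
            rw [mem_range]
            omega
          · intro _ _ _
            positivity
        · intro a ha b hb hab
          simp only [coe_filter, mem_range, Set.mem_ofPred_eq] at ha hb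
          dsimp only at hab
          omega
      refine h7.trans ?_
      rw [geom_sum_eq (by norm_num)]
      have : (0 : ℝ) < (3 / 4) ^ (k + 1) := by positivity
      rw [div_le_iff_of_neg (by norm_num)]
      linarith
    have h8 := Er_nonneg A m n s
    calc B * Er A m n s * _ ≤ B * Er A m n s * 4 := mul_le_mul_of_nonneg_left h6 (by positivity)
      _ = _ := by ring
  have h4 : ∑ n ∈ range (k + 1), ∑ s ∈ range (k + 1), Er A m n s ≤
      2 * m * n₁ + (k + 1) * (m * δ) := by
    have h5 : ∀ n ∈ range (k + 1), ∑ s ∈ range (k + 1), Er A m n s ≤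
        (if n < n₁ then 2 * (m : ℝ) else 0) + m * δ := by
      intro n hn
      rw [mem_range] at hn
      refine (sum_Er_le A m n k).trans ?_
      by_cases h6 : n < n₁
      · rw [if_pos h6]
        have h7 : ∑ i ∈ range m, Real.sqrt (2 * gz A n (n + i)) ≤ ∑ _i ∈ range m, (2 : ℝ) := by
          refine sum_le_sum fun i _ => ?_
          rw [Real.sqrt_le_left (by norm_num)]
          have := gz_le_one A n (n + i)
          linarith
        rw [sum_const, card_range, nsmul_eq_mul] at h7
        have : 0 ≤ (m : ℝ) * δ := by positivity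
        linarith
      · rw [if_neg h6, zero_add]
        have h7 : ∑ i ∈ range m, Real.sqrt (2 * gz A n (n + i)) ≤ ∑ _i ∈ range m, δ := by
          refine sum_le_sum fun i hi => hn₀ i n ?_ A (by omega)
          have := hn₁' i hi
          omega
        rw [sum_const, card_range, nsmul_eq_mul] at h7
        exact h7
    refine (sum_le_sum h5).trans ?_
    rw [sum_add_distrib, sum_const, card_range, nsmul_eq_mul, ← sum_filter, sum_const,
      nsmul_eq_mul]
    have h6 : (((range (k + 1)).filter (fun n => n < n₁)).card : ℝ) ≤ n₁ := by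
      have : ((range (k + 1)).filter (fun n => n < n₁)).card ≤ (range n₁).card := by
        apply card_le_card
        intro n hn
        rw [mem_filter] at hn
        rw [mem_range]
        exact hn.2
      rw [card_range] at this
      exact_mod_cast this
    push_cast
    nlinarith [Nat.cast_nonneg (α := ℝ) m]
  have h5 : ((k : ℝ) + 1) * GN m k g ≤
      4 * B * (2 * m * n₁ + (k + 1) * (m * δ)) :=
    h2.trans (h3.trans (mul_le_mul_of_nonneg_left h4 (by positivity)))
  -- conclusion
  have hk0 : (0 : ℝ) ≤ k := Nat.cast_nonneg _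
  have hkK : (K : ℝ) ≤ k := by exact_mod_cast hk
  have h6 : 16 * (B + 1) * (m + 1) * n₁ ≤ ε * k := by
    have := hK.trans hkK
    rw [div_le_iff₀ hε] at this
    linarith
  have h7 : 4 * B * (m * δ) ≤ ε / 4 := by
    rw [hδ]
    rw [show 4 * B * (m * (ε / (16 * (B + 1) * (m + 1)))) =
      (4 * B * m * ε) / (16 * (B + 1) * (m + 1)) by ring, div_le_iff₀ (by positivity)]
    have hm0 : (0 : ℝ) ≤ m := Nat.cast_nonneg _
    have e1 : 0 ≤ B * m * ε := by positivity
    have e2 : 0 ≤ B * ε := by positivity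
    have e3 : 0 ≤ m * ε := by positivity
    nlinarith
  have h8 : 4 * B * (2 * m * n₁) ≤ ε * k / 2 := by
    have hm0 : (0 : ℝ) ≤ m := Nat.cast_nonneg _
    have hn0 : (0 : ℝ) ≤ n₁ := Nat.cast_nonneg _
    have e1 : 0 ≤ B * n₁ := by positivity
    have e2 : 0 ≤ m * (n₁ : ℝ) := by positivity
    nlinarith
  have h9 : ((k : ℝ) + 1) * GN m k g ≤ (k + 1) * ε := by
    calc ((k : ℝ) + 1) * GN m k g ≤
        4 * B * (2 * m * n₁) + (k + 1) * (4 * B * (m * δ)) := by linarith
      _ ≤ ε * k / 2 + (k + 1) * (ε / 4) :=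
        add_le_add h8 (mul_le_mul_of_nonneg_left h7 (by positivity))
      _ ≤ _ := by nlinarith
  exact le_of_mul_le_mul_left h9 (by positivity)

end Pool.Agent.H623.TS
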