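import Pool.Agent.H623.TS.L

/-!
# Words of given length and size, without a cap on the letters
-/

set_option autoImplicit false

namespace Pool.Agent.H623.TS

open Finset Pool.Agent.H320R2.PD Pool.Agent.H377R2.NK

/-- words of `m` letters and size `s` -/
def FT (m s : ℕ) : Finset (List ℕ) := FWT s m s

theorem FWT_eq {A m s : ℕ} (h : s ≤ A) : FWT A m s = FT m s := by
  ext w
  unfold FT FWT
  rw [mem_filter, mem_filter, mem_FW, mem_FW]
  constructor
  · rintro ⟨⟨h1, h2⟩, h3⟩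
    refine ⟨⟨h1, fun e he => ⟨(h2 e he).1, ?_⟩⟩, h3⟩
    rw [← h3]
    exact List.le_sum_of_mem he
  · rintro ⟨⟨h1, h2⟩, h3⟩
    exact ⟨⟨h1, fun e he => ⟨(h2 e he).1, (h2 e he).2.trans h⟩⟩, h3⟩

theorem FWT_sub (A m s : ℕ) : FWT A m s ⊆ FT m s := by
  intro w
  unfold FT FWT
  rw [mem_filter, mem_filter, mem_FW, mem_FW]
  rintro ⟨⟨h1, h2⟩, h3⟩
  refine ⟨⟨h1, fun e he => ⟨(h2 e he).1, ?_⟩⟩, h3⟩
  rw [← h3]
  exact List.le_sum_of_mem he

theorem sum_FT_add (k₁ k₂ s : ℕ) (G : List ℕ → ℝ) : ∑ w ∈ FT (k₁ + k₂) s, G w =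
    ∑ t ∈ range (s + 1), ∑ q ∈ FT k₁ t ×ˢ FT k₂ (s - t), G (q.1 ++ q.2) := by
  classical
  have h1 : ∀ t ∈ range (s + 1), ∑ q ∈ FT k₁ t ×ˢ FT k₂ (s - t), G (q.1 ++ q.2) =
      ∑ u ∈ FW s k₁, ∑ v ∈ FW s k₂, if t = u.sum then (if u.sum + v.sum = s then G (u ++ v) else 0) else 0 := by
    intro t ht
    rw [mem_range] at ht
    rw [← FWT_eq (show t ≤ s by omega), ← FWT_eq (show s - t ≤ s by omega), sum_product]
    unfold FWT
    rw [sum_filter]
    refine sum_congr rfl fun u _ => ?_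
    rw [sum_filter]
    by_cases h : u.sum = t
    · rw [if_pos h]
      refine sum_congr rfl fun v _ => ?_
      rw [if_pos h.symm]
      have : v.sum = s - t ↔ u.sum + v.sum = s := by omega
      simp only [this]
    · rw [if_neg h]
      symm
      apply sum_eq_zero
      intro v _
      rw [if_neg (fun h' => h h'.symm)]
  rw [sum_congr rfl h1, sum_comm]
  unfold FT FWT
  rw [sum_filter, sum_FW_add]
  refine sum_congr rfl fun u _ => ?_
  rw [sum_comm]
  refine sum_congr rfl fun v _ => ?_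
  rw [sum_ite_eq', List.sum_append]
  by_cases h : u.sum + v.sum = s
  · rw [if_pos h, if_pos (mem_range.2 (by omega))]
  · rw [if_neg h]
    simp

/-- the mass of the words of `m` letters and size `s` -/
noncomputable def ms (m s : ℕ) : ℝ := ∑ w ∈ FT m s, qw w

theorem ms_nonneg (m s : ℕ) : 0 ≤ ms m s := sum_nonneg fun w _ => qw_nonneg w

theorem ms_zero_zero : ms 0 0 = 1 := by
  unfold ms FT FWT
  rw [sum_filter, sum_FW_zero]
  simp [qw]

theorem ms_zero_succ (s : ℕ) : ms 0 (s + 1) = 0 := by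
  unfold ms FT FWT
  rw [sum_filter, sum_FW_zero]
  simp

theorem ms_succ_zero (m : ℕ) : ms (m + 1) 0 = 0 := by
  unfold ms FT FWT
  rw [sum_filter, sum_FW_succ]
  simp

theorem ms_succ (m s : ℕ) : ms (m + 1) (s + 1) =
    1 / 4 * ∑ t ∈ range (s + 1), (3 / 4) ^ (s - t) * ms m t := by
  have h1 : ms (m + 1) (s + 1) = ∑ e ∈ Icc 1 (s + 1), 1 / 3 * (3 / 4) ^ e * ms m (s + 1 - e) := by
    conv_lhs => unfold ms FT FWT
    rw [sum_filter, sum_FW_succ]
    refine sum_congr rfl fun e he => ?_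
    rw [mem_Icc] at he
    unfold ms
    rw [← FWT_eq (show s + 1 - e ≤ s + 1 by omega)]
    unfold FWT
    rw [sum_filter, mul_sum]
    refine sum_congr rfl fun v _ => ?_
    rw [List.sum_cons, qw_cons]
    have : e + v.sum = s + 1 ↔ v.sum = s + 1 - e := by omega
    simp only [this]
    split_ifs
    · rfl
    · rw [mul_zero]
  rw [h1, mul_sum]
  refine Finset.sum_bij' (fun e _ => s + 1 - e) (fun t _ => s + 1 - t) ?_ ?_ ?_ ?_ ?_
  · intro e he
    rw [mem_Icc] at he
    rw [mem_range]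
    omega
  · intro t ht
    rw [mem_range] at ht
    rw [mem_Icc]
    omega
  · intro e he
    rw [mem_Icc] at he
    omega
  · intro t ht
    rw [mem_range] at ht
    omega
  · intro e he
    rw [mem_Icc] at he
    have e1 : (3 / 4 : ℝ) ^ e = 3 / 4 * (3 / 4) ^ (s - (s + 1 - e)) := by
      rw [← pow_succ']
      congr 1
      omega
    rw [e1]
    ring

/-- the binomial masses -/
theorem ms_bet (k i : ℕ) : ∑ s ∈ range (k + 1), (3 / 4 : ℝ) ^ (k - s) * ms i s = bet k i := by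
  induction k generalizing i with
  | zero =>
    rw [zero_add, sum_range_one]
    cases i with
    | zero => rw [ms_zero_zero, bet_zero_zero]; norm_num
    | succ i => rw [ms_succ_zero, bet_zero_succ, mul_zero]
  | succ k ih =>
    rw [sum_range_succ, Nat.sub_self, pow_zero, one_mul]
    have h1 : ∑ s ∈ range (k + 1), (3 / 4 : ℝ) ^ (k + 1 - s) * ms i s = 3 / 4 * bet k i := by
      rw [← ih, mul_sum]
      refine sum_congr rfl fun s hs => ?_
      rw [mem_range] at hs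
      have : k + 1 - s = (k - s) + 1 := by omega
      rw [this, pow_succ]
      ring
    rw [h1]
    cases i with
    | zero => rw [ms_zero_succ, bet_succ_zero, add_zero]
    | succ i => rw [ms_succ, ih, bet_succ_succ]

theorem ms_sum_le (m K : ℕ) : ∑ s ∈ range (K + 1), ms m s ≤ 1 := by
  have h1 : ∑ s ∈ range (K + 1), ms m s = ∑ s ∈ range (K + 1), ∑ w ∈ FWT K m s, qw w := by
    refine sum_congr rfl fun s hs => ?_
    rw [mem_range] at hs
    rw [FWT_eq (by omega)]
    rfl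
  rw [h1]
  refine le_trans ?_ (sum_qw_le K m)
  unfold FWT
  have h2 : ∑ s ∈ range (K + 1), ∑ w ∈ (FW K m).filter (fun w => w.sum = s), qw w =
      ∑ w ∈ (FW K m).filter (fun w => w.sum ∈ range (K + 1)), qw w := by
    rw [← sum_fiberwise_of_maps_to (s := (FW K m).filter (fun w => w.sum ∈ range (K + 1)))
      (t := range (K + 1)) (g := fun w : List ℕ => w.sum) (fun w hw => (mem_filter.1 hw).2)]
    refine sum_congr rfl fun s hs => ?_
    rw [filter_filter]
    apply sum_congr _ fun _ _ => rfl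
    ext w
    rw [mem_filter, mem_filter]
    constructor
    · rintro ⟨h3, h4⟩
      exact ⟨h3, by rw [h4]; exact hs, h4⟩
    · rintro ⟨h3, _, h4⟩
      exact ⟨h3, h4⟩
  rw [h2]
  exact sum_le_sum_of_subset_of_nonneg (filter_subset _ _) fun w _ _ => qw_nonneg w

theorem ms_sum_ge (m : ℕ) {ε : ℝ} (hε : 0 < ε) : ∃ K : ℕ, 1 - ε ≤ ∑ s ∈ range (K + 1), ms m s := by
  have h1 : Filter.Tendsto (fun A : ℕ => (1 - (3 / 4 : ℝ) ^ A) ^ m) Filter.atTop (nhds ((1 - 0) ^ m)) :=
    (tendsto_const_nhds.sub pow_tendsto).pow m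
  rw [sub_zero, one_pow] at h1
  have h2 := (tendsto_order.1 h1).1 (1 - ε) (by linarith)
  obtain ⟨A, hA⟩ := h2.exists
  refine ⟨m * A, hA.le.trans ?_⟩
  rw [← sum_qw A m]
  have h3 : ∑ s ∈ range (m * A + 1), ∑ w ∈ FWT A m s, qw w = ∑ w ∈ FW A m, qw w := by
    unfold FWT
    apply sum_fiberwise_of_maps_to
    intro w hw
    have := (sum_le_of_mem hw).2
    rw [mem_range]
    omega
  rw [← h3]
  exact sum_le_sum fun s _ => sum_le_sum_of_subset_of_nonneg (FWT_sub A m s) fun w _ _ => qw_nonneg w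

/-- pairs of words -/
theorem cnt_FT_add (k₁ k₂ s M : ℕ) (c : ℤ) :
    cnt (FT (k₁ + k₂) s) qw (fun w => (Wo w : ℤ)) M c = ∑ t ∈ range (s + 1),
      cnt (FT k₁ t ×ˢ FT k₂ (s - t)) (fun q => qw q.1 * qw q.2)
        (fun q => 2 ^ (s - t) * (Wo q.1 : ℤ) + 3 ^ k₁ * (Wo q.2 : ℤ)) M c := by
  classical
  unfold cnt
  rw [sum_FT_add]
  refine sum_congr rfl fun t _ => ?_
  refine sum_congr rfl fun q hq => ?_
  rw [mem_product] at hq
  unfold FT FWT at hq
  rw [mem_filter, mem_filter] at hq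
  have e : (Wo (q.1 ++ q.2) : ℤ) = 2 ^ (s - t) * (Wo q.1 : ℤ) + 3 ^ k₁ * (Wo q.2 : ℤ) := by
    rw [Wo_append, hq.2.2, (mem_FW.1 hq.1.1).1]
    push_cast
    ring
  simp only [e, qw_append]

end Pool.Agent.H623.TS
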