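import Pool.Agent.H623.TS.M1

/-!
# An entropy bound for martingales on the residue classes modulo powers of `3`
-/

set_option autoImplicit false

namespace Pool.Agent.H623.TS

open Finset Pool.Agent.H320R2.PD Pool.Agent.H377R2.NK

section Mart

variable {u : ℕ → ℤ → ℝ} (hper : ∀ j, Per j (u j)) (h0 : ∀ j x, 0 ≤ u j x)
  (hl : ∀ j x, u (j + 1) x + u (j + 1) (x + 3 ^ j) + u (j + 1) (x + 2 * 3 ^ j) = 3 * u j x)

/-- the entropy -/
noncomputable def Eu (u : ℕ → ℤ → ℝ) (n : ℕ) : ℝ := S n (fun x => u n x * Real.log (u n x)) / 3 ^ n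

/-- the nonuniformity of a digit -/
noncomputable def Fu (u : ℕ → ℤ → ℝ) (n : ℕ) : ℝ :=
  (∑ x ∈ range (3 ^ n), F3 (u (n + 1) x) (u (n + 1) (x + 3 ^ n)) (u (n + 1) (x + 2 * 3 ^ n))) / 3 ^ (n + 1)

include h0 hl in
theorem u_succ_le (n : ℕ) (x : ℤ) : u (n + 1) x ≤ 3 * u n x := by
  have h := hl n x
  have h1 := h0 (n + 1) (x + 3 ^ n)
  have h2 := h0 (n + 1) (x + 2 * 3 ^ n)
  linarith

include h0 hl in
theorem u_add_le (n l : ℕ) (x : ℤ) : u (n + l) x ≤ 3 ^ l * u n x := by
  induction l with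
  | zero => simp
  | succ l ih =>
    calc u (n + (l + 1)) x ≤ 3 * u (n + l) x := u_succ_le h0 hl (n + l) x
      _ ≤ 3 * (3 ^ l * u n x) := by linarith
      _ = _ := by ring

include h0 hl in
theorem u_abs_cont {n l : ℕ} {x : ℤ} (h : u n x = 0) : u (n + l) x = 0 := by
  have h1 := u_add_le h0 hl n l x
  rw [h, mul_zero] at h1
  exact le_antisymm h1 (h0 _ _)

include hl in
theorem u_mart (n l : ℕ) {φ : ℤ → ℝ} (hφ : Per n φ) :
    S (n + l) (fun x => u (n + l) x * φ x) = 3 ^ l * S n (fun x => u n x * φ x) := by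
  induction l with
  | zero => simp
  | succ l ih =>
    have h1 : S (n + (l + 1)) (fun x => u (n + (l + 1)) x * φ x) =
        3 * S (n + l) (fun x => u (n + l) x * φ x) := by
      unfold S
      rw [← add_assoc, ent_range_split (fun x => u (n + l + 1) x * φ x) (n + l), mul_sum]
      refine sum_congr rfl fun x _ => ?_
      have hφ' := hφ.le (Nat.le_add_right n l)
      have e1 : φ ((x : ℤ) + 3 ^ (n + l)) = φ x := by
        have := hφ' x 1
        rwa [mul_one] at this
      have e2 : φ ((x : ℤ) + 2 * 3 ^ (n + l)) = φ x := by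
        have := hφ' x 2
        rwa [mul_comm] at this
      rw [e1, e2]
      have := hl (n + l) x
      linear_combination φ x * this
    rw [h1, ih]
    ring

include hl in
theorem u_total (n : ℕ) : S n (u n) = 3 ^ n * u 0 0 := by
  have h := u_mart hl 0 n (φ := fun _ => 1) (fun _ _ => rfl)
  simp only [mul_one, zero_add] at h
  have h2 : S 0 (u 0) = u 0 0 := by simp [S]
  have h3 : S n (u n) = 3 ^ n * S 0 (u 0) := h
  rw [h3, h2]

include hper h0 hl

theorem u_hell_sum (n l : ℕ) :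
    S (n + l) (fun x => (Real.sqrt (u (n + l) x) - Real.sqrt (u n x)) ^ 2) ≤
      3 ^ (n + l) * (Eu u (n + l) - Eu u n) := by
  have h1 : S (n + l) (fun x => (Real.sqrt (u (n + l) x) - Real.sqrt (u n x)) ^ 2) ≤
      S (n + l) (fun x => u (n + l) x * Real.log (u (n + l) x) - u (n + l) x * Real.log (u n x) -
        u (n + l) x + u n x) :=
    S_mono fun x => hell (h0 _ _) (h0 _ _) (u_abs_cont h0 hl)
  refine h1.trans (le_of_eq ?_)
  have h2 : S (n + l) (fun x => u (n + l) x * Real.log (u (n + l) x) -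
      u (n + l) x * Real.log (u n x) - u (n + l) x + u n x) =
      S (n + l) (fun x => u (n + l) x * Real.log (u (n + l) x)) -
      S (n + l) (fun x => u (n + l) x * Real.log (u n x)) - S (n + l) (u (n + l)) +
      S (n + l) (u n) := by
    unfold S
    rw [sum_add_distrib, sum_sub_distrib, sum_sub_distrib]
  have hlp : Per n (fun x => Real.log (u n x)) := fun x y => by
    dsimp only
    rw [hper n x y]
  rw [h2, u_mart hl n l hlp, u_total hl, S_per (hper n) l, u_total hl]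
  unfold Eu
  rw [pow_add]
  field_simp
  ring

theorem Eu_mono (n l : ℕ) : Eu u n ≤ Eu u (n + l) := by
  have h1 := u_hell_sum hper h0 hl n l
  have h2 : 0 ≤ S (n + l) (fun x => (Real.sqrt (u (n + l) x) - Real.sqrt (u n x)) ^ 2) :=
    sum_nonneg fun x _ => sq_nonneg _
  have h3 : (0 : ℝ) < 3 ^ (n + l) := by positivity
  nlinarith

theorem u_N_diff_le (n l : ℕ) :
    N (n + l) (fun x => u (n + l) x - u n x) ≤
      2 * (Real.sqrt (u 0 0) * Real.sqrt (Eu u (n + l) - Eu u n)) := by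
  have hE : 0 ≤ Eu u (n + l) - Eu u n := by
    have := Eu_mono hper h0 hl n l
    linarith
  unfold N
  rw [div_le_iff₀ (by positivity)]
  have h1 : ∀ x : ℤ, |u (n + l) x - u n x| =
      Real.sqrt ((Real.sqrt (u (n + l) x) - Real.sqrt (u n x)) ^ 2) *
      Real.sqrt ((Real.sqrt (u (n + l) x) + Real.sqrt (u n x)) ^ 2) := by
    intro x
    rw [Real.sqrt_sq_eq_abs, Real.sqrt_sq_eq_abs, ← abs_mul]
    congr 1
    have e1 := Real.sq_sqrt (h0 (n + l) x)
    have e2 := Real.sq_sqrt (h0 n x)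
    nlinarith
  have h2 : S (n + l) (fun x => |u (n + l) x - u n x|) ≤
      Real.sqrt (S (n + l) (fun x => (Real.sqrt (u (n + l) x) - Real.sqrt (u n x)) ^ 2)) *
      Real.sqrt (S (n + l) (fun x => (Real.sqrt (u (n + l) x) + Real.sqrt (u n x)) ^ 2)) := by
    unfold S
    simp only [h1]
    exact Real.sum_sqrt_mul_sqrt_le _ (fun x => sq_nonneg _) (fun x => sq_nonneg _)
  have h3 : S (n + l) (fun x => (Real.sqrt (u (n + l) x) + Real.sqrt (u n x)) ^ 2) ≤
      4 * 3 ^ (n + l) * u 0 0 := by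
    have h4 : S (n + l) (fun x => (Real.sqrt (u (n + l) x) + Real.sqrt (u n x)) ^ 2) ≤
        S (n + l) (fun x => 2 * u (n + l) x + 2 * u n x) := by
      apply S_mono
      intro x
      have e1 := Real.sq_sqrt (h0 (n + l) x)
      have e2 := Real.sq_sqrt (h0 n x)
      nlinarith [sq_nonneg (Real.sqrt (u (n + l) x) - Real.sqrt (u n x))]
    have h5 : S (n + l) (fun x => 2 * u (n + l) x + 2 * u n x) =
        2 * S (n + l) (u (n + l)) + 2 * S (n + l) (u n) := by
      unfold S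
      rw [sum_add_distrib, mul_sum, mul_sum]
    rw [h5, u_total hl, S_per (hper n) l, u_total hl] at h4
    refine h4.trans (le_of_eq ?_)
    rw [pow_add]
    ring
  refine h2.trans ?_
  have h6 : Real.sqrt (S (n + l) (fun x => (Real.sqrt (u (n + l) x) - Real.sqrt (u n x)) ^ 2)) ≤
      Real.sqrt (3 ^ (n + l) * (Eu u (n + l) - Eu u n)) :=
    Real.sqrt_le_sqrt (u_hell_sum hper h0 hl n l)
  have h7 : Real.sqrt (S (n + l) (fun x => (Real.sqrt (u (n + l) x) + Real.sqrt (u n x)) ^ 2)) ≤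
      Real.sqrt (4 * 3 ^ (n + l) * u 0 0) := Real.sqrt_le_sqrt h3
  refine (mul_le_mul h6 h7 (Real.sqrt_nonneg _) (Real.sqrt_nonneg _)).trans (le_of_eq ?_)
  rw [Real.sqrt_mul (by positivity), Real.sqrt_mul (by positivity),
    Real.sqrt_mul (by norm_num : (0 : ℝ) ≤ 4)]
  have e4 : Real.sqrt 4 = 2 := by
    rw [show (4 : ℝ) = 2 ^ 2 by norm_num, Real.sqrt_sq (by norm_num)]
  rw [e4]
  have e5 := Real.mul_self_sqrt (show (0 : ℝ) ≤ 3 ^ (n + l) by positivity)
  linear_combination (2 * Real.sqrt (Eu u (n + l) - Eu u n) * Real.sqrt (u 0 0)) * e5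

omit hper in
theorem Eu_succ (n : ℕ) : Eu u (n + 1) ≤ Eu u n + 2 * Fu u n := by
  unfold Eu Fu S
  rw [ent_range_split (fun x => u (n + 1) x * Real.log (u (n + 1) x)) n]
  have h1 : ∀ x ∈ range (3 ^ n), u (n + 1) x * Real.log (u (n + 1) x) +
      u (n + 1) (x + 3 ^ n) * Real.log (u (n + 1) (x + 3 ^ n)) +
      u (n + 1) (x + 2 * 3 ^ n) * Real.log (u (n + 1) (x + 2 * 3 ^ n)) ≤
      3 * (u n x * Real.log (u n x)) +
      2 * F3 (u (n + 1) x) (u (n + 1) (x + 3 ^ n)) (u (n + 1) (x + 2 * 3 ^ n)) := by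
    intro x _
    refine (ent3_le (h0 _ _) (h0 _ _) (h0 _ _)).trans (le_of_eq ?_)
    rw [hl]
    have : 3 * u n x / 3 = u n x := by ring
    rw [this]
    ring
  have h2 := sum_le_sum h1
  rw [sum_add_distrib (f := fun x : ℕ => 3 * (u n x * Real.log (u n x))), ← mul_sum, ← mul_sum] at h2
  dsimp only
  set A := ∑ x ∈ range (3 ^ n), (u (n + 1) x * Real.log (u (n + 1) x) +
      u (n + 1) (x + 3 ^ n) * Real.log (u (n + 1) (x + 3 ^ n)) +
      u (n + 1) (x + 2 * 3 ^ n) * Real.log (u (n + 1) (x + 2 * 3 ^ n))) with hA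
  set B := ∑ x ∈ range (3 ^ n), u n x * Real.log (u n x) with hB
  set C := ∑ x ∈ range (3 ^ n), F3 (u (n + 1) x) (u (n + 1) (x + 3 ^ n)) (u (n + 1) (x + 2 * 3 ^ n)) with hC
  have h3 : (0 : ℝ) < 3 ^ n := by positivity
  have h4 : B / 3 ^ n + 2 * (C / 3 ^ (n + 1)) = (3 * B + 2 * C) / 3 ^ (n + 1) := by
    rw [pow_succ]
    field_simp
  rw [h4]
  exact div_le_div_of_nonneg_right h2 (by positivity)

omit hper in
theorem Eu_add (n l : ℕ) : Eu u (n + l) ≤ Eu u n + 2 * ∑ j ∈ range l, Fu u (n + j) := by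
  induction l with
  | zero => simp
  | succ l ih =>
    have h1 := Eu_succ h0 hl (n + l)
    rw [sum_range_succ]
    have e : n + (l + 1) = n + l + 1 := by ring
    rw [e]
    linarith

/-- the distance of a term of the martingale from a later one -/
theorem u_diff (n l : ℕ) : N (n + l) (fun x => u (n + l) x - u n x) ≤
    2 * (Real.sqrt (u 0 0) * Real.sqrt (2 * ∑ j ∈ range l, Fu u (n + j))) := by
  refine (u_N_diff_le hper h0 hl n l).trans ?_
  have h1 := Eu_add h0 hl n l
  refine mul_le_mul_of_nonneg_left ?_ (by norm_num)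
  refine mul_le_mul_of_nonneg_left ?_ (Real.sqrt_nonneg _)
  apply Real.sqrt_le_sqrt
  linarith

end Mart

end Pool.Agent.H623.TS
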