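import Pool.Agent.H623.TS.M2

/-!
# The graded martingales: the fine digits
-/

set_option autoImplicit false

namespace Pool.Agent.H623.TS

open Finset Filter Topology Pool.Agent.H320R2.PD Pool.Agent.H377R2.NK

/-- the conditional expectation of `Mi 1 k i` given the residue modulo `3 ^ j` -/
noncomputable def hh (k i j : ℕ) (x : ℤ) : ℝ :=
  3 ^ j * ∑ s ∈ range (k + 1), (3 / 4) ^ (k - s) * cnt (FT i s) qw (fun w => (Wo w : ℤ)) j (2 ^ s * x)

theorem cq_nonneg (m s j : ℕ) (x : ℤ) : 0 ≤ cnt (FT m s) qw (fun w => (Wo w : ℤ)) j x :=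
  cnt_nonneg (fun w _ => qw_nonneg w) _ _

theorem hh_nonneg (k i j : ℕ) (x : ℤ) : 0 ≤ hh k i j x := by
  unfold hh
  refine mul_nonneg (by positivity) (sum_nonneg fun s _ => ?_)
  exact mul_nonneg (by positivity) (cq_nonneg _ _ _ _)

theorem hh_per (k i j : ℕ) : Per j (hh k i j) := by
  intro x y
  unfold hh
  congr 1
  refine sum_congr rfl fun s _ => ?_
  congr 1
  exact cnt_congr _ ⟨2 ^ s * y, by ring⟩

theorem cnt_lifts (s : Finset (List ℕ)) (wt : List ℕ → ℝ) (v : List ℕ → ℤ) (n T : ℕ) (x : ℤ) :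
    cnt s wt v (n + 1) (2 ^ T * x) + cnt s wt v (n + 1) (2 ^ T * (x + 3 ^ n)) +
      cnt s wt v (n + 1) (2 ^ T * (x + 2 * 3 ^ n)) = cnt s wt v n (2 ^ T * x) := by
  have h2 : ((2 : ℤ) ^ T) % 3 = 1 ∨ ((2 : ℤ) ^ T) % 3 = 2 := by
    induction T with
    | zero => left; norm_num
    | succ t ih => rw [pow_succ]; omega
  rw [cnt_split s wt v n (2 ^ T * x)]
  generalize hu : (2 : ℤ) ^ T = u at h2 ⊢
  rcases h2 with h2 | h2
  · have h3 : u = 3 * (u / 3) + 1 := by omega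
    have e1 : cnt s wt v (n + 1) (u * (x + 3 ^ n)) = cnt s wt v (n + 1) (u * x + 3 ^ n) := by
      apply cnt_congr
      refine ⟨u / 3, ?_⟩
      rw [pow_succ]
      linear_combination (3 : ℤ) ^ n * h3
    have e2 : cnt s wt v (n + 1) (u * (x + 2 * 3 ^ n)) =
        cnt s wt v (n + 1) (u * x + 2 * 3 ^ n) := by
      apply cnt_congr
      refine ⟨2 * (u / 3), ?_⟩
      rw [pow_succ]
      linear_combination 2 * (3 : ℤ) ^ n * h3
    rw [e1, e2]
  · have h3 : u = 3 * (u / 3) + 2 := by omega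
    have e1 : cnt s wt v (n + 1) (u * (x + 3 ^ n)) = cnt s wt v (n + 1) (u * x + 2 * 3 ^ n) := by
      apply cnt_congr
      refine ⟨u / 3, ?_⟩
      rw [pow_succ]
      linear_combination (3 : ℤ) ^ n * h3
    have e2 : cnt s wt v (n + 1) (u * (x + 2 * 3 ^ n)) =
        cnt s wt v (n + 1) (u * x + 3 ^ n) := by
      apply cnt_congr
      refine ⟨2 * (u / 3) + 1, ?_⟩
      rw [pow_succ]
      linear_combination 2 * (3 : ℤ) ^ n * h3
    rw [e1, e2]
    ring

theorem hh_lift (k i j : ℕ) (x : ℤ) :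
    hh k i (j + 1) x + hh k i (j + 1) (x + 3 ^ j) + hh k i (j + 1) (x + 2 * 3 ^ j) = 3 * hh k i j x := by
  unfold hh
  rw [← mul_add, ← mul_add, ← sum_add_distrib, ← sum_add_distrib, ← mul_assoc, pow_succ, mul_comm 3]
  congr 1
  refine sum_congr rfl fun s _ => ?_
  rw [← mul_add, ← mul_add, cnt_lifts]

theorem hh_zero (k i : ℕ) (x : ℤ) : hh k i 0 x = bet k i := by
  unfold hh
  rw [pow_zero, one_mul, ← ms_bet]
  refine sum_congr rfl fun s _ => ?_
  congr 1
  unfold cnt ms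
  refine sum_congr rfl fun w _ => ?_
  rw [pow_zero, if_pos (one_dvd _)]

/-- the top level -/
theorem hh_top (k i : ℕ) (x : ℤ) : hh k i i x = Mi (fun _ => 1) k i x := by
  classical
  rw [Mi_eq (le_refl k), Wn_eq_Ws]
  unfold hh
  rw [mul_sum]
  refine sum_congr rfl fun s hs => ?_
  rw [mem_range] at hs
  unfold Ws cnt
  rw [FWT_eq (show s ≤ k by omega), mul_sum, mul_sum]
  refine sum_congr rfl fun w hw => ?_
  unfold FT FWT at hw
  rw [mem_filter, mem_FW] at hw
  have hlen : w.length = i := hw.1.1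
  have hsum : w.sum = s := hw.2
  have hiff : (3 : ℤ) ^ i ∣ (Wo w : ℤ) - 2 ^ s * x ↔ (3 : ℤ) ^ i ∣ 2 ^ s * x - (Wp 3 w : ℤ) := by
    rw [Wp_three, ← dvd_neg]
    have e : -((Wo w : ℤ) - 2 ^ s * x) = 2 ^ s * x - (Wo w : ℤ) := by ring
    rw [e]
  by_cases h : (3 : ℤ) ^ i ∣ (Wo w : ℤ) - 2 ^ s * x
  · rw [if_pos h, if_pos (hiff.1 h)]
    unfold qw
    rw [hlen, hsum]
    have e2 : (3 / 4 : ℝ) ^ k = (3 / 4) ^ (k - s) * (3 / 4) ^ s := by
      rw [← pow_add]; congr 1; omega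
    have e3 : (3 : ℝ) ^ i * (1 / 3) ^ i = 1 := by rw [← mul_pow]; norm_num
    rw [e2]
    linear_combination ((3 / 4 : ℝ) ^ (k - s) * (3 / 4) ^ s) * e3
  · rw [if_neg h, if_neg (fun h' => h (hiff.2 h')), mul_zero, mul_zero]

/-- nonuniformity of a digit of the offsets of the words with `m` letters, by size -/
noncomputable def gT (m s j : ℕ) : ℝ := Gam (FT m s) qw (fun w => (Wo w : ℤ)) j

theorem gT_nonneg (m s j : ℕ) : 0 ≤ gT m s j := Gam_nonneg _ _ fun w _ => qw_nonneg w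

theorem gT_le (m s j : ℕ) : gT m s j ≤ ms m s := Gam_le _ _ fun w _ => qw_nonneg w

theorem Fu_hh (k i j : ℕ) : Fu (hh k i) j ≤ ∑ s ∈ range (k + 1), (3 / 4) ^ (k - s) * gT i s j := by
  unfold Fu
  rw [div_le_iff₀ (by positivity)]
  have h1 : ∀ x : ℤ, F3 (hh k i (j + 1) x) (hh k i (j + 1) (x + 3 ^ j)) (hh k i (j + 1) (x + 2 * 3 ^ j)) ≤
      3 ^ (j + 1) * ∑ s ∈ range (k + 1), (3 / 4) ^ (k - s) *
        Fib (FT i s) qw (fun w => (Wo w : ℤ)) j (2 ^ s * x) := by
    intro x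
    unfold hh
    rw [F3_smul]
    refine mul_le_mul_of_nonneg_left ?_ (by positivity)
    refine (F3_sum _ _ _ _ (fun s _ => mul_nonneg (by positivity) (cq_nonneg _ _ _ _))
      (fun s _ => mul_nonneg (by positivity) (cq_nonneg _ _ _ _))
      (fun s _ => mul_nonneg (by positivity) (cq_nonneg _ _ _ _))).trans (le_of_eq ?_)
    refine sum_congr rfl fun s _ => ?_
    rw [F3_smul, F3_lifts]
  refine (sum_le_sum fun (x : ℕ) _ => h1 (x : ℤ)).trans ?_
  rw [← mul_sum, mul_comm ((3 : ℝ) ^ (j + 1))]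
  refine mul_le_mul_of_nonneg_right ?_ (by positivity)
  rw [sum_comm]
  refine sum_le_sum fun s _ => ?_
  rw [← mul_sum]
  refine mul_le_mul_of_nonneg_left ?_ (by positivity)
  unfold gT
  refine sum_Fib_le _ _ (fun w _ => qw_nonneg w) (range (3 ^ j))
    (fun x : ℕ => (2 : ℤ) ^ s * (x : ℤ)) ?_
  intro x hx y hy hxy
  have h1 : (3 : ℤ) ^ j ∣ (x : ℤ) - y := by
    have h2 : (2 : ℤ) ^ s * (x : ℤ) - 2 ^ s * y = 2 ^ s * ((x : ℤ) - y) := by ring
    rw [h2] at hxy
    exact (two_pow_isCoprime s j).dvd_of_dvd_mul_left hxy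
  have hx' : (x : ℤ) < 3 ^ j := by exact_mod_cast mem_range.1 hx
  have hy' : (y : ℤ) < 3 ^ j := by exact_mod_cast mem_range.1 hy
  have h6 := Int.eq_zero_of_abs_lt_dvd h1 (by
    rw [abs_lt]; constructor <;> linarith [Int.natCast_nonneg x, Int.natCast_nonneg y])
  have : (x : ℤ) = y := by linarith
  exact_mod_cast this

/-- the convolution inequality -/
theorem gT_conv (j i s : ℕ) : gT (j + i) s j ≤ ∑ t ∈ range (s + 1), gT j t j * ms i (s - t) := by
  have h1 : gT (j + i) s j ≤ ∑ t ∈ range (s + 1),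
      Gam (FT j t ×ˢ FT i (s - t)) (fun q => qw q.1 * qw q.2)
        (fun q => 2 ^ (s - t) * (Wo q.1 : ℤ) + 3 ^ j * (Wo q.2 : ℤ)) j := by
    unfold gT Gam
    rw [sum_comm]
    refine sum_le_sum fun c _ => ?_
    unfold Fib
    rw [cnt_FT_add, cnt_FT_add, cnt_FT_add]
    apply F3_sum <;>
    · intro p _
      apply cnt_nonneg
      intro q _
      exact mul_nonneg (qw_nonneg _) (qw_nonneg _)
  refine h1.trans (sum_le_sum fun t _ => ?_)
  have h2 := Gam_conv (s := FT j t) (s' := FT i (s - t)) (fun w => (Wo w : ℤ)) (fun w => (Wo w : ℤ))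
    (fun w _ => qw_nonneg w) (fun w _ => qw_nonneg w) (s - t) j 0
  rw [add_zero] at h2
  refine h2.trans ?_
  exact mul_le_mul_of_nonneg_left (Gam_le _ _ fun w _ => qw_nonneg w) (gT_nonneg _ _ _)

/-- the truncated nonuniformity -/
noncomputable def gi (k j : ℕ) : ℝ := ∑ t ∈ range (k + 1), gT j t j

theorem tri_sum (k : ℕ) (F : ℕ → ℕ → ℝ) : ∑ s ∈ range (k + 1), ∑ t ∈ range (s + 1), F t (s - t) =
    ∑ t ∈ range (k + 1), ∑ r ∈ range (k - t + 1), F t r := by
  rw [Finset.sum_sigma', Finset.sum_sigma']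
  refine Finset.sum_bij' (fun p _ => ⟨p.2, p.1 - p.2⟩) (fun p _ => ⟨p.1 + p.2, p.1⟩) ?_ ?_ ?_ ?_ ?_
  · rintro ⟨s, t⟩ h
    simp only [mem_sigma, mem_range] at h ⊢
    omega
  · rintro ⟨t, r⟩ h
    simp only [mem_sigma, mem_range] at h ⊢
    omega
  · rintro ⟨s, t⟩ h
    simp only [mem_sigma, mem_range] at h
    simp only [Sigma.mk.injEq, heq_eq_eq, and_true]
    omega
  · rintro ⟨t, r⟩ h
    simp only [Sigma.mk.injEq, heq_eq_eq, true_and]
    omega
  · rintro ⟨s, t⟩ h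
    rfl

theorem gT_sum (k j M : ℕ) : ∑ i ∈ range M, ∑ s ∈ range (k + 1), (3 / 4 : ℝ) ^ (k - s) * gT (j + i) s j ≤
    gi k j := by
  have h1 : ∀ i ∈ range M, ∑ s ∈ range (k + 1), (3 / 4 : ℝ) ^ (k - s) * gT (j + i) s j ≤
      ∑ t ∈ range (k + 1), gT j t j * bet (k - t) i := by
    intro i _
    have h2 : ∑ s ∈ range (k + 1), (3 / 4 : ℝ) ^ (k - s) * gT (j + i) s j ≤
        ∑ s ∈ range (k + 1), ∑ t ∈ range (s + 1),
          (fun t r => (3 / 4 : ℝ) ^ (k - t - r) * (gT j t j * ms i r)) t (s - t) := by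
      refine sum_le_sum fun s _ => ?_
      refine (mul_le_mul_of_nonneg_left (gT_conv j i s) (by positivity)).trans (le_of_eq ?_)
      rw [mul_sum]
      refine sum_congr rfl fun t ht => ?_
      rw [mem_range] at ht
      have : k - t - (s - t) = k - s := by omega
      dsimp only
      rw [this]
    refine h2.trans (le_of_eq ?_)
    rw [tri_sum k (fun t r => (3 / 4 : ℝ) ^ (k - t - r) * (gT j t j * ms i r))]
    refine sum_congr rfl fun t ht => ?_
    rw [← ms_bet, mul_sum]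
    refine sum_congr rfl fun r _ => ?_
    ring
  refine (sum_le_sum h1).trans ?_
  rw [sum_comm]
  unfold gi
  refine sum_le_sum fun t _ => ?_
  rw [← mul_sum]
  calc gT j t j * ∑ i ∈ range M, bet (k - t) i ≤ gT j t j * 1 :=
        mul_le_mul_of_nonneg_left (bet_sum_le _ _) (gT_nonneg _ _ _)
    _ = _ := mul_one _

theorem gi_nonneg (k j : ℕ) : 0 ≤ gi k j := sum_nonneg fun t _ => gT_nonneg _ _ _

theorem gi_mono (j : ℕ) : Monotone (fun k => gi k j) := by
  intro k l h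
  exact sum_le_sum_of_subset_of_nonneg (range_subset_range.2 (by omega)) fun t _ _ => gT_nonneg _ _ _

theorem gi_le_gz {k A : ℕ} (h : k ≤ A) (j : ℕ) : gi k j ≤ gz A j j := by
  classical
  unfold gi gz
  have h1 : ∀ t ∈ range (k + 1), gT j t j = Gam (FWT A j t) qw (fun w => (Wo w : ℤ)) j := by
    intro t ht
    rw [mem_range] at ht
    unfold gT
    rw [FWT_eq (show t ≤ A by omega)]
  rw [sum_congr rfl h1]
  have h2 : ∀ t ∈ range (k + 1) ∪ range (j * A + 1), t ∉ range (j * A + 1) →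
      Gam (FWT A j t) qw (fun w => (Wo w : ℤ)) j = 0 := by
    intro t _ ht
    rw [mem_range, not_lt] at ht
    have h3 : FWT A j t = ∅ := by
      unfold FWT
      rw [filter_eq_empty_iff]
      intro w hw h2
      have := (sum_le_of_mem hw).2
      omega
    rw [h3]
    refine le_antisymm ((Gam_le _ _ fun w _ => qw_nonneg w).trans (by simp)) ?_
    exact Gam_nonneg _ _ fun w _ => qw_nonneg w
  rw [sum_subset subset_union_right h2]
  exact sum_le_sum_of_subset_of_nonneg subset_union_left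
    fun t _ _ => Gam_nonneg _ _ fun w _ => qw_nonneg w

/-- uniform smallness of the tails -/
theorem gi_tail {ε : ℝ} (hε : 0 < ε) : ∃ J : ℕ, ∀ k l : ℕ, ∑ j ∈ range l, gi k (J + j) ≤ ε := by
  obtain ⟨C, hC, hsum⟩ := gz_sum
  have hb : ∀ j, BddAbove (Set.range fun k => gi k j) := by
    intro j
    refine ⟨1, ?_⟩
    rintro _ ⟨k, rfl⟩
    exact (gi_le_gz (le_refl k) j).trans (gz_le_one _ _ _)
  set G : ℕ → ℝ := fun j => ⨆ k, gi k j with hG
  have hle : ∀ k j, gi k j ≤ G j := fun k j => le_ciSup (hb j) k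
  have hG0 : ∀ j, 0 ≤ G j := fun j => (gi_nonneg 0 j).trans (hle 0 j)
  have hs : Summable G := by
    refine summable_of_sum_range_le (c := C) hG0 fun n => ?_
    have h1 : Tendsto (fun k => ∑ j ∈ range n, gi k j) atTop (𝓝 (∑ j ∈ range n, G j)) :=
      tendsto_finsetSum _ fun j _ => tendsto_atTop_ciSup (gi_mono j) (hb j)
    refine le_of_tendsto' h1 fun k => ?_
    have h2 : ∑ j ∈ range n, gi k j ≤ ∑ j ∈ range (n + 1), gz (max k (3 * n)) j j := by
      refine (sum_le_sum fun j _ => gi_le_gz (le_max_left k (3 * n)) j).trans ?_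
      exact sum_le_sum_of_subset_of_nonneg (range_subset_range.2 (by omega)) fun t _ _ => gz_nonneg _ _ _
    exact h2.trans (hsum n _ (le_max_right _ _))
  have h1 := tendsto_sum_nat_add G
  obtain ⟨J, hJ⟩ := ((tendsto_order.1 h1).2 ε hε).exists
  refine ⟨J, fun k l => ?_⟩
  have h2 : ∑ j ∈ range l, gi k (J + j) ≤ ∑ j ∈ range l, G (j + J) :=
    sum_le_sum fun j _ => by rw [add_comm J j]; exact hle _ _
  refine h2.trans (le_trans ?_ hJ.le)
  exact Summable.sum_le_tsum _ (fun j _ => hG0 _) ((summable_nat_add_iff J).2 hs)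

theorem tri_sum_le (M : ℕ) (G : ℕ → ℕ → ℝ) (hG : ∀ a b, 0 ≤ G a b) :
    ∑ i ∈ range M, ∑ j ∈ range i, G i j ≤ ∑ j ∈ range M, ∑ i ∈ range M, G (j + i) j := by
  have h1 : ∑ i ∈ range M, ∑ j ∈ range i, G i j = ∑ j ∈ range M, ∑ i ∈ Ico (j + 1) M, G i j := by
    apply Finset.sum_comm'
    intro i j
    rw [mem_range, mem_range, mem_range, mem_Ico]
    omega
  rw [h1]
  refine sum_le_sum fun j _ => ?_
  have h2 : ∑ i ∈ Ico (j + 1) M, G i j ≤ ∑ i ∈ Ico j (j + M), G i j :=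
    sum_le_sum_of_subset_of_nonneg (Ico_subset_Ico (by omega) (by omega)) fun i _ _ => hG _ _
  refine h2.trans (le_of_eq ?_)
  rw [sum_Ico_eq_sum_range, Nat.add_sub_cancel_left]

/-- the fine digits -/
theorem fine {ε : ℝ} (hε : 0 < ε) : ∃ J₀ : ℕ, ∀ J, J₀ ≤ J → ∀ k M : ℕ,
    ∑ i ∈ range M, N (J + i) (fun x => Mi (fun _ => 1) k (J + i) x - hh k (J + i) J x) ≤ ε := by
  obtain ⟨J₀, hJ₀⟩ := gi_tail (show 0 < ε ^ 2 / 8 by positivity)
  refine ⟨J₀, fun J hJ k M => ?_⟩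
  have hfu : ∀ i j, 0 ≤ Fu (hh k i) j := by
    intro i j
    unfold Fu
    refine div_nonneg (sum_nonneg fun x _ => F3_nonneg ?_ ?_ ?_) (by positivity) <;>
      exact hh_nonneg _ _ _ _
  have h1 : ∀ i ∈ range M, N (J + i) (fun x => Mi (fun _ => 1) k (J + i) x - hh k (J + i) J x) ≤
      Real.sqrt (bet k (J + i)) * Real.sqrt (8 * ∑ j ∈ range i, Fu (hh k (J + i)) (J + j)) := by
    intro i _
    have h2 := u_diff (u := hh k (J + i)) (hh_per k (J + i)) (hh_nonneg k (J + i)) (hh_lift k (J + i)) J i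
    have h3 : ∀ x, Mi (fun _ => 1) k (J + i) x - hh k (J + i) J x =
        hh k (J + i) (J + i) x - hh k (J + i) J x := by
      intro x
      rw [hh_top]
    rw [N_congr h3]
    refine h2.trans (le_of_eq ?_)
    rw [hh_zero]
    have h4 : Real.sqrt (8 * ∑ j ∈ range i, Fu (hh k (J + i)) (J + j)) =
        2 * Real.sqrt (2 * ∑ j ∈ range i, Fu (hh k (J + i)) (J + j)) := by
      have : 8 * ∑ j ∈ range i, Fu (hh k (J + i)) (J + j) =
          2 ^ 2 * (2 * ∑ j ∈ range i, Fu (hh k (J + i)) (J + j)) := by ring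
      rw [this, Real.sqrt_mul (by norm_num), Real.sqrt_sq (by norm_num)]
    rw [h4]
    ring
  refine (sum_le_sum h1).trans ?_
  refine (Real.sum_sqrt_mul_sqrt_le _ (fun i => bet_nonneg _ _) (fun i =>
    mul_nonneg (by norm_num) (sum_nonneg fun j _ => hfu _ _))).trans ?_
  have h5 : ∑ i ∈ range M, bet k (J + i) ≤ 1 := by
    have h6 := bet_sum_le k (J + M)
    rw [sum_range_add] at h6
    have : 0 ≤ ∑ i ∈ range J, bet k i := sum_nonneg fun i _ => bet_nonneg _ _
    linarith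
  have h6 : ∑ i ∈ range M, 8 * ∑ j ∈ range i, Fu (hh k (J + i)) (J + j) ≤ ε ^ 2 := by
    rw [← mul_sum]
    have h7 := tri_sum_le M (fun i j => Fu (hh k (J + i)) (J + j)) (fun a b => hfu _ _)
    have h8 : ∑ j ∈ range M, ∑ i ∈ range M, Fu (hh k (J + (j + i))) (J + j) ≤ ε ^ 2 / 8 := by
      have h9 : ∑ j ∈ range M, gi k (J + j) ≤ ε ^ 2 / 8 := by
        obtain ⟨d, rfl⟩ := Nat.exists_eq_add_of_le hJ
        have h10 := hJ₀ k (d + M)
        rw [sum_range_add] at h10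
        have h11 : 0 ≤ ∑ j ∈ range d, gi k (J₀ + j) := sum_nonneg fun j _ => gi_nonneg _ _
        have h12 : ∑ j ∈ range M, gi k (J₀ + d + j) = ∑ j ∈ range M, gi k (J₀ + (d + j)) :=
          sum_congr rfl fun j _ => by rw [add_assoc]
        rw [h12]
        linarith
      refine le_trans (sum_le_sum fun j _ => ?_) h9
      refine le_trans (sum_le_sum fun i _ => ?_) (gT_sum k (J + j) M)
      have e : J + (j + i) = J + j + i := by ring
      rw [e]
      exact Fu_hh _ _ _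
    linarith
  calc Real.sqrt (∑ i ∈ range M, bet k (J + i)) *
        Real.sqrt (∑ i ∈ range M, 8 * ∑ j ∈ range i, Fu (hh k (J + i)) (J + j))
      ≤ 1 * ε := by
        refine mul_le_mul ?_ ?_ (Real.sqrt_nonneg _) (by norm_num)
        · exact (Real.sqrt_le_sqrt h5).trans (le_of_eq Real.sqrt_one)
        · rw [Real.sqrt_le_left hε.le]
          exact h6
    _ = ε := one_mul ε

end Pool.Agent.H623.TS
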