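import Pool.Agent.H623.TS.M3

/-!
# The graded martingales: the coarse digits, and the local limit theorem in mean
-/

set_option autoImplicit false

namespace Pool.Agent.H623.TS

open Finset Filter Topology Pool.Agent.H320R2.PD Pool.Agent.H377R2.NK

/-- the part of size `t` of the martingale -/
noncomputable def cc (j t : ℕ) (x : ℤ) : ℝ := 3 ^ j * cnt (FT j t) qw (fun w => (Wo w : ℤ)) j (2 ^ t * x)

theorem cc_nonneg (j t : ℕ) (x : ℤ) : 0 ≤ cc j t x := mul_nonneg (by positivity) (cq_nonneg _ _ _ _)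

theorem hh_low (k j i : ℕ) (x : ℤ) : hh k (j + i) j x =
    ∑ t ∈ range (k + 1), cc j t x * bet (k - t) i := by
  classical
  unfold hh cc
  have h1 : ∀ s ∈ range (k + 1), (3 / 4 : ℝ) ^ (k - s) *
      cnt (FT (j + i) s) qw (fun w => (Wo w : ℤ)) j (2 ^ s * x) =
      ∑ t ∈ range (s + 1), (3 / 4 : ℝ) ^ (k - t - (s - t)) *
        (cnt (FT j t) qw (fun w => (Wo w : ℤ)) j (2 ^ t * x) * ms i (s - t)) := by
    intro s _
    rw [cnt_FT_add, mul_sum]
    refine sum_congr rfl fun t ht => ?_
    rw [mem_range] at ht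
    have e1 : k - t - (s - t) = k - s := by omega
    rw [e1]
    congr 1
    unfold cnt ms
    rw [sum_product, sum_mul]
    refine sum_congr rfl fun u _ => ?_
    rw [mul_sum]
    refine sum_congr rfl fun v _ => ?_
    have e2 : (2 : ℤ) ^ s = 2 ^ (s - t) * 2 ^ t := by
      rw [← pow_add]; congr 1; omega
    have hiff : (3 : ℤ) ^ j ∣ 2 ^ (s - t) * (Wo u : ℤ) + 3 ^ j * (Wo v : ℤ) - 2 ^ s * x ↔
        (3 : ℤ) ^ j ∣ (Wo u : ℤ) - 2 ^ t * x := by
      have e3 : 2 ^ (s - t) * (Wo u : ℤ) + 3 ^ j * (Wo v : ℤ) - 2 ^ s * x =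
          2 ^ (s - t) * ((Wo u : ℤ) - 2 ^ t * x) + 3 ^ j * (Wo v : ℤ) := by
        rw [e2]; ring
      rw [e3]
      constructor
      · intro h
        exact (two_pow_isCoprime (s - t) j).dvd_of_dvd_mul_left
          ((dvd_add_left (Dvd.intro _ rfl)).1 h)
      · intro h
        exact dvd_add (Dvd.dvd.mul_left h _) (Dvd.intro _ rfl)
    by_cases h : (3 : ℤ) ^ j ∣ (Wo u : ℤ) - 2 ^ t * x
    · rw [if_pos h, if_pos (hiff.2 h)]
    · rw [if_neg h, if_neg (fun h' => h (hiff.1 h')), zero_mul]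
  rw [sum_congr rfl h1, tri_sum k (fun t r => (3 / 4 : ℝ) ^ (k - t - r) *
    (cnt (FT j t) qw (fun w => (Wo w : ℤ)) j (2 ^ t * x) * ms i r)), mul_sum]
  refine sum_congr rfl fun t _ => ?_
  rw [← ms_bet, mul_sum, mul_sum]
  refine sum_congr rfl fun r _ => ?_
  ring

theorem cnt_per (j t : ℕ) : Per j (fun x => cnt (FT j t) qw (fun w => (Wo w : ℤ)) j x) := fun x y =>
  cnt_congr _ ⟨y, by ring⟩

theorem S_cc (j t : ℕ) : S j (cc j t) = 3 ^ j * ms j t := by
  have h1 := S_aff (cnt_per j t) t 0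
  unfold S at h1 ⊢
  unfold cc
  rw [← mul_sum]
  congr 1
  simp only [zero_add] at h1
  rw [h1, sum_cnt]
  rfl

theorem N_cc (j t : ℕ) : N j (cc j t) = ms j t := by
  unfold N
  have : (fun x => |cc j t x|) = cc j t := by
    funext x
    exact abs_of_nonneg (cc_nonneg _ _ _)
  rw [this, S_cc]
  field_simp

theorem cc_sum_le (K j : ℕ) (x : ℤ) : ∑ t ∈ range (K + 1), cc j t x ≤ D j x := by
  classical
  have h0 : DD 3 K j x ≤ D j x := le_ciSup (D_bdd j x) K
  refine le_trans ?_ h0
  rw [DD_eq_cnt, mul_sum]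
  have h1 : ∀ t ∈ range (K + 1), cc j t x =
      3 ^ j * cnt (FWT K j t) qw (fun w => (Wo w : ℤ)) j (2 ^ t * x) := by
    intro t ht
    rw [mem_range] at ht
    unfold cc
    rw [FWT_eq (show t ≤ K by omega)]
  rw [sum_congr rfl h1]
  have h2 : ∀ t ∈ range (K + 1) ∪ range (j * K + 1), t ∉ range (j * K + 1) →
      3 ^ j * cnt (FWT K j t) qw (fun w => (Wo w : ℤ)) j (2 ^ t * x) = 0 := by
    intro t _ ht
    rw [mem_range, not_lt] at ht
    have h3 : FWT K j t = ∅ := by
      unfold FWT
      rw [filter_eq_empty_iff]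
      intro w hw h2
      have := (sum_le_of_mem hw).2
      omega
    rw [h3]
    simp [cnt]
  rw [sum_subset subset_union_right h2]
  exact sum_le_sum_of_subset_of_nonneg subset_union_left
    fun t _ _ => mul_nonneg (by positivity) (cnt_nonneg (fun w _ => qw_nonneg w) _ _)

theorem N_D_sub (K j : ℕ) : N j (fun x => D j x - ∑ t ∈ range (K + 1), cc j t x) =
    1 - ∑ t ∈ range (K + 1), ms j t := by
  unfold N
  have h1 : (fun x => |D j x - ∑ t ∈ range (K + 1), cc j t x|) =
      fun x => D j x - ∑ t ∈ range (K + 1), cc j t x := by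
    funext x
    exact abs_of_nonneg (sub_nonneg.2 (cc_sum_le K j x))
  have h2 : S j (fun x => D j x - ∑ t ∈ range (K + 1), cc j t x) =
      3 ^ j * (1 - ∑ t ∈ range (K + 1), ms j t) := by
    have h3 : S j (fun x => D j x - ∑ t ∈ range (K + 1), cc j t x) =
        S j (D j) - ∑ t ∈ range (K + 1), S j (cc j t) := by
      unfold S
      rw [sum_sub_distrib, sum_comm]
    rw [h3, D_total]
    simp only [S_cc]
    rw [← mul_sum]
    ring
  rw [h1, h2]
  field_simp

/-- the coarse digits -/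
theorem coarse {J K k : ℕ} (hK : K ≤ k) (M : ℕ) :
    ∑ i ∈ range M, N J (fun x => hh k (J + i) J x - bet k (J + i) * D J x) ≤
      (J + K) * dl (k - K) + 2 * (1 - ∑ t ∈ range (K + 1), ms J t) := by
  set r : ℝ := 1 - ∑ t ∈ range (K + 1), ms J t with hr
  have hr0 : 0 ≤ r := by
    have := ms_sum_le J K
    linarith
  have hsplit : ∀ F : ℕ → ℝ, ∑ t ∈ range (k + 1), F t =
      ∑ t ∈ range (K + 1), F t + ∑ t ∈ range (k - K), F (K + 1 + t) := by
    intro F
    have : k + 1 = (K + 1) + (k - K) := by omega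
    rw [this, sum_range_add]
  have h1 : ∀ i ∈ range M, N J (fun x => hh k (J + i) J x - bet k (J + i) * D J x) ≤
      ∑ t ∈ range (K + 1), ms J t * |bet (k - t) i - bet k (J + i)| +
      (∑ t ∈ range (k - K), ms J (K + 1 + t) * bet (k - (K + 1 + t)) i + bet k (J + i) * r) := by
    intro i _
    have e : ∀ x, hh k (J + i) J x - bet k (J + i) * D J x =
        ∑ t ∈ range (K + 1), (bet (k - t) i - bet k (J + i)) * cc J t x +
        (∑ t ∈ range (k - K), bet (k - (K + 1 + t)) i * cc J (K + 1 + t) x +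
          (-bet k (J + i)) * (D J x - ∑ t ∈ range (K + 1), cc J t x)) := by
      intro x
      rw [hh_low, hsplit]
      have e1 : ∑ t ∈ range (K + 1), (bet (k - t) i - bet k (J + i)) * cc J t x =
          ∑ t ∈ range (K + 1), cc J t x * bet (k - t) i - bet k (J + i) * ∑ t ∈ range (K + 1), cc J t x := by
        rw [mul_sum, ← sum_sub_distrib]
        exact sum_congr rfl fun t _ => by ring
      have e2 : ∑ t ∈ range (k - K), bet (k - (K + 1 + t)) i * cc J (K + 1 + t) x =
          ∑ t ∈ range (k - K), cc J (K + 1 + t) x * bet (k - (K + 1 + t)) i :=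
        sum_congr rfl fun t _ => by ring
      rw [e1, e2]
      ring
    rw [N_congr e]
    refine (N_add _ _).trans (add_le_add ?_ ((N_add _ _).trans (add_le_add ?_ ?_)))
    · refine (N_sum_le _ _ _).trans (sum_le_sum fun t _ => ?_)
      rw [N_smul, N_cc, mul_comm]
    · refine (N_sum_le _ _ _).trans (sum_le_sum fun t _ => ?_)
      rw [N_smul, N_cc, abs_of_nonneg (bet_nonneg _ _), mul_comm]
    · rw [N_smul, N_D_sub, abs_neg, abs_of_nonneg (bet_nonneg _ _)]
  refine (sum_le_sum h1).trans ?_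
  rw [sum_add_distrib, sum_add_distrib, ← sum_mul]
  have hbJ : ∑ i ∈ range M, bet k (J + i) ≤ 1 := by
    have h6 := bet_sum_le k (J + M)
    rw [sum_range_add] at h6
    have : 0 ≤ ∑ i ∈ range J, bet k i := sum_nonneg fun i _ => bet_nonneg _ _
    linarith
  have h2 : ∑ i ∈ range M, ∑ t ∈ range (K + 1), ms J t * |bet (k - t) i - bet k (J + i)| ≤
      (J + K) * dl (k - K) := by
    rw [sum_comm]
    have h3 : ∀ t ∈ range (K + 1), ∑ i ∈ range M, ms J t * |bet (k - t) i - bet k (J + i)| ≤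
        ms J t * ((J + K) * dl (k - K)) := by
      intro t ht
      rw [mem_range] at ht
      rw [← mul_sum]
      refine mul_le_mul_of_nonneg_left ?_ (ms_nonneg _ _)
      have h4 := bet_both (k - t) M J t
      have h5 : ∑ i ∈ range M, |bet (k - t) i - bet k (J + i)| =
          ∑ i ∈ range M, |bet (k - t) i - bet (k - t + t) (i + J)| := by
        refine sum_congr rfl fun i _ => ?_
        rw [Nat.sub_add_cancel (show t ≤ k by omega), add_comm J i]
      rw [h5]
      refine h4.trans ?_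
      have h6 : dl (k - t) ≤ dl (k - K) := dl_anti (by omega)
      have h7 : (t : ℝ) ≤ K := by exact_mod_cast (show t ≤ K by omega)
      have h8 := dl_nonneg (k - K)
      have h9 := dl_nonneg (k - t)
      exact mul_le_mul (by linarith) h6 h9 (by positivity)
    refine (sum_le_sum h3).trans ?_
    rw [← sum_mul]
    have h4 := ms_sum_le J K
    have h5 : 0 ≤ (J + K) * dl (k - K) := mul_nonneg (by positivity) (dl_nonneg _)
    nlinarith
  have h3 : ∑ i ∈ range M, ∑ t ∈ range (k - K), ms J (K + 1 + t) * bet (k - (K + 1 + t)) i ≤ r := by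
    rw [sum_comm]
    have h4 : ∀ t ∈ range (k - K), ∑ i ∈ range M, ms J (K + 1 + t) * bet (k - (K + 1 + t)) i ≤
        ms J (K + 1 + t) := by
      intro t _
      rw [← mul_sum]
      have h5 := bet_sum_le (k - (K + 1 + t)) M
      have h6 := ms_nonneg J (K + 1 + t)
      nlinarith
    refine (sum_le_sum h4).trans ?_
    have h5 := ms_sum_le J k
    rw [hsplit] at h5
    linarith
  have h4 : (∑ i ∈ range M, bet k (J + i)) * r ≤ r := by nlinarith
  linarith

theorem Mi_one_per (k i : ℕ) : Per i (Mi (fun _ => 1) k i) := by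
  intro x y
  rw [← hh_top, ← hh_top]
  exact hh_per k i i x y

/-- **the local limit theorem in mean**, for the whole trees -/
theorem glim_one {ε : ℝ} (hε : 0 < ε) : ∃ J₀ : ℕ, ∀ J, J₀ ≤ J → ∃ K : ℕ, ∀ k, K ≤ k → ∀ L, J + k ≤ L →
    ∑ i ∈ range (k + 1), N L (fun x => Mi (fun _ => 1) k i x - bet k i * D J x) ≤ ε := by
  obtain ⟨J₀, hJ₀⟩ := fine (show 0 < ε / 4 by positivity)
  refine ⟨J₀, fun J hJ => ?_⟩
  obtain ⟨K₁, hK₁⟩ := ms_sum_ge J (show 0 < ε / 8 by positivity)
  have hd : Tendsto (fun k : ℕ => (J + K₁) * dl (k - K₁) + 2 * (J * dl k)) atTop (𝓝 0) := by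
    have h1 : Tendsto (fun k : ℕ => dl (k - K₁)) atTop (𝓝 0) :=
      dl_tendsto.comp (tendsto_sub_atTop_nat K₁)
    have h2 := (h1.const_mul ((J : ℝ) + K₁)).add ((dl_tendsto.const_mul (J : ℝ)).const_mul 2)
    simpa using h2
  obtain ⟨K₂, hK₂⟩ := eventually_atTop.1 ((tendsto_order.1 hd).2 (ε / 4) (by positivity))
  refine ⟨max K₁ K₂, fun k hk L hL => ?_⟩
  have hk1 : K₁ ≤ k := (le_max_left _ _).trans hk
  have hk2 := hK₂ k ((le_max_right _ _).trans hk)
  set F : ℕ → ℝ := fun i => N L (fun x => Mi (fun _ => 1) k i x - bet k i * D J x) with hF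
  have hF0 : ∀ i, 0 ≤ F i := fun i => N_nonneg _ _
  have h1 : ∑ i ∈ range (k + 1), F i ≤ ∑ i ∈ range (J + (k + 1)), F i :=
    sum_le_sum_of_subset_of_nonneg (range_subset_range.2 (by omega)) fun i _ _ => hF0 i
  refine h1.trans ?_
  rw [sum_range_add]
  have hND : N L (D J) = 1 := by
    rw [N_per (D_per J) (by omega)]
    unfold N
    have : (fun x => |D J x|) = D J := by
      funext x
      exact abs_of_nonneg (D_nonneg _ _)
    rw [this, D_total]
    field_simp
  have h2 : ∑ i ∈ range J, F i ≤ 2 * (J * dl k) := by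
    have h3 : ∀ i ∈ range J, F i ≤ 2 * dl k := by
      intro i _
      have h4 := N_tri (n := L) (Mi (fun _ => 1) k i) (fun _ => 0) (fun x => bet k i * D J x)
      refine h4.trans ?_
      have h5 : N L (fun x => Mi (fun _ => 1) k i x - 0) ≤ bet k i := by
        have e : ∀ x, Mi (fun _ => 1) k i x - 0 = Mi (fun _ => 1) k i x := fun x => sub_zero _
        have h6 := N_Mi (m := 0) (g := fun _ => 1) (fun _ _ => rfl) k i
        have h7 : N 0 (fun _ => 1) = 1 := by simp [N, S]
        rw [h7, mul_one, zero_add] at h6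
        have h8 : Per k (Mi (fun _ => 1) k i) := by
          have := Mi_per (m := 0) (g := fun _ => 1) (fun _ _ => rfl) k i
          rwa [zero_add] at this
        rw [N_congr e, N_per h8 (by omega)]
        exact h6
      have h6 : N L (fun x => 0 - bet k i * D J x) = bet k i := by
        rw [N_comm (n := L) (fun _ => 0) (fun x => bet k i * D J x)]
        have e : ∀ x, bet k i * D J x - 0 = bet k i * D J x := fun x => sub_zero _
        rw [N_congr e, N_smul, hND, mul_one, abs_of_nonneg (bet_nonneg _ _)]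
      rw [h6]
      have := bet_le k i
      linarith
    refine (sum_le_sum h3).trans (le_of_eq ?_)
    rw [sum_const, card_range, nsmul_eq_mul]
    ring
  have h3 : ∑ i ∈ range (k + 1), F (J + i) ≤
      ε / 4 + ((J + K₁) * dl (k - K₁) + 2 * (1 - ∑ t ∈ range (K₁ + 1), ms J t)) := by
    have h4 : ∀ i ∈ range (k + 1), F (J + i) ≤
        N (J + i) (fun x => Mi (fun _ => 1) k (J + i) x - hh k (J + i) J x) +
        N J (fun x => hh k (J + i) J x - bet k (J + i) * D J x) := by
      intro i hi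
      rw [mem_range] at hi
      have h5 := N_tri (n := L) (Mi (fun _ => 1) k (J + i)) (hh k (J + i) J)
        (fun x => bet k (J + i) * D J x)
      refine h5.trans (le_of_eq ?_)
      congr 1
      · apply N_per _ (by omega)
        intro x y
        dsimp only
        rw [Mi_one_per k (J + i) x y, (hh_per k (J + i) J).le (Nat.le_add_right J i) x y]
      · apply N_per _ (by omega)
        intro x y
        dsimp only
        rw [hh_per k (J + i) J x y, D_per J x y]
    refine (sum_le_sum h4).trans ?_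
    rw [sum_add_distrib]
    exact add_le_add (hJ₀ J hJ k (k + 1)) (coarse hk1 (k + 1))
  linarith

/-- **the local limit theorem in mean** -/
theorem glim {m : ℕ} {g : ℤ → ℝ} (hg : Per m g) {ε : ℝ} (hε : 0 < ε) :
    ∃ n₀ : ℕ, ∀ n, n₀ ≤ n → ∃ K : ℕ, ∀ k, K ≤ k → ∀ L, m + n + k ≤ L →
      ∑ i ∈ range (k + 1), N L (fun x => Mi g k i x - bet k i * (S m g / 3 ^ m * D n x)) ≤ ε := by
  set γ : ℝ := S m g / 3 ^ m with hγ
  obtain ⟨M, hM⟩ := glim_one (show 0 < ε / (2 * (|γ| + 1)) by positivity)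
  refine ⟨M, fun n hn => ?_⟩
  obtain ⟨K₁, hK₁⟩ := hM n hn
  have hperh : Per m (fun x => g x - γ * 1) := by
    intro x y
    dsimp only
    rw [hg x y]
  have h0 : S m (fun x => g x - γ * 1) = 0 := by
    have h1 : S m (fun x => g x - γ * 1) = S m g - γ * 3 ^ m := by
      unfold S
      rw [sum_sub_distrib, sum_const, card_range, nsmul_eq_mul]
      push_cast
      ring
    rw [h1, hγ]
    field_simp
    ring
  obtain ⟨K₂, hK₂⟩ := gmixing hperh h0 (show 0 < ε / 2 by positivity)
  refine ⟨max K₁ K₂, fun k hk L hL => ?_⟩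
  have h1 : ∀ i ∈ range (k + 1), N L (fun x => Mi g k i x - bet k i * (γ * D n x)) ≤
      N (m + k) (Mi (fun x => g x - γ * 1) k i) +
      |γ| * N L (fun x => Mi (fun _ => 1) k i x - bet k i * D n x) := by
    intro i _
    have e : ∀ x, Mi g k i x - bet k i * (γ * D n x) = Mi (fun x => g x - γ * 1) k i x +
        γ * (Mi (fun _ => 1) k i x - bet k i * D n x) := by
      intro x
      rw [Mi_sub g (fun _ => γ * 1), Mi_smul γ (fun _ => 1)]
      ring
    rw [N_congr e]
    refine (N_add _ _).trans ?_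
    rw [N_smul, N_per (Mi_per hperh k i) (by omega)]
  refine (sum_le_sum h1).trans ?_
  rw [sum_add_distrib, ← mul_sum]
  have h2 : ∑ i ∈ range (k + 1), N (m + k) (Mi (fun x => g x - γ * 1) k i) ≤ ε / 2 :=
    hK₂ k ((le_max_right _ _).trans hk)
  have h3 := hK₁ k ((le_max_left _ _).trans hk) L (by omega)
  have h4 : |γ| * ∑ i ∈ range (k + 1), N L (fun x => Mi (fun _ => 1) k i x - bet k i * D n x) ≤ ε / 2 := by
    calc |γ| * _ ≤ |γ| * (ε / (2 * (|γ| + 1))) := mul_le_mul_of_nonneg_left h3 (abs_nonneg _)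
      _ ≤ ε / 2 := by
          rw [← mul_div_assoc, div_le_div_iff₀ (by positivity) (by norm_num)]
          nlinarith [abs_nonneg γ]
  linarith

end Pool.Agent.H623.TS
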